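import Pool.Agent.U554.TD.Main
import Pool.Agent.U483.CX.Strat

/-!
# Schemes of small complexity
-/

set_option autoImplicit false

open CategoryTheory AlgebraicGeometry MvPolynomial Pool.Agent.Y116.UV

namespace Pool.Agent.U554.TD

variable {k : Type} [Field k] {H : Sch k → Prop}

/-- **Schemes of complexity at most `d`**: from the affine schemes of dimension at most `d` to the closed
subschemes of affine spaces given by equations with `t_1, t_2, …` terms, `∑ max(t_i - 2, 0) ≤ d`. -/
theorem complexity (hH : IsSided H) (d : ℕ) (hd : ∀ (A : Type) [CommRing A] [Algebra k A]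
    [Algebra.FiniteType k A], ringKrullDim A ≤ d → H (aff k A)) {n : ℕ}
    (G : Finset (MvPolynomial (Fin n) k)) (hG : ∑ g ∈ G, (g.support.card - 2) ≤ d) :
    H (aff k (MvPolynomial (Fin n) k ⧸ Ideal.span (G : Set (MvPolynomial (Fin n) k)))) := by
  have hP : Pool.Agent.U738.BN.Pos True H :=
    { iso := hH.iso
      total := hH.total
      times := hH.times
      finite := by
        intro A _ _ _
        refine hd A ?_
        have h1 : IsArtinianRing A := IsArtinianRing.of_finite k A
        have h2 : Ring.KrullDimLE 0 A := Ring.krullDimLE_zero_iff.mpr fun I hI =>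
          IsArtinianRing.isMaximal_of_isPrime I
        refine (Ring.krullDimLE_iff.mp h2).trans ?_
        exact_mod_cast Nat.zero_le d }
  exact Pool.Agent.U483.CX.small_finset hP d hd G hG

end Pool.Agent.U554.TD
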