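import Pool.Agent.U554.TD.Cmp

/-!
# Additive properties of the pure parts of the homology, dimension by dimension
-/

set_option autoImplicit false

open CategoryTheory AlgebraicGeometry MvPolynomial Pool.Agent.Y116.UV
open Pool.Agent.U554.TU Pool.Agent.U554.TW Pool.Agent.U483.GU

namespace Pool.Agent.U554.TD

universe v u w

variable {𝓢 : Type u} [Category.{v} 𝓢] [Abelian 𝓢] {k : Type} [Field k]

/-- The objects `O b 0 X` have the property `P` for all weights `b`. -/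
def AllWeights (P : 𝓢 → Prop) (O : ℤ → ℤ → Sch k → 𝓢) (X : Sch k) : Prop := ∀ b : ℤ, P (O b 0 X)

/-- The property `P` holds in the weights `b ≤ 0` and `b ≥ dim X`, where `gr^W_0 H_{2 b}(X)(-b)` is an Artin motive. -/
def ArtinHave (P : 𝓢 → Prop) (O : ℤ → ℤ → Sch k → 𝓢) : Prop :=
  ∀ (X : Sch k) (d : ℕ) (b : ℤ), FT True X → topologicalKrullDim X.left ≤ d →
    (b ≤ 0 ∨ (d : ℤ) ≤ b) → P (O b 0 X)

/-- The property `P` holds for the irreducible surfaces of degree at most four in the affine space of dimension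
three. They are birational to smooth projective surfaces of Kodaira dimension at most `0` (`K3`, or the second
cohomology is generated by divisors). -/
def QuarticsHave (P : 𝓢 → Prop) (O : ℤ → ℤ → Sch k → 𝓢) : Prop :=
  ∀ f : MvPolynomial (Fin 3) k, Irreducible f → f.totalDegree ≤ 4 →
    P (O 1 0 (aff k (MvPolynomial (Fin 3) k ⧸ Ideal.span {f})))

variable {P : 𝓢 → Prop} {O : ℤ → ℤ → Sch k → 𝓢}

/-- **Unconditional cases.** -/
theorem add_small (hP : IsAdditive P) (hO : IsPureTheory O) (hA : ArtinHave P O) (hq : QuarticsHave P O)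
    {a₁ a₂ a₃ : ℕ} (T : Fin a₁ → Fin a₂ → Fin a₃ → k)
    (ha : OneBlock 3 a₁ a₂ a₃ ∨ TwoBlocks 4 4 a₁ a₂ a₃) :
    AllWeights P O (bilS T) ∧ ∀ j : ℕ, 1 ≤ j → P (O (a₁ + a₂ + a₃ - 1 - j) 1 (hypS T)) := by
  refine mot_two hP.inherited (pure_sided hP hO hA) 1 4
    (fun V hV hdim b => hA V 1 b hV.ft hdim (by push_cast; omega)) (fun f hf hdeg b => ?_) T ha
  by_cases hb : b = 1
  · subst hb
    exact hq f hf hdeg
  · refine hA _ 2 b (ft_aff True) ?_ (by push_cast; omega)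
    rw [Pool.Agent.Z125.UN.topDim_aff]
    refine Pool.Agent.Z125.UN.dim_quot (N := 2) _ ?_
    rw [Ne, Ideal.span_singleton_eq_bot]
    exact hf.ne_zero

/-- **Dimension by dimension.** -/
theorem add_tfae [PerfectField k] (hP : IsAdditive P) (hO : IsPureTheory O) (hA : ArtinHave P O)
    (d : ℕ) (hd : 1 ≤ d) (s : ℕ) :
    List.TFAE [
      d = 1 ∨ ∀ V : Sch k, SmoothProjective V → topologicalKrullDim V.left ≤ d → AllWeights P O V,
      ∀ X : Sch k, FT True X → topologicalKrullDim X.left ≤ d → AllWeights P O X,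
      (∀ (a₁ a₂ a₃ : ℕ) (T : Fin a₁ → Fin a₂ → Fin a₃ → k), OneBlock (d + 2) a₁ a₂ a₃ →
        AllWeights P O (bilS T)) ∧
      ∀ (n : ℕ) (G : Finset (MvPolynomial (Fin n) k)), ∑ g ∈ G, (g.support.card - 2) ≤ d →
        AllWeights P O (aff k (MvPolynomial (Fin n) k ⧸ Ideal.span (G : Set (MvPolynomial (Fin n) k)))),
      ∀ (a₁ a₂ a₃ : ℕ) (T : Fin a₁ → Fin a₂ → Fin a₃ → k), OneBlock (d + 2) a₁ a₂ a₃ →
        ∀ j : ℕ, 1 ≤ j → P (O (a₁ + a₂ + a₃ - 1 - j) 1 (hypS T)),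
      ∀ (a₁ a₃ : ℕ) (T : Fin a₁ → Fin (d + 2) → Fin a₃ → k), ∀ j : ℕ, s ≤ j → 1 ≤ j →
        P (O (a₁ + (d + 2) + a₃ - 1 - j) 1 (hypS T))] := by
  have hS := pure_sided hP hO hA
  have h := mot_tfae hP.inherited hS 1
    (fun V hV hdim b => hA V 1 b hV.ft hdim (by push_cast; omega)) d hd s
  tfae_have 1 → 2 := fun h1 => (h.out 0 1).mp (h1.imp (fun h2 => by omega) id)
  tfae_have 2 → 1 := fun h1 => Or.inr fun V hV hdim => h1 V hV.ft hdim
  tfae_have 2 → 3 := by
    intro h1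
    refine ⟨(h.out 1 2).mp h1, fun n G hG =>
      complexity (sided_ab hP.inherited hS) d (fun A _ _ _ hA => ?_) G hG⟩
    refine h1 _ (ft_aff True) ?_
    rw [Pool.Agent.Z125.UN.topDim_aff]
    exact hA
  tfae_have 3 → 4 := fun h1 => (h.out 2 3).mp h1.1
  tfae_have 4 → 2 := fun h1 => (h.out 3 1).mp h1
  tfae_have 4 ↔ 5 := h.out 3 4
  tfae_finish

/-- Every direct factor has a complement. -/
lemma exists_complement {A B : 𝓢} (h : Nonempty (Retract A B)) : ∃ C : 𝓢, Nonempty (B ≅ A ⊞ C) := by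
  obtain ⟨r⟩ := h
  have : IsSplitMono r.i := IsSplitMono.mk' ⟨r.r, r.retract⟩
  let c := Limits.cokernelIsCokernel r.i
  exact ⟨_, ⟨Limits.biprod.uniqueUpToIso _ _ (Limits.isBilimitBinaryBiconeOfIsSplitMonoOfCokernel c)⟩⟩

end Pool.Agent.U554.TD
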