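import Pool.Agent.U554.TD.Main
import Pool.Agent.U554.TW.Cyc
import Pool.Agent.U483.GU.HDefs

/-!
# Cycle class maps with values in the classes of an abelian category, dimension by dimension
-/

set_option autoImplicit false

open CategoryTheory AlgebraicGeometry MvPolynomial Pool.Agent.Y116.UV
open Pool.Agent.U554.TU Pool.Agent.U554.TW Pool.Agent.U483.GU

namespace Pool.Agent.U554.TD

universe w v u

section

variable {𝓡 : Type u} [Category.{v} 𝓡] [Abelian 𝓡] {one : 𝓡}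

/-- Known properties of the cycle class maps (regulators) `c : CH_b(X, m) → Hom(one, H_{m + 2 b}(X)(-b))`
with values in an abelian category of realizations over a field of characteristic zero: the properties
`IsCycTheory` (long exact sequences, homotopy invariance, ...) and

* `point`: for `b ≤ 0`, `m ≤ 0`, `(b, m) ≠ (0, 0)` one has `CH_b(pt, m) = 0` and `H_{m + 2 b}(pt) = 0`;
* `pointOne`: `H_{1 + 2 b}(pt) = 0` for `b < 0`;
* `extreme`: if `dim X ≤ d`, then all classes are algebraic for `b ≤ 0` (`H_0` is generated by the classes of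
  closed points) and for `b ≥ d` (`H_{2 d}` is generated by the classes of the components);
* `seq`: for a closed subscheme `Z` of `X` with complement `U` the map `CH_b(X) → CH_b(U)` is onto, and
  `Hom(one, H_{2 b}(Z)(-b)) → Hom(one, H_{2 b}(X)(-b)) → Hom(one, H_{2 b}(U)(-b)) → 0` is exact (the classes are
  in the part of the lowest weight `0`, and the pure motives of weight `0` are semisimple);
* `cover`: for each `X` there is a smooth projective `V`, `dim V ≤ dim X`, and a morphism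
  `H_{2 b}(V)(-b) → H_{2 b}(X)(-b)`, compatible with the cycle class maps, such that all classes lift
  (resolution of singularities; the image is the part of weight `0`). -/
structure IsClassTheory {k : Type} [Field k] (O : ℤ → ℤ → Sch k → CReg.{w} one) : Prop
    extends IsCycTheory O where
  point : ∀ b m : ℤ, b ≤ 0 → m ≤ 0 → (b ≠ 0 ∨ m ≠ 0) → (O b m (aff k k)).Triv
  pointOne : ∀ b : ℤ, b < 0 → Limits.IsZero (O b 1 (aff k k)).B
  extreme : ∀ (X : Sch k) (d : ℕ) (b : ℤ), FT True X → topologicalKrullDim X.left ≤ d →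
    (b ≤ 0 ∨ (d : ℤ) ≤ b) → (O b 0 X).Onto
  seq : ∀ {Z X U : Sch k} (i : Z ⟶ X) (j : U ⟶ X), FT True X → IsTriple i j → ∀ b : ℤ,
    ∃ (α : CReg.Hom (O b 0 Z) (O b 0 X)) (β : CReg.Hom (O b 0 X) (O b 0 U)),
      Function.Surjective β.f ∧ (∀ y : one ⟶ (O b 0 U).B, ∃ x, x ≫ β.g = y) ∧
      ∀ x : one ⟶ (O b 0 X).B, x ≫ β.g = 0 → ∃ z, z ≫ α.g = x
  cover : ∀ X : Sch k, FT True X → ∃ V : Sch k, SmoothProjective V ∧
    topologicalKrullDim V.left ≤ topologicalKrullDim X.left ∧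
    ∀ b : ℤ, ∃ u : CReg.Hom (O b 0 V) (O b 0 X), ∀ x : one ⟶ (O b 0 X).B,
      ∃ y : one ⟶ (O b 0 V).B, y ≫ u.g = x

/-- All classes on `X` are algebraic. -/
def AllOnto {k : Type} [Field k] (O : ℤ → ℤ → Sch k → CReg.{w} one) (X : Sch k) : Prop :=
  ∀ b : ℤ, (O b 0 X).Onto

/-- One of the three blocks of variables has at most `r` elements. -/
def Block (r a₁ a₂ a₃ : ℕ) : Prop := a₁ ≤ r ∨ a₂ ≤ r ∨ a₃ ≤ r

variable {k : Type} [Field k] {O : ℤ → ℤ → Sch k → CReg.{w} one}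

lemma onto_iso {X Y : CReg.{w} one} (h : CReg.Iso X Y) : X.Onto ↔ Y.Onto :=
  CReg.onto_inherited.iff (C := CReg.rel one) h

lemma sided_class (hO : IsClassTheory O) : IsSided (AllOnto O) := by
  have hT := hO.toIsCycTheory.isTheory
  have hiso : ∀ {X Y : Sch k}, FT True X → Nonempty (X ≅ Y) → AllOnto O X → AllOnto O Y :=
    fun hX h hP b => (onto_iso (hO.iso hX h b 0)).mp (hP b)
  have htot : ∀ {Z X U : Sch k} (i : Z ⟶ X) (j : U ⟶ X), FT True X → IsTriple i j →
      AllOnto O Z → AllOnto O U → AllOnto O X := by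
    intro Z X U i j hX ht hZ hU b x
    obtain ⟨α, β, h1, h2, h3⟩ := hO.seq i j hX ht b
    obtain ⟨u, hu⟩ := hU b (x ≫ β.g)
    obtain ⟨a, rfl⟩ := h1 u
    obtain ⟨z, hz⟩ := h3 (x - (O b 0 X).c a) (by
      rw [Preadditive.sub_comp, β.comm, hu, sub_self])
    obtain ⟨z', rfl⟩ := hZ b z
    refine ⟨α.f z' + a, ?_⟩
    rw [map_add, ← α.comm, hz]
    abel
  have hopen : ∀ {Z X U : Sch k} (i : Z ⟶ X) (j : U ⟶ X), FT True X → IsTriple i j →
      AllOnto O Z → AllOnto O X → AllOnto O U := by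
    intro Z X U i j hX ht _ hP b y
    obtain ⟨α, β, h1, h2, h3⟩ := hO.seq i j hX ht b
    obtain ⟨x, rfl⟩ := h2 y
    obtain ⟨a, rfl⟩ := hP b x
    exact ⟨β.f a, (β.comm a).symm⟩
  have hdim0 : ∀ X : Sch k, FT True X → topologicalKrullDim X.left ≤ (0 : ℕ) → AllOnto O X := by
    intro X hX hd b
    exact hO.extreme X 0 b hX hd (by push_cast; omega)
  have hpt : AllOnto O (aff k k) := by
    refine hdim0 _ (ft_aff True) ?_
    rw [Pool.Agent.Z125.UN.topDim_aff, ringKrullDim_eq_zero_of_field]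
    exact le_of_eq (by push_cast; rfl)
  have hpoly : ∀ (A : Type) [CommRing A] [Algebra k A] [Algebra.FiniteType k A] (r : ℕ),
      AllOnto O (aff k A) → AllOnto O (aff k (MvPolynomial (Fin r) A)) := by
    intro A _ _ _ r h b
    have h1 := hO.space A r (b - r) 0
    rw [sub_add_cancel] at h1
    exact (onto_iso h1).mp (h (b - r))
  exact
    { iso := hiso
      total := htot
      opened := hopen
      empty := by
        intro B _ _ hB
        have hft : Algebra.FiniteType k B := by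
          have : Module.Finite k B := inferInstance
          infer_instance
        refine hdim0 _ (ft_aff True) ?_
        rw [Pool.Agent.Z125.UN.topDim_aff, ringKrullDim_eq_bot_of_subsingleton]
        exact bot_le
      space := fun p => hpoly k p hpt
      poly := hpoly
      times := by
        intro A _ _ _ h
        refine Pool.Agent.U738.BN.times_of_line (sep := True) hiso hopen ?_ h
        intro b
        have h1 := hO.space A 1 (b - 1) 0
        rw [show b - 1 + ((1 : ℕ) : ℤ) = b from by push_cast; ring] at h1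
        have e : MvPolynomial (Fin 1) A ≃ₐ[k] Polynomial A :=
          (MvPolynomial.uniqueAlgEquiv A (Fin 1)).restrictScalars k
        exact (onto_iso ((CReg.rel one).iso_trans h1 (hT.alg e b 0))).mp (h (b - 1)) }

/-- The affine space in the weight `N - j`. -/
lemma space_zero (hO : IsClassTheory O) (N j : ℕ) (hj : 1 ≤ j) {A : Type} [CommRing A]
    [Algebra k A] [Algebra.FiniteType k A] (e : MvPolynomial (Fin N) k ≃ₐ[k] A) :
    (O (N - j) 0 (aff k A)).Triv ∧ Limits.IsZero (O (N - j) 1 (aff k A)).B := by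
  have hT := hO.toIsCycTheory.isTheory
  have hs : ∀ m, (CReg.rel one).Iso (O (-j : ℤ) m (aff k k)) (O (N - j) m (aff k A)) := by
    intro m
    have h1 := hO.space k N (-j) m
    rw [show (-(j : ℤ)) + (N : ℤ) = N - j from by ring] at h1
    exact (CReg.rel one).iso_trans h1 (hT.alg e _ m)
  refine ⟨(CReg.rel one).iso_triv (hs 0) (hO.point _ _ (by omega) le_rfl (Or.inl (by omega))), ?_⟩
  obtain ⟨u, -, hu⟩ := hs 1
  have h1 := hO.pointOne (-j) (by omega)
  exact h1.of_iso (asIso u.g).symm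

/-- The bilinear equations and the hypersurface. -/
lemma bil_iff_hyp (hO : IsClassTheory O) {a₁ a₂ a₃ : ℕ} (T : Fin a₁ → Fin a₂ → Fin a₃ → k) (j : ℕ)
    (hj : 1 ≤ j) :
    (O (a₂ + a₃ - j) 0 (bilS T)).Onto ↔ (O (a₁ + a₂ + a₃ - 1 - j) 1 (hypS T)).Onto := by
  have hT := hO.toIsCycTheory.isTheory
  let f : Fin a₁ → MvPolynomial (Fin a₂ ⊕ Fin a₃) k := fun i => bil (Fin a₂) (Fin a₃) (T i)
  obtain ⟨⟨h0A, h0B⟩, h1B⟩ := space_zero hO (a₂ + a₃) j hj (renameEquiv k finSumFinEquiv.symm)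
  rw [show (((a₂ + a₃ : ℕ) : ℤ) - j) = a₂ + a₃ - j from by push_cast; ring] at h0A h0B h1B
  obtain ⟨α, β, δ, e1, e2, e3⟩ := hO.les _ _ (ft_aff True) (triple_ne f) (a₂ + a₃ - j)
  have hm : Mono (δ 0).g := (e2 0).2.mono (by rw [zero_add]; exact h1B)
  have he : Epi (δ 0).g := (e3 0).2.epi h0B
  have hi : IsIso (δ 0).g := isIso_of_mono_of_epi _
  have h3 := onto_iso (hT.bundle_ne f (a₂ + a₃ - j) 1)
  rw [show (a₂ + a₃ - j + a₁ - 1 : ℤ) = a₁ + a₂ + a₃ - 1 - j from by ring] at h3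
  have h4 := onto_iso (hT.alg (hypEquiv T) (a₁ + a₂ + a₃ - 1 - j) 1)
  have key : (O (a₂ + a₃ - j) 0 (bilS T)).Onto ↔
      (O (a₂ + a₃ - j) (0 + 1) (opn (aff k (MvPolynomial (Fin a₂ ⊕ Fin a₃) k))
        (neOpen k f))).Onto := by
    constructor
    · intro h x
      obtain ⟨z, hz⟩ := h (x ≫ (δ 0).g)
      obtain ⟨y, hy⟩ := ((e3 0).1 z).mp (Subsingleton.elim _ _)
      refine ⟨y, ?_⟩
      rw [← cancel_mono (δ 0).g, (δ 0).comm, hy]
      exact hz
    · intro h z
      obtain ⟨r, hr1, hr2⟩ := hi.out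
      obtain ⟨y, hy⟩ := h (z ≫ r)
      refine ⟨(δ 0).f y, ?_⟩
      refine ((δ 0).comm y).symm.trans ?_
      rw [hy, Category.assoc]
      refine (congrArg (fun t => z ≫ t) hr2).trans ?_
      exact Category.comp_id z
  rw [zero_add] at key
  exact key.trans (h3.trans h4.symm)

lemma all_bil (hO : IsClassTheory O) {a₁ a₂ a₃ : ℕ} (T : Fin a₁ → Fin a₂ → Fin a₃ → k)
    (h : ∀ j : ℕ, 1 ≤ j → (O (a₁ + a₂ + a₃ - 1 - j) 1 (hypS T)).Onto) : AllOnto O (bilS T) := by
  intro b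
  by_cases hb : b < a₂ + a₃
  · have h1 := (bil_iff_hyp hO T ((a₂ + a₃ - b : ℤ)).toNat (by omega)).mpr (h _ (by omega))
    rw [show (a₂ + a₃ - (((a₂ + a₃ - b : ℤ)).toNat : ℤ) : ℤ) = b from by omega] at h1
    exact h1
  · refine hO.extreme (bilS T) (a₂ + a₃) b (ft_aff True) ?_ (Or.inr (by push_cast; omega))
    refine (le_of_eq (Pool.Agent.Z125.UN.topDim_aff _)).trans ?_
    refine (ringKrullDim_le_of_surjective _ Ideal.Quotient.mk_surjective).trans ?_
    rw [MvPolynomial.ringKrullDim_of_isNoetherianRing, ringKrullDim_eq_zero_of_field, zero_add,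
      Nat.card_sum, Nat.card_fin, Nat.card_fin]

/-- From the schemes of dimension at most `d` to the cubics with a block of at most `d + 2` variables. -/
lemma hyp_of_dim (hO : IsClassTheory O) (d : ℕ) (h : ∀ X : Sch k, FT True X →
      topologicalKrullDim X.left ≤ d → AllOnto O X) {a₁ a₂ a₃ : ℕ}
    (T : Fin a₁ → Fin a₂ → Fin a₃ → k) (ha : Block (d + 2) a₁ a₂ a₃) (j : ℕ) (hj : 1 ≤ j) :
    (O (a₁ + a₂ + a₃ - 1 - j) 1 (hypS T)).Onto := by
  have hT := hO.toIsCycTheory.isTheory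
  have key : ∀ (b₁ b₂ b₃ : ℕ) (S : Fin b₁ → Fin b₂ → Fin b₃ → k), b₂ ≤ d + 2 →
      (O (b₁ + b₂ + b₃ - 1 - j) 1 (hypS S)).Onto := by
    intro b₁ b₂ b₃ S hb
    refine (bil_iff_hyp hO S j hj).mp (bil_of_dim (sided_class hO) d (fun A _ _ _ hA => ?_) hb S _)
    refine h _ (ft_aff True) ?_
    rw [Pool.Agent.Z125.UN.topDim_aff]
    exact hA
  rcases ha with ha | ha | ha
  · obtain ⟨e⟩ := hyp_swap T
    have h1 := key a₂ a₁ a₃ (fun j i l => T i j l) ha
    rw [show (a₂ + a₁ + a₃ - 1 - j : ℤ) = a₁ + a₂ + a₃ - 1 - j from by ring] at h1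
    exact (onto_iso (hT.alg e _ 1)).mpr h1
  · exact key a₁ a₂ a₃ T ha
  · obtain ⟨e⟩ := hyp_swap' T
    have h1 := key a₁ a₃ a₂ (fun i l j => T i j l) ha
    rw [show (a₁ + a₃ + a₂ - 1 - j : ℤ) = a₁ + a₂ + a₃ - 1 - j from by ring] at h1
    exact (onto_iso (hT.alg e _ 1)).mpr h1

/-- **Algebraic classes, dimension by dimension.** -/
theorem class_tfae [PerfectField k] (hO : IsClassTheory O) (e : ℕ)
    (known : ∀ V : Sch k, SmoothProjective V → topologicalKrullDim V.left ≤ e → AllOnto O V)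
    (d : ℕ) (hd : 1 ≤ d) (s : ℕ) :
    List.TFAE [
      d ≤ e ∨ ∀ V : Sch k, SmoothProjective V → topologicalKrullDim V.left ≤ d → AllOnto O V,
      ∀ X : Sch k, FT True X → topologicalKrullDim X.left ≤ d → AllOnto O X,
      ∀ (a₁ a₂ a₃ : ℕ) (T : Fin a₁ → Fin a₂ → Fin a₃ → k), Block (d + 2) a₁ a₂ a₃ →
        AllOnto O (bilS T),
      ∀ (a₁ a₂ a₃ : ℕ) (T : Fin a₁ → Fin a₂ → Fin a₃ → k), Block (d + 2) a₁ a₂ a₃ →
        ∀ j : ℕ, 1 ≤ j → (O (a₁ + a₂ + a₃ - 1 - j) 1 (hypS T)).Onto,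
      ∀ (a₁ a₃ : ℕ) (T : Fin a₁ → Fin (d + 2) → Fin a₃ → k), ∀ j : ℕ, s ≤ j → 1 ≤ j →
        (O (a₁ + (d + 2) + a₃ - 1 - j) 1 (hypS T)).Onto] := by
  tfae_have 1 → 2 := by
    intro h X hX hdim b x
    obtain ⟨V, h1, h2, h3⟩ := hO.cover X hX
    obtain ⟨u, hu⟩ := h3 b
    obtain ⟨y, rfl⟩ := hu x
    have h4 : (O b 0 V).Onto := by
      rcases h with h | h
      · exact known V h1 ((h2.trans hdim).trans (by exact_mod_cast h)) b
      · exact h V h1 (h2.trans hdim) b
    obtain ⟨a, rfl⟩ := h4 y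
    exact ⟨u.f a, (u.comm a).symm⟩
  tfae_have 2 → 3 := fun h a₁ a₂ a₃ T ha =>
    all_bil hO T fun j hj => hyp_of_dim hO d h T ha j hj
  tfae_have 3 → 4 := fun h a₁ a₂ a₃ T ha j hj => (bil_iff_hyp hO T j hj).mp (h a₁ a₂ a₃ T ha _)
  tfae_have 4 → 5 := by
    intro h a₁ a₃ T j _ hj
    have h1 := h a₁ (d + 2) a₃ T (Or.inr (Or.inl le_rfl)) j hj
    push_cast at h1
    exact h1
  tfae_have 5 → 1 := by
    intro h
    refine Or.inr fun V hV hdim => ?_
    refine dim_of_hyp hO.toIsCycTheory.isTheory hO.point CReg.onto_inherited (sided_class hO) d hd ?_ s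
      (fun a₁ a₃ T j hj => h a₁ a₃ T j (by omega) (by omega)) V hV.ft hdim
    intro A _ _ _ hA b hb
    refine hO.extreme _ d b (ft_aff True) ?_ (Or.inr hb)
    rw [Pool.Agent.Z125.UN.topDim_aff]
    exact hA
  tfae_finish

end

end Pool.Agent.U554.TD
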