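import Pool.Agent.U554.TD.Pure
import Mathlib.Algebra.Category.ModuleCat.Abelian
import Mathlib.Algebra.Category.ModuleCat.Biproducts

/-!
# Two natural subspaces of the realizations of pure motives
-/

set_option autoImplicit false

open CategoryTheory AlgebraicGeometry MvPolynomial Pool.Agent.Y116.UV
open Pool.Agent.U554.TU Pool.Agent.U554.TW Pool.Agent.U483.GU

namespace Pool.Agent.U554.TD

universe v u w

/-- An additive functor `F` to vector spaces over `K` (a realization) with two subspaces `one M` and `two M`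
of `F(M)` for each object `M`, which are mapped to each other by the morphisms. -/
structure TwoSpaces (K : Type w) [Field K] (𝓢 : Type u) [Category.{v} 𝓢] [Abelian 𝓢] where
  /-- the realization -/
  F : 𝓢 ⥤ ModuleCat.{w} K
  [additive : F.Additive]
  /-- the first subspace -/
  one : ∀ M : 𝓢, Submodule K (F.obj M)
  /-- the second subspace -/
  two : ∀ M : 𝓢, Submodule K (F.obj M)
  one_map : ∀ {M N : 𝓢} (f : M ⟶ N), ∀ x ∈ one M, (F.map f).hom x ∈ one N
  two_map : ∀ {M N : 𝓢} (f : M ⟶ N), ∀ x ∈ two M, (F.map f).hom x ∈ two N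

attribute [instance] TwoSpaces.additive

variable {K : Type w} [Field K] {𝓢 : Type u} [Category.{v} 𝓢] [Abelian 𝓢]

/-- The two subspaces of `F(M)` are equal. -/
def TwoSpaces.Equal (S : TwoSpaces K 𝓢) (M : 𝓢) : Prop := S.one M = S.two M

lemma TwoSpaces.isAdditive (S : TwoSpaces K 𝓢) : IsAdditive S.Equal where
  factor := by
    rintro A B ⟨r⟩ hB
    have key : ∀ x, (S.F.map r.r).hom ((S.F.map r.i).hom x) = x := by
      intro x
      have h1 : S.F.map r.i ≫ S.F.map r.r = 𝟙 _ := by rw [← S.F.map_comp, r.retract, S.F.map_id]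
      have h2 := congrArg (fun u => u.hom x) h1
      simpa using h2
    apply le_antisymm
    · intro x hx
      have h1 := S.one_map r.i x hx
      rw [show S.one B = S.two B from hB] at h1
      have h2 := S.two_map r.r _ h1
      rwa [key] at h2
    · intro x hx
      have h1 := S.two_map r.i x hx
      rw [← show S.one B = S.two B from hB] at h1
      have h2 := S.one_map r.r _ h1
      rwa [key] at h2
  sum := by
    intro A B hA hB
    have key : ∀ x, (S.F.map Limits.biprod.inl).hom ((S.F.map (Limits.biprod.fst : A ⊞ B ⟶ A)).hom x) +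
        (S.F.map Limits.biprod.inr).hom ((S.F.map (Limits.biprod.snd : A ⊞ B ⟶ B)).hom x) = x := by
      intro x
      have h1 : S.F.map (Limits.biprod.fst : A ⊞ B ⟶ A) ≫ S.F.map Limits.biprod.inl +
          S.F.map (Limits.biprod.snd : A ⊞ B ⟶ B) ≫ S.F.map Limits.biprod.inr = 𝟙 _ := by
        rw [← S.F.map_comp, ← S.F.map_comp, ← S.F.map_add, Limits.biprod.total, S.F.map_id]
      have h2 := congrArg (fun u => u.hom x) h1
      simpa using h2
    apply le_antisymm
    · intro x hx
      have h1 := S.one_map (Limits.biprod.fst : A ⊞ B ⟶ A) x hx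
      have h2 := S.one_map (Limits.biprod.snd : A ⊞ B ⟶ B) x hx
      rw [show S.one A = S.two A from hA] at h1
      rw [show S.one B = S.two B from hB] at h2
      have h3 := (S.two (A ⊞ B)).add_mem (S.two_map Limits.biprod.inl _ h1)
        (S.two_map Limits.biprod.inr _ h2)
      rwa [key] at h3
    · intro x hx
      have h1 := S.two_map (Limits.biprod.fst : A ⊞ B ⟶ A) x hx
      have h2 := S.two_map (Limits.biprod.snd : A ⊞ B ⟶ B) x hx
      rw [← show S.one A = S.two A from hA] at h1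
      rw [← show S.one B = S.two B from hB] at h2
      have h3 := (S.one (A ⊞ B)).add_mem (S.one_map Limits.biprod.inl _ h1)
        (S.one_map Limits.biprod.inr _ h2)
      rwa [key] at h3

variable {k : Type} [Field k] (S : TwoSpaces K 𝓢) (O : ℤ → ℤ → Sch k → 𝓢)

/-- The two subspaces of the homology of `X` are equal in all weights. -/
def EqualOn (X : Sch k) : Prop := ∀ b : ℤ, S.Equal (O b 0 X)

/-- Known cases: the weights `b ≤ 0` and `b ≥ dim X`, where `gr^W_0 H_{2 b}(X)(-b)` is an Artin motive. -/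
def ArtinEqual : Prop :=
  ∀ (X : Sch k) (d : ℕ) (b : ℤ), FT True X → topologicalKrullDim X.left ≤ d →
    (b ≤ 0 ∨ (d : ℤ) ≤ b) → S.Equal (O b 0 X)

/-- Known cases: the irreducible surfaces of degree at most four in the affine space of dimension three. They
are birational to smooth projective surfaces of Kodaira dimension at most `0` (ruled, `K3`, abelian, Enriques,
bielliptic). -/
def QuarticEqual : Prop :=
  ∀ f : MvPolynomial (Fin 3) k, Irreducible f → f.totalDegree ≤ 4 →
    S.Equal (O 1 0 (aff k (MvPolynomial (Fin 3) k ⧸ Ideal.span {f})))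

variable {S O}

/-- **Unconditional cases.** -/
theorem equal_small (hO : IsPureTheory O) (hA : ArtinEqual S O) (hq : QuarticEqual S O)
    {a₁ a₂ a₃ : ℕ} (T : Fin a₁ → Fin a₂ → Fin a₃ → k)
    (ha : OneBlock 3 a₁ a₂ a₃ ∨ TwoBlocks 4 4 a₁ a₂ a₃) :
    EqualOn S O (bilS T) ∧ ∀ j : ℕ, 1 ≤ j → S.Equal (O (a₁ + a₂ + a₃ - 1 - j) 1 (hypS T)) := by
  refine mot_two S.isAdditive.inherited (pure_sided S.isAdditive hO hA) 1 4
    (fun V hV hdim b => hA V 1 b hV.ft hdim (by push_cast; omega)) (fun f hf hdeg b => ?_) T ha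
  by_cases hb : b = 1
  · subst hb
    exact hq f hf hdeg
  · refine hA _ 2 b (ft_aff True) ?_ (by push_cast; omega)
    rw [Pool.Agent.Z125.UN.topDim_aff]
    refine Pool.Agent.Z125.UN.dim_quot (N := 2) _ ?_
    rw [Ne, Ideal.span_singleton_eq_bot]
    exact hf.ne_zero

/-- **Dimension by dimension.** -/
theorem equal_tfae [PerfectField k] (hO : IsPureTheory O) (hA : ArtinEqual S O) (d : ℕ) (hd : 1 ≤ d)
    (s : ℕ) :
    List.TFAE [
      d = 1 ∨ ∀ V : Sch k, SmoothProjective V → topologicalKrullDim V.left ≤ d → EqualOn S O V,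
      ∀ X : Sch k, FT True X → topologicalKrullDim X.left ≤ d → EqualOn S O X,
      (∀ (a₁ a₂ a₃ : ℕ) (T : Fin a₁ → Fin a₂ → Fin a₃ → k), OneBlock (d + 2) a₁ a₂ a₃ →
        EqualOn S O (bilS T)) ∧
      ∀ (n : ℕ) (G : Finset (MvPolynomial (Fin n) k)), ∑ g ∈ G, (g.support.card - 2) ≤ d →
        EqualOn S O (aff k (MvPolynomial (Fin n) k ⧸ Ideal.span (G : Set (MvPolynomial (Fin n) k)))),
      ∀ (a₁ a₂ a₃ : ℕ) (T : Fin a₁ → Fin a₂ → Fin a₃ → k), OneBlock (d + 2) a₁ a₂ a₃ →
        ∀ j : ℕ, 1 ≤ j → S.Equal (O (a₁ + a₂ + a₃ - 1 - j) 1 (hypS T)),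
      ∀ (a₁ a₃ : ℕ) (T : Fin a₁ → Fin (d + 2) → Fin a₃ → k), ∀ j : ℕ, s ≤ j → 1 ≤ j →
        S.Equal (O (a₁ + (d + 2) + a₃ - 1 - j) 1 (hypS T))] := by
  have hS := pure_sided S.isAdditive hO hA
  have h := mot_tfae S.isAdditive.inherited hS 1
    (fun V hV hdim b => hA V 1 b hV.ft hdim (by push_cast; omega)) d hd s
  tfae_have 1 → 2 := fun h1 => (h.out 0 1).mp (h1.imp (fun h2 => by omega) id)
  tfae_have 2 → 1 := fun h1 => Or.inr fun V hV hdim => h1 V hV.ft hdim
  tfae_have 2 → 3 := by
    intro h1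
    refine ⟨(h.out 1 2).mp h1, fun n G hG =>
      complexity (sided_ab S.isAdditive.inherited hS) d (fun A _ _ _ hA => ?_) G hG⟩
    refine h1 _ (ft_aff True) ?_
    rw [Pool.Agent.Z125.UN.topDim_aff]
    exact hA
  tfae_have 3 → 4 := fun h1 => (h.out 2 3).mp h1.1
  tfae_have 4 → 2 := fun h1 => (h.out 3 1).mp h1
  tfae_have 4 ↔ 5 := h.out 3 4
  tfae_finish

end Pool.Agent.U554.TD
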