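import Pool.Agent.U554.TD.Cone

/-!
# The cone over an affine scheme: the open part and the boundary
-/

set_option autoImplicit false

open MvPolynomial Pool.Agent.Y116.UV Pool.Agent.U554.TU

namespace Pool.Agent.U554.TD

variable {k : Type} [Field k] {n D : ℕ}

lemma mon_induction {P : Mon n D → Prop} (h0 : P (mo n D))
    (hs : ∀ (m : Mon n D) (i : Fin n) (h : (m.1 + Finsupp.single i 1).degree ≤ D), P m →
      P ⟨_, h⟩) (m : Mon n D) : P m := by
  have key : ∀ (d : ℕ) (m : Mon n D), m.1.degree = d → P m := by
    intro d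
    induction d with
    | zero =>
      intro m hm
      have h1 : m = mo n D := Subtype.ext ((Finsupp.degree_eq_zero_iff _).mp hm)
      rw [h1]
      exact h0
    | succ d ih =>
      intro m hm
      have h1 : m.1 ≠ 0 := by
        intro h
        rw [h, map_zero] at hm
        omega
      obtain ⟨i, hi⟩ := Finsupp.ne_iff.mp h1
      have h2 : Finsupp.single i 1 ≤ m.1 := by
        rw [Finsupp.single_le_iff]
        have h3 : m.1 i ≠ 0 := hi
        omega
      have h3 : (m.1 - Finsupp.single i 1) + Finsupp.single i 1 = m.1 := tsub_add_cancel_of_le h2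
      have h4 : (m.1 - Finsupp.single i 1).degree + 1 = d + 1 := by
        have h5 := congrArg Finsupp.degree h3
        rw [map_add, Finsupp.degree_single, hm] at h5
        exact h5
      have h5 : (m.1 - Finsupp.single i 1).degree ≤ D := by
        have := m.2
        omega
      have h6 := hs ⟨_, h5⟩ i (by
        change ((m.1 - Finsupp.single i 1) + Finsupp.single i 1).degree ≤ D
        rw [h3]
        exact m.2) (ih _ (by change (m.1 - Finsupp.single i 1).degree = d; omega))
      have h7 : (⟨(m.1 - Finsupp.single i 1) + Finsupp.single i 1, by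
        rw [h3]
        exact m.2⟩ : Mon n D) = m := Subtype.ext h3
      rw [← h7]
      exact h6
  exact key _ m rfl

section

variable {G : Finset (MvPolynomial (Fin n) k)} {A Q : Type} [CommRing A] [Algebra k A] [CommRing Q]
  [Algebra k Q] {y0 : Q} {y : Fin n → Q} {z : Mon n D → Q}

/-- Solutions with a unit `y_0`. -/
lemma csol_unit {B : Type} [CommRing B] [Algebra k B] {y0 : B} {y : Fin n → B} {z : Mon n D → B}
    (h : CSol G y0 y z) (u : B) (hu : u * y0 = 1) (ψ : MvPolynomial (Fin n) k →ₐ[k] B)
    (hψ : ∀ i, ψ (X i) = -(u * y i)) (m : Mon n D) : z m = ψ (monomial m.1 1) * z (mo n D) := by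
  induction m using mon_induction with
  | h0 =>
    have h1 : (monomial (mo n D).1 (1 : k) : MvPolynomial (Fin n) k) = 1 := rfl
    rw [h1, map_one, one_mul]
  | hs m i hm ih =>
    have h1 := h.mul m i hm
    have h2 : (monomial (m.1 + Finsupp.single i 1) (1 : k) : MvPolynomial (Fin n) k) =
        monomial m.1 1 * X i := by
      rw [X, monomial_mul, one_mul]
    change z ⟨_, hm⟩ = ψ (monomial (m.1 + Finsupp.single i 1) 1) * z (mo n D)
    rw [h2, map_mul, hψ]
    linear_combination u * h1 - (u * y i) * ih - z ⟨_, hm⟩ * hu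

/-- **The open part of the cone.** -/
theorem cone_open (h : CRep G y0 y z) (φ : MvPolynomial (Fin n) k →ₐ[k] A)
    (hs : Function.Surjective φ) (hK : RingHom.ker φ = Ideal.span (G : Set (MvPolynomial (Fin n) k)))
    (hd : ∀ g ∈ G, ∀ m ∈ g.support, m.degree ≤ D) :
    Nonempty (Localization.Away (y0 * z (mo n D)) ≃ₐ[k] LaurentPolynomial (LaurentPolynomial A)) := by
  let c : Q := y0 * z (mo n D)
  let ι : Q →ₐ[k] Localization.Away c := IsScalarTower.toAlgHom k Q _
  let κ1 : A →ₐ[k] LaurentPolynomial A :=
    { (LaurentPolynomial.C : A →+* LaurentPolynomial A) with commutes' := fun _ => rfl }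
  let κ2 : LaurentPolynomial A →ₐ[k] LaurentPolynomial (LaurentPolynomial A) :=
    { (LaurentPolynomial.C : LaurentPolynomial A →+* LaurentPolynomial (LaurentPolynomial A)) with
      commutes' := fun _ => rfl }
  let s : LaurentPolynomial (LaurentPolynomial A) := κ2 (LaurentPolynomial.T 1)
  let t : LaurentPolynomial (LaurentPolynomial A) := LaurentPolynomial.T 1
  have hsu : IsUnit s := (LaurentPolynomial.isUnit_T 1).map κ2
  have htu : IsUnit t := LaurentPolynomial.isUnit_T 1
  let χ : MvPolynomial (Fin n) k →ₐ[k] LaurentPolynomial (LaurentPolynomial A) :=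
    (κ2.comp κ1).comp φ
  have hχ : ∀ g ∈ G, χ g = 0 := by
    intro g hg
    have h1 : g ∈ RingHom.ker φ := by
      rw [hK]
      exact Ideal.subset_span hg
    change κ2 (κ1 (φ g)) = 0
    rw [show φ g = 0 from h1, map_zero, map_zero]
  -- the first homomorphism
  have hS : CSol G t (fun i => -(χ (X i) * t)) (fun m : Mon n D => χ (monomial m.1 1) * s) := by
    refine ⟨fun m i hm => ?_, fun g hg => ?_⟩
    · have h2 : (monomial (m.1 + Finsupp.single i 1) (1 : k) : MvPolynomial (Fin n) k) =
          monomial m.1 1 * X i := by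
        rw [X, monomial_mul, one_mul]
      change -(χ (X i) * t) * (χ (monomial m.1 1) * s) +
        t * (χ (monomial (m.1 + Finsupp.single i 1) 1) * s) = 0
      rw [h2, map_mul]
      ring
    · have h2 : ∑ m : Mon n D, algebraMap k _ (coeff m.1 g) * (χ (monomial m.1 1) * s) =
          χ g * s := by
        rw [hom_eq_sum χ g (hd g hg), Finset.sum_mul]
        exact Finset.sum_congr rfl fun m _ => by ring
      rw [h2, hχ g hg]
      ring
  obtain ⟨f0, hf00, hf0y, hf0z⟩ := h.ex _ _ _ _ hS
  have hz0 : f0 (z (mo n D)) = s := by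
    rw [hf0z]
    have h1 : (monomial (mo n D).1 (1 : k) : MvPolynomial (Fin n) k) = 1 := rfl
    rw [h1, map_one, one_mul]
  have hf0c : f0 c = t * s := by
    change f0 (y0 * z (mo n D)) = _
    rw [map_mul, hf00, hz0]
  obtain ⟨f, hf⟩ := loc_ex c f0 (by rw [hf0c]; exact htu.mul hsu)
  change ∀ a, f (ι a) = f0 a at hf
  -- the second homomorphism
  have hcu : IsUnit (ι c) := loc_unit c
  have hc2 : ι c = ι y0 * ι (z (mo n D)) := map_mul ι _ _
  rw [hc2] at hcu
  obtain ⟨u, hu⟩ := isUnit_of_mul_isUnit_left hcu
  obtain ⟨v, hv⟩ := isUnit_of_mul_isUnit_right hcu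
  let ψ : MvPolynomial (Fin n) k →ₐ[k] Localization.Away c :=
    aeval fun i => -((↑u⁻¹ : Localization.Away c) * ι (y i))
  have hψ : ∀ i, ψ (X i) = -((↑u⁻¹ : Localization.Away c) * ι (y i)) := fun i => aeval_X _ i
  have hsol : CSol G (ι y0) (fun i => ι (y i)) (fun m => ι (z m)) := by
    refine ⟨fun m i hm => ?_, fun g hg => ?_⟩
    · rw [← map_mul, ← map_mul, ← map_add, h.sol.mul m i hm, map_zero]
    · have h1 := congrArg ι (h.sol.eqn g hg)
      rw [map_zero, map_mul, map_sum] at h1
      refine Eq.trans ?_ h1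
      congr 1
      refine Finset.sum_congr rfl fun m _ => ?_
      rw [map_mul, ι.commutes]
  have huy : (↑u⁻¹ : Localization.Away c) * ι y0 = 1 := by rw [← hu, Units.inv_mul]
  have hzm := csol_unit hsol _ huy ψ hψ
  have hψG : ∀ a, φ a = 0 → ψ a = 0 := by
    intro a ha
    have h1 : a ∈ Ideal.span (G : Set (MvPolynomial (Fin n) k)) := by
      rw [← hK]
      exact ha
    have h2 : Ideal.span (G : Set (MvPolynomial (Fin n) k)) ≤ RingHom.ker ψ := by
      rw [Ideal.span_le]
      intro g hg
      change ψ g = 0
      have h3 := hsol.eqn g hg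
      have h4 : ∑ m : Mon n D, algebraMap k _ (coeff m.1 g) * ι (z m) =
          ψ g * ι (z (mo n D)) := by
        rw [hom_eq_sum ψ g (hd g hg), Finset.sum_mul]
        exact Finset.sum_congr rfl fun m _ => by rw [hzm m]; ring
      rw [h4, ← hu, ← hv] at h3
      have h5 : (u * v) * ψ g = (0 : Localization.Away c) := by
        linear_combination h3
      have h6 := congrArg (fun x => (↑v⁻¹ : Localization.Away c) * ((↑u⁻¹ : Localization.Away c) * x))
        h5
      simp only [mul_zero] at h6
      rw [mul_assoc (u : Localization.Away c), Units.inv_mul_cancel_left,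
        Units.inv_mul_cancel_left] at h6
      exact h6
    exact h2 h1
  let gA : A →ₐ[k] Localization.Away c :=
    (Ideal.Quotient.liftₐ (RingHom.ker φ) ψ (fun a ha => hψG a ha)).comp
      (Ideal.quotientKerAlgEquivOfSurjective hs).symm.toAlgHom
  have hgA : ∀ a, gA (φ a) = ψ a := by
    intro a
    change Ideal.Quotient.liftₐ (RingHom.ker φ) ψ (fun a ha => hψG a ha)
      ((Ideal.quotientKerAlgEquivOfSurjective hs).symm (φ a)) = ψ a
    have h1 : (Ideal.quotientKerAlgEquivOfSurjective hs).symm (φ a) = Ideal.Quotient.mk _ a := by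
      rw [AlgEquiv.symm_apply_eq]
      rfl
    rw [h1]
    rfl
  obtain ⟨g1, hg1C, hg1T⟩ := lau_ex gA v
  obtain ⟨g, hgC, hgT⟩ := lau_ex g1 u
  have hgt : g t = ι y0 := hgT.trans hu
  have hgs : g s = ι (z (mo n D)) := by
    change g (LaurentPolynomial.C (LaurentPolynomial.T 1)) = _
    rw [hgC, hg1T, hv]
  have hgχ : ∀ a, g (χ a) = ψ a := by
    intro a
    change g (LaurentPolynomial.C (LaurentPolynomial.C (φ a))) = _
    rw [hgC, hg1C, hgA]
  -- the compositions
  have e1 : g.comp f = AlgHom.id k _ := by
    apply loc_uniq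
    intro q
    have e2 : (g.comp f).comp ι = ι := by
      refine h.uniq _ _ _ ?_ (fun i => ?_) (fun m => ?_)
      · change g (f (ι y0)) = ι y0
        rw [hf, hf00, hgt]
      · change g (f (ι (y i))) = ι (y i)
        rw [hf, hf0y, map_neg, map_mul, hgχ, hgt, hψ]
        linear_combination ι (y i) * huy
      · change g (f (ι (z m))) = ι (z m)
        rw [hf, hf0z, map_mul, hgχ, hgs, ← hzm m]
    exact congrArg (fun v : Q →ₐ[k] Localization.Away c => v q) e2
  have hft : f (ι y0) = t := by rw [hf, hf00]
  have hfs : f (ι (z (mo n D))) = s := by rw [hf, hz0]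
  have hfu : f (↑u⁻¹ : Localization.Away c) * t = 1 := by
    rw [← hft, ← map_mul, huy, map_one]
  have e4 : f.comp g = AlgHom.id k _ := by
    apply lau_uniq
    · intro b
      have e5 : (f.comp g).comp κ2 = κ2 := by
        apply lau_uniq
        · intro a
          obtain ⟨a, rfl⟩ := hs a
          have e6 : (((f.comp g).comp κ2).comp κ1).comp φ = χ := by
            apply MvPolynomial.algHom_ext
            intro i
            change f (g (χ (X i))) = χ (X i)
            rw [hgχ, hψ, map_neg, map_mul, hf, hf0y]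
            linear_combination χ (X i) * hfu
          exact congrArg (fun v : MvPolynomial (Fin n) k →ₐ[k]
            LaurentPolynomial (LaurentPolynomial A) => v a) e6
        · change f (g s) = s
          rw [hgs, hfs]
      exact congrArg (fun v : LaurentPolynomial A →ₐ[k]
        LaurentPolynomial (LaurentPolynomial A) => v b) e5
    · change f (g t) = t
      rw [hgt, hft]
  exact ⟨AlgEquiv.ofAlgHom f g e4 e1⟩

end

end Pool.Agent.U554.TD
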