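import Pool.Agent.U554.TD.Elim
import Mathlib.LinearAlgebra.Matrix.SchurComplement

/-!
# Systems of linear equations: the strata given by the minors of the matrix of the coefficients
-/

set_option autoImplicit false

open MvPolynomial

namespace Pool.Agent.U554.TD

variable {k : Type} [Field k]

/-- the minors of a matrix -/
noncomputable def mnr {A σ : Type} [CommRing A] {a r : ℕ} (M : Fin a → σ → A) (f : Fin r → Fin a)
    (g : Fin r → σ) : A :=
  Matrix.det (Matrix.of fun s t => M (f s) (g t))

section

variable {A B σ : Type} [CommRing A] [CommRing B] {a r : ℕ}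

lemma mnr_map (φ : A →+* B) (M : Fin a → σ → A) (f : Fin r → Fin a) (g : Fin r → σ) :
    mnr (fun e j => φ (M e j)) f g = φ (mnr M f g) := by
  unfold mnr
  rw [RingHom.map_det]
  rfl

lemma mnr_left (M : Fin a → σ → A) (f : Fin r → Fin a) (g : Fin r → σ)
    (hf : ¬ Function.Injective f) : mnr M f g = 0 := by
  unfold Function.Injective at hf
  push Not at hf
  obtain ⟨i, j, h, hij⟩ := hf
  refine Matrix.det_zero_of_row_eq hij ?_
  funext t
  simp only [Matrix.of_apply, h]

lemma mnr_right (M : Fin a → σ → A) (f : Fin r → Fin a) (g : Fin r → σ)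
    (hg : ¬ Function.Injective g) : mnr M f g = 0 := by
  unfold Function.Injective at hg
  push Not at hg
  obtain ⟨i, j, h, hij⟩ := hg
  refine Matrix.det_zero_of_column_eq hij ?_
  intro t
  simp only [Matrix.of_apply, h]

/-- Split of a sum over the columns. -/
lemma sum_split [Fintype σ] (g : Fin r → σ) (hg : Function.Injective g)
    [Fintype {j // j ∉ Set.range g}] (h : σ → A) :
    ∑ j, h j = ∑ t, h (g t) + ∑ i : {j // j ∉ Set.range g}, h i := by
  classical
  have e1 : ∑ t, h (g t) = ∑ j ∈ Finset.univ.image g, h j := by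
    rw [Finset.sum_image fun x _ y _ e => hg e]
  have e2 : ∑ i : {j // j ∉ Set.range g}, h i = ∑ j ∈ (Finset.univ.image g)ᶜ, h j := by
    symm
    refine Finset.sum_subtype _ (fun j => ?_) h
    simp [Set.mem_range]
  rw [e1, e2, Finset.sum_add_sum_compl]

/-- Solutions in a ring in which a minor of size `r` is invertible and the minors of size `r + 1`
vanish. -/
lemma sol_unit [Fintype σ] (M : Fin a → σ → A) (f : Fin r → Fin a) (g : Fin r → σ)
    (hg : Function.Injective g) [Fintype {j // j ∉ Set.range g}] (N : Matrix (Fin r) (Fin r) A)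
    (hN : N * (Matrix.of fun s t => M (f s) (g t)) = 1)
    (h0 : ∀ e j, M e j = ∑ s, (∑ t, M e (g t) * N t s) * M (f s) j) (w : σ → A) :
    (∀ e, ∑ j, M e j * w j = 0) ↔
      ∀ s, w (g s) = -∑ t, N s t * ∑ i : {j // j ∉ Set.range g}, M (f t) i * w i := by
  have hN' : (Matrix.of fun s t => M (f s) (g t)) * N = 1 := mul_eq_one_comm.mp hN
  constructor
  · intro h s
    have h1 : ∀ t, ∑ i : {j // j ∉ Set.range g}, M (f t) i * w i =
        -∑ l, M (f t) (g l) * w (g l) := by
      intro t
      have h2 := h (f t)
      rw [sum_split g hg] at h2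
      exact (neg_eq_of_add_eq_zero_right h2).symm
    simp only [h1]
    have h3 : ∑ t, N s t * -∑ l, M (f t) (g l) * w (g l) =
        -∑ l, (∑ t, N s t * M (f t) (g l)) * w (g l) := by
      simp only [Finset.sum_mul, mul_neg, Finset.sum_neg_distrib, Finset.mul_sum]
      rw [Finset.sum_comm]
      congr 1
      exact Finset.sum_congr rfl fun l _ => Finset.sum_congr rfl fun t _ => by ring
    rw [h3, neg_neg]
    have h4 : ∀ l, ∑ t, N s t * M (f t) (g l) = if s = l then 1 else 0 := by
      intro l
      have h5 := congrFun (congrFun hN s) l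
      rwa [Matrix.mul_apply, Matrix.one_apply] at h5
    simp only [h4, ite_mul, one_mul, zero_mul, Finset.sum_ite_eq, Finset.mem_univ, if_true]
  · intro h e
    have h1 : ∀ s, ∑ j, M (f s) j * w j = 0 := by
      intro s
      rw [sum_split g hg]
      have h2 : ∑ t, M (f s) (g t) * w (g t) =
          -∑ l, (∑ t, M (f s) (g t) * N t l) * ∑ i : {j // j ∉ Set.range g}, M (f l) i * w i := by
        simp only [h, mul_neg, Finset.sum_neg_distrib]
        congr 1
        simp only [Finset.mul_sum (s := Finset.univ (α := Fin r)), Finset.sum_mul]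
        rw [Finset.sum_comm]
        exact Finset.sum_congr rfl fun l _ => Finset.sum_congr rfl fun t _ => by ring
      have h4 : ∀ l, ∑ t, M (f s) (g t) * N t l = if s = l then 1 else 0 := by
        intro l
        have h5 := congrFun (congrFun hN' s) l
        rwa [Matrix.mul_apply, Matrix.one_apply] at h5
      rw [h2]
      simp only [h4, ite_mul, one_mul, zero_mul, Finset.sum_ite_eq, Finset.mem_univ, if_true]
      exact neg_add_cancel _
    have h2 : ∑ j, M e j * w j = ∑ s, (∑ t, M e (g t) * N t s) * ∑ j, M (f s) j * w j := by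
      simp only [Finset.mul_sum]
      rw [Finset.sum_comm]
      refine Finset.sum_congr rfl fun j _ => ?_
      rw [h0 e j, Finset.sum_mul]
      exact Finset.sum_congr rfl fun s _ => by ring
    rw [h2]
    exact Finset.sum_eq_zero fun s _ => by rw [h1, mul_zero]

/-- The rows are linear combinations of the rows of the invertible minor. -/
lemma row_comb (M : Fin a → σ → A) (f : Fin r → Fin a) (g : Fin r → σ)
    (N : Matrix (Fin r) (Fin r) A) (hN : N * (Matrix.of fun s t => M (f s) (g t)) = 1)
    (h0 : ∀ (f' : Fin (r + 1) → Fin a) (g' : Fin (r + 1) → σ), mnr M f' g' = 0) (e : Fin a)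
    (j : σ) : M e j = ∑ s, (∑ t, M e (g t) * N t s) * M (f s) j := by
  classical
  let B : Matrix (Fin r) (Fin r) A := Matrix.of fun s t => M (f s) (g t)
  have hN' : B * N = 1 := mul_eq_one_comm.mp hN
  let _ : Invertible B := ⟨N, hN, hN'⟩
  let v : Fin r ⊕ Fin 1 → Fin a := Sum.elim f fun _ => e
  let w : Fin r ⊕ Fin 1 → σ := Sum.elim g fun _ => j
  have h1 := h0 (fun i => v (finSumFinEquiv.symm i)) (fun i => w (finSumFinEquiv.symm i))
  have h2 : (Matrix.of fun s t : Fin (r + 1) => M (v (finSumFinEquiv.symm s))
      (w (finSumFinEquiv.symm t))) = (Matrix.fromBlocks B (Matrix.of fun s _ => M (f s) j)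
        (Matrix.of fun (_ : Fin 1) t => M e (g t)) (Matrix.of fun (_ _ : Fin 1) => M e j)).submatrix
        finSumFinEquiv.symm finSumFinEquiv.symm := by
    ext s t
    obtain ⟨s, rfl⟩ := finSumFinEquiv.surjective s
    obtain ⟨t, rfl⟩ := finSumFinEquiv.surjective t
    simp only [Matrix.of_apply, Matrix.submatrix_apply, Equiv.symm_apply_apply]
    rcases s with s | s <;> rcases t with t | t <;> rfl
  unfold mnr at h1
  rw [h2, Matrix.det_submatrix_equiv_self, Matrix.det_fromBlocks₁₁] at h1
  have h3 : IsUnit B.det := by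
    have h4 := congrArg Matrix.det hN'
    rw [Matrix.det_mul, Matrix.det_one] at h4
    exact IsUnit.of_mul_eq_one _ h4
  have h4 := (h3.mul_right_eq_zero).mp h1
  rw [Matrix.det_unique] at h4
  have h5 : (⅟B : Matrix (Fin r) (Fin r) A) = N := rfl
  rw [h5] at h4
  simp only [Matrix.sub_apply, Matrix.mul_apply, Matrix.of_apply] at h4
  exact sub_eq_zero.mp h4

end

end Pool.Agent.U554.TD
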