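import Pool.Agent.U554.TD.Det

/-!
# Systems of linear equations: induction over the minors
-/

set_option autoImplicit false

open MvPolynomial

namespace Pool.Agent.U554.TD

variable {k : Type} [Field k]

/-- the homogeneous linear system with the matrix `M` -/
def hsys {A σ : Type} [CommRing A] {a : ℕ} (M : Fin a → σ → A) : List ((σ → A) × A) :=
  List.ofFn fun e => (M e, 0)

lemma sol_hsys {A B σ : Type} [CommRing A] [CommRing B] [Fintype σ] {a : ℕ} (ψ : A →+* B)
    (w : σ → B) (M : Fin a → σ → A) :
    Sol ψ w (hsys M) ↔ ∀ e, ∑ j, ψ (M e j) * w j = 0 := by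
  unfold Sol hsys
  constructor
  · intro h e
    have h1 := h _ (List.mem_ofFn.mpr ⟨e, rfl⟩)
    exact h1.trans (map_zero ψ)
  · intro h e' he'
    obtain ⟨e, rfl⟩ := List.mem_ofFn.mp he'
    exact (h e).trans (map_zero ψ).symm

lemma mapE_hsys {A B σ : Type} [CommRing A] [CommRing B] {a : ℕ} (f : A →+* B)
    (M : Fin a → σ → A) : mapE f (hsys M) = hsys fun e j => f (M e j) := by
  unfold mapE hsys
  rw [List.map_ofFn]
  congr 1
  funext e
  change ((fun j => f (M e j)), f 0) = ((fun j => f (M e j)), (0 : B))
  rw [map_zero]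

section

variable {A Q σ : Type} [CommRing A] [CommRing Q] [Algebra k A] [Algebra k Q] [Fintype σ] {a r : ℕ}
  {φ : A →ₐ[k] Q} {z : σ → Q} {M : Fin a → σ → A}

/-- A minor of size `r` is invertible and all minors of size `r + 1` are zero. -/
lemma lin_unit (h : Lin φ z (hsys M)) (f : Fin r → Fin a) (g : Fin r → σ)
    (hg : Function.Injective g) (hu : IsUnit (mnr M f g))
    (h0 : ∀ (f' : Fin (r + 1) → Fin a) (g' : Fin (r + 1) → σ), mnr M f' g' = 0) :
    ∃ n : ℕ, Nonempty (Q ≃ₐ[k] MvPolynomial (Fin n) A) := by
  classical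
  let B : Matrix (Fin r) (Fin r) A := Matrix.of fun s t => M (f s) (g t)
  let N : Matrix (Fin r) (Fin r) A := B⁻¹
  have hN : N * B = 1 := Matrix.nonsing_inv_mul B hu
  have hrow := row_comb M f g N hN h0
  have hNψ : ∀ {C : Type} [CommRing C] (ψ : A →+* C),
      (N.map ψ) * (Matrix.of fun s t => ψ (M (f s) (g t))) = 1 := by
    intro C _ ψ
    have h1 : (N * B).map ψ = (1 : Matrix (Fin r) (Fin r) A).map ψ := by rw [hN]
    rw [Matrix.map_one ψ (map_zero ψ) (map_one ψ), Matrix.map_mul] at h1
    exact h1
  have hrowψ : ∀ {C : Type} [CommRing C] (ψ : A →+* C) (e : Fin a) (j : σ),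
      ψ (M e j) = ∑ s, (∑ t, ψ (M e (g t)) * (N.map ψ) t s) * ψ (M (f s) j) := by
    intro C _ ψ e j
    have h1 := congrArg ψ (hrow e j)
    rw [map_sum] at h1
    refine h1.trans (Finset.sum_congr rfl fun s _ => ?_)
    rw [map_mul, map_sum]
    congr 1
    exact Finset.sum_congr rfl fun t _ => by rw [map_mul]; rfl
  have key : ∀ {C : Type} [CommRing C] (ψ : A →+* C) (w : σ → C), Sol ψ w (hsys M) ↔
      ∀ s, w (g s) = -∑ t, (N.map ψ) s t * ∑ i : {j // j ∉ Set.range g}, ψ (M (f t) i) * w i := by
    intro C _ ψ w
    rw [sol_hsys]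
    exact sol_unit (fun e j => ψ (M e j)) f g hg (N.map ψ) (hNψ ψ) (hrowψ ψ) w
  have hl : Lin φ (fun i : {j // j ∉ Set.range g} => z i) [] := by
    refine ⟨fun e he => (by cases he), ?_, ?_⟩
    · intro C _ _ ψ w _
      let w' : σ → C := fun j => if hj : j ∈ Set.range g then
        -∑ t, (N.map ψ) (Classical.choose hj) t *
          ∑ i : {j // j ∉ Set.range g}, ψ (M (f t) i) * w i else w ⟨j, hj⟩
      have hc : ∀ i : {j // j ∉ Set.range g}, w' i = w i := fun i => dif_neg i.2
      have hs : ∀ s, w' (g s) = -∑ t, (N.map ψ) s t *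
          ∑ i : {j // j ∉ Set.range g}, ψ (M (f t) i) * w' i := by
        intro s
        have hj : g s ∈ Set.range g := ⟨s, rfl⟩
        have h1 : w' (g s) = -∑ t, (N.map ψ) (Classical.choose hj) t *
          ∑ i : {j // j ∉ Set.range g}, ψ (M (f t) i) * w i := dif_pos hj
        have h2 : Classical.choose hj = s := hg (Classical.choose_spec hj)
        rw [h1, h2]
        simp only [hc]
      obtain ⟨F, hF1, hF2⟩ := h.ex C ψ w' ((key ψ.toRingHom w').mpr hs)
      exact ⟨F, hF1, fun i => by rw [hF2, hc]⟩
    · intro C _ _ F G h1 h2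
      refine h.uniq C F G h1 fun j => ?_
      by_cases hj : j ∈ Set.range g
      · obtain ⟨s, rfl⟩ := hj
        have h3 := (key φ.toRingHom z).mp h.sol s
        rw [h3, map_neg, map_neg, map_sum, map_sum]
        congr 1
        refine Finset.sum_congr rfl fun t _ => ?_
        rw [map_mul, map_mul, map_sum, map_sum]
        have h4 : F ((N.map φ.toRingHom) s t) = G ((N.map φ.toRingHom) s t) := h1 _
        rw [h4]
        congr 1
        refine Finset.sum_congr rfl fun i _ => ?_
        rw [map_mul, map_mul]
        have h5 : F (φ.toRingHom (M (f t) i)) = G (φ.toRingHom (M (f t) i)) := h1 _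
        rw [h5, h2]
      · exact h2 ⟨j, hj⟩
  obtain ⟨e⟩ := lin_nil hl
  let e1 : MvPolynomial {j // j ∉ Set.range g} A ≃ₐ[k]
      MvPolynomial (Fin (Fintype.card {j // j ∉ Set.range g})) A :=
    (renameEquiv A (Fintype.equivFin _)).restrictScalars k
  exact ⟨_, ⟨e.trans e1⟩⟩

end

variable {G : ∀ (A : Type) [CommRing A] [Algebra k A], Prop}

/-- **Induction over the minors.** -/
theorem lin_minors (hG : IsClass G) (hop : ∀ (A : Type) [CommRing A] [Algebra k A]
    [Algebra.FiniteType k A] (c : A), G (A ⧸ Ideal.span {c}) → G A → G (Localization.Away c))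
    (h00 : ∀ (A : Type) [CommRing A] [Algebra k A], Subsingleton A → G A)
    {S σ : Type} [CommRing S] [Algebra k S] [Algebra.FiniteType k S] [Fintype σ] {a : ℕ}
    (M : Fin a → σ → S) (good : Ideal S → Prop) (hbase : ∀ I : Ideal S, good I → G (S ⧸ I))
    (hgood : ∀ (r : ℕ) (f : Fin r → Fin a) (g : Fin r → σ) (J : Ideal S), mnr M f g ∈ J →
      mnr M f g ≠ 0 → good J) (r : ℕ) :
    ∀ (L : List ((Fin r → Fin a) × (Fin r → σ))) (A : Type) [CommRing A] [Algebra k A]
      (π : S →ₐ[k] A), Function.Surjective π → good (RingHom.ker π) →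
      (∀ (f : Fin (r + 1) → Fin a) (g : Fin (r + 1) → σ), π (mnr M f g) = 0) →
      (∀ (f : Fin r → Fin a) (g : Fin r → σ), π (mnr M f g) = 0 ∨ (f, g) ∈ L) →
      ∀ (Q : Type) [CommRing Q] [Algebra k Q] (φ : A →ₐ[k] Q) (z : σ → Q),
        Lin φ z (hsys fun e j => π (M e j)) → G Q := by
  classical
  have hA : ∀ (A : Type) [CommRing A] [Algebra k A] (π : S →ₐ[k] A), Function.Surjective π →
      good (RingHom.ker π) → G A := by
    intro A _ _ π hπ hg
    have e : (S ⧸ RingHom.ker π) ≃ₐ[k] A := Ideal.quotientKerAlgEquivOfSurjective hπ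
    exact hG.iso _ _ e (hbase _ hg)
  induction r with
  | zero =>
    intro L
    induction L with
    | nil =>
      intro A _ _ π hπ hg h1 h2 Q _ _ φ z h
      have h3 : (1 : A) = 0 := by
        have h4 := (h2 (fun i => i.elim0) (fun i => i.elim0)).resolve_right (by simp)
        unfold mnr at h4
        rw [Matrix.det_isEmpty, map_one] at h4
        exact h4
      refine h00 Q ?_
      refine subsingleton_of_zero_eq_one ?_
      have h5 := congrArg φ h3
      rw [map_one, map_zero] at h5
      exact h5.symm
    | cons x L ih =>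
      intro A _ _ π hπ hg h1 h2 Q _ _ φ z h
      have hf : ∀ (f : Fin 0 → Fin a) (g : Fin 0 → σ), mnr M f g = 1 := by
        intro f g
        unfold mnr
        exact Matrix.det_isEmpty
      have hAf : Algebra.FiniteType k A := Algebra.FiniteType.of_surjective π hπ
      obtain ⟨n, ⟨e⟩⟩ := lin_unit (r := 0) h (fun i => i.elim0) (fun i => i.elim0)
        (fun i => i.elim0) (by
          have h3 := mnr_map π.toRingHom M (fun i => i.elim0 : Fin 0 → Fin a)
            (fun i => i.elim0 : Fin 0 → σ)
          rw [hf, map_one] at h3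
          have h4 : mnr (fun e j => π (M e j)) (fun i => i.elim0 : Fin 0 → Fin a)
            (fun i => i.elim0 : Fin 0 → σ) = 1 := h3
          rw [h4]
          exact isUnit_one) (fun f' g' => (mnr_map π.toRingHom M f' g').trans (h1 f' g'))
      have h3 : Algebra.FiniteType k (MvPolynomial (Fin n) A) :=
        Algebra.FiniteType.trans (S := A) inferInstance inferInstance
      exact hG.iso _ _ e.symm (hG.poly A n (hA A π hπ hg))
  | succ r ihr =>
    intro L
    induction L with
    | nil =>
      intro A _ _ π hπ hg h1 h2 Q _ _ φ z h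
      refine ihr (Finset.univ.toList) A π hπ hg (fun f g => (h2 f g).resolve_right (by simp))
        (fun f g => Or.inr ?_) Q φ z h
      rw [Finset.mem_toList]
      exact Finset.mem_univ _
    | cons x L ih =>
      intro A _ _ π hπ hg h1 h2 Q _ _ φ z h
      obtain ⟨f, g⟩ := x
      by_cases hc : π (mnr M f g) = 0
      · refine ih A π hπ hg h1 (fun f' g' => ?_) Q φ z h
        rcases h2 f' g' with h3 | h3
        · exact Or.inl h3
        · rcases List.mem_cons.mp h3 with h4 | h4
          · left
            rw [(Prod.mk.injEq _ _ _ _).mp h4 |>.1, (Prod.mk.injEq _ _ _ _).mp h4 |>.2]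
            exact hc
          · exact Or.inr h4
      · have hAf : Algebra.FiniteType k A := Algebra.FiniteType.of_surjective π hπ
        have hQf := lin_ft h
        have hm0 : mnr M f g ≠ 0 := fun h3 => hc (by rw [h3, map_zero])
        have hgi : Function.Injective g := by
          by_contra h3
          exact hm0 (mnr_right M f g h3)
        let c : A := π (mnr M f g)
        let π' : S →ₐ[k] (A ⧸ Ideal.span {c}) := (Ideal.Quotient.mkₐ k (Ideal.span {c})).comp π
        have hπ' : Function.Surjective π' :=
          (Ideal.Quotient.mkₐ_surjective k (Ideal.span {c})).comp hπ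
        have hc' : π' (mnr M f g) = 0 :=
          Ideal.Quotient.eq_zero_iff_mem.mpr (Ideal.mem_span_singleton_self c)
        have hgood' : good (RingHom.ker π') := hgood _ f g _ hc' hm0
        refine hG.ext Q (φ c) ?_ ?_
        · obtain ⟨φ', h'⟩ := lin_quot h c
          rw [mapE_hsys] at h'
          refine ih (A ⧸ Ideal.span {c}) π' hπ' hgood' (fun f' g' => ?_) (fun f' g' => ?_) _ φ' _ h'
          · change Ideal.Quotient.mk (Ideal.span {c}) (π (mnr M f' g')) = 0
            rw [h1, map_zero]
          · rcases h2 f' g' with h3 | h3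
            · left
              change Ideal.Quotient.mk (Ideal.span {c}) (π (mnr M f' g')) = 0
              rw [h3, map_zero]
            · rcases List.mem_cons.mp h3 with h4 | h4
              · left
                rw [(Prod.mk.injEq _ _ _ _).mp h4 |>.1, (Prod.mk.injEq _ _ _ _).mp h4 |>.2]
                exact hc'
              · exact Or.inr h4
        · obtain ⟨φ', h'⟩ := lin_loc h c
          rw [mapE_hsys] at h'
          have hGc : G (Localization.Away c) :=
            hop A c (hA _ π' hπ' hgood') (hA A π hπ hg)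
          have hcf : Algebra.FiniteType k (Localization.Away c) :=
            Algebra.FiniteType.trans (S := A) inferInstance inferInstance
          let ψ : S →+* Localization.Away c := (algebraMap A (Localization.Away c)).comp π.toRingHom
          obtain ⟨n, ⟨e⟩⟩ := lin_unit h' f g hgi (by
              have h3 := mnr_map ψ M f g
              change IsUnit (mnr (fun e j => ψ (M e j)) f g)
              rw [h3]
              exact IsLocalization.map_units (M := Submonoid.powers c) _ ⟨_, Submonoid.mem_powers _⟩)
            (fun f' g' => by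
              have h3 := mnr_map ψ M f' g'
              change mnr (fun e j => ψ (M e j)) f' g' = 0
              rw [h3]
              change algebraMap A (Localization.Away c) (π (mnr M f' g')) = 0
              rw [h1, map_zero])
          have h3 : Algebra.FiniteType k (MvPolynomial (Fin n) (Localization.Away c)) :=
            Algebra.FiniteType.trans (S := Localization.Away c) inferInstance inferInstance
          exact hG.iso _ _ e.symm (hG.poly _ n hGc)

/-- **Systems of linear equations whose minors are in good position.** -/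
theorem lin_det (hG : IsClass G) (hop : ∀ (A : Type) [CommRing A] [Algebra k A]
    [Algebra.FiniteType k A] (c : A), G (A ⧸ Ideal.span {c}) → G A → G (Localization.Away c))
    (h00 : ∀ (A : Type) [CommRing A] [Algebra k A], Subsingleton A → G A)
    {S σ : Type} [CommRing S] [Algebra k S] [Algebra.FiniteType k S] [Fintype σ] {a : ℕ}
    (M : Fin a → σ → S) (good : Ideal S → Prop) (hbase : ∀ I : Ideal S, good I → G (S ⧸ I))
    (hbot : good ⊥)
    (hgood : ∀ (r : ℕ) (f : Fin r → Fin a) (g : Fin r → σ) (J : Ideal S), mnr M f g ∈ J →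
      mnr M f g ≠ 0 → good J) (Q : Type) [CommRing Q] [Algebra k Q] (φ : S →ₐ[k] Q) (z : σ → Q)
    (h : Lin φ z (hsys M)) : G Q := by
  classical
  refine lin_minors hG hop h00 M good hbase hgood a (Finset.univ.toList) S (AlgHom.id k S)
    Function.surjective_id ?_ (fun f g => ?_) (fun f g => Or.inr ?_) Q φ z h
  · have h1 : RingHom.ker (AlgHom.id k S) = ⊥ := by
      rw [← RingHom.injective_iff_ker_eq_bot]
      exact Function.injective_id
    rw [h1]
    exact hbot
  · change mnr M f g = 0
    refine mnr_left M f g fun h1 => ?_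
    have h2 := Fintype.card_le_of_injective f h1
    rw [Fintype.card_fin, Fintype.card_fin] at h2
    omega
  · rw [Finset.mem_toList]
    exact Finset.mem_univ _

end Pool.Agent.U554.TD
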