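import Pool.Agent.U554.TD.Two

/-!
# Divisors
-/

set_option autoImplicit false

open CategoryTheory AlgebraicGeometry MvPolynomial Pool.Agent.Y116.UV
open Pool.Agent.U554.TU Pool.Agent.U554.TW Pool.Agent.U483.GU

namespace Pool.Agent.U554.TD

universe w v u

variable {𝓡 : Type u} [Category.{v} 𝓡] [Abelian 𝓡] {one : 𝓡} {k : Type} [Field k]

/-- The classes of divisors on `V` are algebraic: if `dim V ≤ n + 1`, then the cycle class map from the
cycles of dimension `n` is onto. -/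
def DivisorsOnto (O : ℤ → ℤ → Sch k → CReg.{w} one) (V : Sch k) : Prop :=
  ∀ n : ℕ, topologicalKrullDim V.left ≤ ((n + 1 : ℕ) : WithBot ℕ∞) → (O n 0 V).Onto

/-- The Tate conjecture for divisors for all smooth projective surfaces implies it for all smooth projective
varieties (de Jong, Morrow; in characteristic zero by the theorems of Lefschetz and of André). -/
def SurfacesSuffice (O : ℤ → ℤ → Sch k → CReg.{w} one) : Prop :=
  (∀ V : Sch k, SmoothProjective V → topologicalKrullDim V.left ≤ (2 : ℕ) → (O 1 0 V).Onto) →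
    ∀ V : Sch k, SmoothProjective V → DivisorsOnto O V

variable {O : ℤ → ℤ → Sch k → CReg.{w} one}

/-- **Divisors on all smooth projective varieties and cubics with four variables in one block.** -/
theorem divisor_tfae [PerfectField k] (hO : IsClassTheory O) (hs : SurfacesSuffice O) (s : ℕ) :
    List.TFAE [
      ∀ V : Sch k, SmoothProjective V → DivisorsOnto O V,
      ∀ V : Sch k, SmoothProjective V → topologicalKrullDim V.left ≤ (2 : ℕ) → (O 1 0 V).Onto,
      ∀ X : Sch k, FT True X → topologicalKrullDim X.left ≤ (2 : ℕ) → AllOnto O X,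
      (∀ (a₁ a₂ a₃ : ℕ) (T : Fin a₁ → Fin a₂ → Fin a₃ → k), Block 4 a₁ a₂ a₃ →
        AllOnto O (bilS T)) ∧
      ∀ (n : ℕ) (G : Finset (MvPolynomial (Fin n) k)), ∑ g ∈ G, (g.support.card - 2) ≤ 2 →
        AllOnto O (aff k (MvPolynomial (Fin n) k ⧸ Ideal.span (G : Set (MvPolynomial (Fin n) k)))),
      ∀ (a₁ a₂ a₃ : ℕ) (T : Fin a₁ → Fin a₂ → Fin a₃ → k), Block 4 a₁ a₂ a₃ →
        ∀ j : ℕ, 1 ≤ j → (O (a₁ + a₂ + a₃ - 1 - j) 1 (hypS T)).Onto,
      ∀ (a₁ a₃ : ℕ) (T : Fin a₁ → Fin 4 → Fin a₃ → k), ∀ j : ℕ, s ≤ j → 1 ≤ j →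
        (O (a₁ + 4 + a₃ - 1 - j) 1 (hypS T)).Onto] := by
  have h := surface_tfae hO s
  tfae_have 1 → 2 := fun h1 V hV hdim => by
    have h2 := h1 V hV 1 (by exact_mod_cast hdim)
    exact_mod_cast h2
  tfae_have 2 → 1 := fun h1 => hs h1
  tfae_have 2 ↔ 3 := h.out 0 1
  tfae_have 3 ↔ 4 := h.out 1 2
  tfae_have 4 ↔ 5 := h.out 2 3
  tfae_have 5 ↔ 6 := h.out 3 4
  tfae_finish

end Pool.Agent.U554.TD
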