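import Pool.Agent.U554.TD.Lin

/-!
# Elimination of variables
-/

set_option autoImplicit false

open MvPolynomial

namespace Pool.Agent.U554.TD

variable {k : Type} [Field k]

section

variable {A Q σ : Type} [CommRing A] [CommRing Q] [Algebra k A] [Algebra k Q] [Fintype σ]
  {φ : A →ₐ[k] Q} {z : σ → Q}

open Classical in
/-- elimination of the variable `j` with the equation `e` -/
noncomputable def elimE (e : (σ → A) × A) (j : σ) (u : A) (E : List ((σ → A) × A)) :
    List (({i // i ≠ j} → A) × A) :=
  E.map fun f => (fun i => f.1 i - f.1 j * u * e.1 i, f.2 - f.1 j * u * e.2)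

open Classical in
/-- A coefficient of the first equation is a unit. -/
lemma lin_elim {e : (σ → A) × A} {E : List ((σ → A) × A)} (h : Lin φ z (e :: E)) (j : σ) (u : A)
    (hu : u * e.1 j = 1) :
    Lin φ (fun i : {i // i ≠ j} => z i) (elimE e j u E) := by
  have he : φ (e.1 j) * z j + ∑ i : {i // i ≠ j}, φ (e.1 i) * z i = φ e.2 := by
    rw [← Fintype.sum_eq_add_sum_subtype_ne (fun i => φ (e.1 i) * z i) j]
    exact h.sol e (List.mem_cons_self ..)
  refine ⟨?_, ?_, ?_⟩
  · intro f' hf'
    obtain ⟨f, hf, rfl⟩ := List.mem_map.mp hf'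
    have hf2 : φ (f.1 j) * z j + ∑ i : {i // i ≠ j}, φ (f.1 i) * z i = φ f.2 := by
      rw [← Fintype.sum_eq_add_sum_subtype_ne (fun i => φ (f.1 i) * z i) j]
      exact h.sol f (List.mem_cons_of_mem _ hf)
    have h1 : ∑ i : {i // i ≠ j}, φ (f.1 i - f.1 j * u * e.1 i) * z i =
        (∑ i : {i // i ≠ j}, φ (f.1 i) * z i) -
          φ (f.1 j * u) * ∑ i : {i // i ≠ j}, φ (e.1 i) * z i := by
      rw [Finset.mul_sum, ← Finset.sum_sub_distrib]
      refine Finset.sum_congr rfl fun i _ => ?_
      rw [map_sub, map_mul φ (f.1 j * u)]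
      ring
    have h3 : φ u * φ (e.1 j) = 1 := by rw [← map_mul, hu, map_one]
    change ∑ i : {i // i ≠ j}, φ (f.1 i - f.1 j * u * e.1 i) * z i = φ (f.2 - f.1 j * u * e.2)
    rw [h1, map_sub, ← hf2, map_mul φ (f.1 j * u), ← he, map_mul]
    linear_combination (φ (f.1 j) * z j) * h3
  · intro B _ _ ψ w hw
    let S := ∑ i : {i // i ≠ j}, ψ (e.1 i) * w i
    let w' : σ → B := fun i => if h : i = j then ψ u * (ψ e.2 - S) else w ⟨i, h⟩
    have hj : w' j = ψ u * (ψ e.2 - S) := dif_pos rfl
    have hi : ∀ i : {i // i ≠ j}, w' i = w i := fun i => dif_neg i.2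
    have hu' : ψ u * ψ (e.1 j) = 1 := by rw [← map_mul, hu, map_one]
    have hsum : ∀ a : σ → A, ∑ i, ψ (a i) * w' i =
        ψ (a j) * (ψ u * (ψ e.2 - S)) + ∑ i : {i // i ≠ j}, ψ (a i) * w i := by
      intro a
      rw [Fintype.sum_eq_add_sum_subtype_ne (fun i => ψ (a i) * w' i) j, hj]
      congr 1
      exact Finset.sum_congr rfl fun i _ => by rw [hi]
    obtain ⟨f, hf1, hf2⟩ := h.ex B ψ w' (by
      intro e' he'
      change ∑ i, ψ (e'.1 i) * w' i = ψ e'.2
      rw [hsum]
      rcases List.mem_cons.mp he' with rfl | he'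
      · change ψ (e'.1 j) * (ψ u * (ψ e'.2 - S)) + S = ψ e'.2
        linear_combination (ψ e'.2 - S) * hu'
      · have h1 := hw _ (List.mem_map.mpr ⟨e', he', rfl⟩)
        change ∑ i : {i // i ≠ j}, ψ (e'.1 i - e'.1 j * u * e.1 i) * w i =
          ψ (e'.2 - e'.1 j * u * e.2) at h1
        have h2 : ∑ i : {i // i ≠ j}, ψ (e'.1 i - e'.1 j * u * e.1 i) * w i =
            (∑ i : {i // i ≠ j}, ψ (e'.1 i) * w i) - ψ (e'.1 j) * ψ u * S := by
          rw [Finset.mul_sum, ← Finset.sum_sub_distrib]
          refine Finset.sum_congr rfl fun i _ => ?_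
          rw [map_sub, map_mul, map_mul]
          ring
        rw [h2, map_sub, map_mul, map_mul] at h1
        linear_combination h1)
    exact ⟨f, hf1, fun i => by rw [hf2, hi]⟩
  · intro B _ _ f g h1 h2
    refine h.uniq B f g h1 fun i => ?_
    by_cases hi : i = j
    · subst hi
      have h3 : z i = φ u * (φ e.2 - ∑ l : {l // l ≠ i}, φ (e.1 l) * z l) := by
        have h3 : φ u * φ (e.1 i) = 1 := by rw [← map_mul, hu, map_one]
        rw [← he]
        linear_combination (-(z i)) * h3
      rw [h3, map_mul, map_mul, map_sub, map_sub, map_sum, map_sum, h1, h1]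
      congr 2
      refine Finset.sum_congr rfl fun l _ => ?_
      rw [map_mul, map_mul, h1, h2]
    · exact h2 ⟨i, hi⟩

end

section

variable {A A' A'' : Type} [CommRing A] [CommRing A'] [CommRing A''] [Algebra k A] [Algebra k A']
  [Algebra k A'']

/-- `Spec A'` is a locally closed subscheme of `Spec A`: a principal open subscheme of the closed
subscheme given by the kernel. -/
def IsPiece (φ : A →ₐ[k] A') : Prop :=
  ∃ g : A, IsUnit (φ g) ∧ ∀ x : A', ∃ (m : ℕ) (a : A), φ g ^ m * x = φ a

lemma piece_id : IsPiece (AlgHom.id k A) :=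
  ⟨1, isUnit_one, fun x => ⟨0, x, by simp⟩⟩

lemma piece_surj (φ : A →ₐ[k] A') (h : Function.Surjective φ) : IsPiece φ := by
  refine ⟨1, by rw [map_one]; exact isUnit_one, fun x => ?_⟩
  obtain ⟨a, rfl⟩ := h x
  exact ⟨0, a, by simp⟩

lemma piece_loc (c : A) : IsPiece (IsScalarTower.toAlgHom k A (Localization.Away c)) := by
  refine ⟨c, IsLocalization.map_units (M := Submonoid.powers c) (Localization.Away c)
    ⟨c, Submonoid.mem_powers c⟩, fun x => ?_⟩
  obtain ⟨⟨a, ⟨_, m, rfl⟩⟩, h⟩ := IsLocalization.surj (M := Submonoid.powers c) x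
  refine ⟨m, a, ?_⟩
  change algebraMap A _ c ^ m * x = algebraMap A _ a
  rw [← h, mul_comm]
  simp

lemma piece_comp (φ : A →ₐ[k] A') (φ' : A' →ₐ[k] A'') (h : IsPiece φ) (h' : IsPiece φ') :
    IsPiece (φ'.comp φ) := by
  obtain ⟨g, hg, h1⟩ := h
  obtain ⟨g', hg', h2⟩ := h'
  obtain ⟨m, c, hc⟩ := h1 g'
  have hgu : IsUnit (φ' (φ g)) := hg.map φ'
  have hcu : IsUnit (φ' (φ c)) := by
    rw [← hc, map_mul, map_pow]
    exact (hgu.pow m).mul hg'
  refine ⟨g * c, ?_, fun x => ?_⟩
  · change IsUnit (φ' (φ (g * c)))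
    rw [map_mul, map_mul]
    exact hgu.mul hcu
  · obtain ⟨r, y, hy⟩ := h2 x
    obtain ⟨s, a, ha⟩ := h1 y
    refine ⟨r + s, g ^ (m * r) * g ^ r * c ^ s * a, ?_⟩
    change φ' (φ (g * c)) ^ (r + s) * x = φ' (φ (g ^ (m * r) * g ^ r * c ^ s * a))
    have e1 : φ' (φ c) = φ' (φ g) ^ m * φ' g' := by rw [← hc, map_mul, map_pow]
    have e2 : φ' (φ a) = φ' (φ g) ^ s * φ' y := by rw [← ha, map_mul, map_pow]
    simp only [map_mul, map_pow]
    rw [e2, ← hy, mul_pow, pow_add (φ' (φ c)) r s]
    have e3 : φ' (φ c) ^ r = φ' (φ g) ^ (m * r) * φ' g' ^ r := by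
      rw [e1, mul_pow, ← pow_mul]
    rw [e3]
    ring

end

/-- A property of the algebras of finite type (of affine schemes) which passes to isomorphic algebras,
which holds for `Spec A` if it holds for a principal closed subscheme and for its complement, and which
passes to the products with affine spaces. -/
structure IsClass (G : ∀ (A : Type) [CommRing A] [Algebra k A], Prop) : Prop where
  iso : ∀ (A B : Type) [CommRing A] [Algebra k A] [CommRing B] [Algebra k B]
    [Algebra.FiniteType k A], (A ≃ₐ[k] B) → G A → G B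
  ext : ∀ (A : Type) [CommRing A] [Algebra k A] [Algebra.FiniteType k A] (c : A),
    G (A ⧸ Ideal.span {c}) → G (Localization.Away c) → G A
  poly : ∀ (A : Type) [CommRing A] [Algebra k A] [Algebra.FiniteType k A] (r : ℕ),
    G A → G (MvPolynomial (Fin r) A)

variable {G : ∀ (A : Type) [CommRing A] [Algebra k A], Prop}

/-- The property holds for all locally closed pieces of `Spec A`. -/
def Her (G : ∀ (A : Type) [CommRing A] [Algebra k A], Prop) (A : Type) [CommRing A] [Algebra k A] :
    Prop :=
  ∀ (A' : Type) [CommRing A'] [Algebra k A'] (φ : A →ₐ[k] A'), IsPiece φ → G A'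

lemma Her.piece {A A' : Type} [CommRing A] [Algebra k A] [CommRing A'] [Algebra k A']
    (h : Her G A) (φ : A →ₐ[k] A') (hφ : IsPiece φ) : Her G A' :=
  fun A'' _ _ φ' hφ' => h A'' (φ'.comp φ) (piece_comp φ φ' hφ hφ')

/-- **Systems of linear equations.** The property passes from the locally closed pieces of `Spec A` to
the schemes of solutions of systems of linear equations over `A`. -/
theorem lin_good (hG : IsClass G) (r : ℕ) : ∀ (A σ Q : Type) [CommRing A] [Algebra k A]
    [Algebra.FiniteType k A] [Fintype σ] [CommRing Q] [Algebra k Q] (φ : A →ₐ[k] Q) (z : σ → Q)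
    (E : List ((σ → A) × A)), E.length = r → Her G A → Lin φ z E → G Q := by
  classical
  induction r with
  | zero =>
    intro A σ Q _ _ _ _ _ _ φ z E hE hA h
    obtain rfl := List.length_eq_zero_iff.mp hE
    obtain ⟨e⟩ := lin_nil h
    have h1 : G A := hA A (AlgHom.id k A) piece_id
    have h2 : Algebra.FiniteType k (MvPolynomial (Fin (Fintype.card σ)) A) :=
      Algebra.FiniteType.trans (S := A) inferInstance inferInstance
    let e1 : MvPolynomial (Fin (Fintype.card σ)) A ≃ₐ[k] MvPolynomial σ A :=
      (renameEquiv A (Fintype.equivFin σ).symm).restrictScalars k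
    exact hG.iso _ _ (e1.trans e.symm) (hG.poly A _ h1)
  | succ r ih =>
    have key : ∀ (t : ℕ) (A σ Q : Type) [CommRing A] [Algebra k A] [Algebra.FiniteType k A]
        [Fintype σ] [CommRing Q] [Algebra k Q] (φ : A →ₐ[k] Q) (z : σ → Q) (e : (σ → A) × A)
        (E : List ((σ → A) × A)), E.length = r →
        (Finset.univ.filter fun j => e.1 j ≠ 0).card ≤ t → Her G A → Lin φ z (e :: E) → G Q := by
      intro t
      induction t with
      | zero =>
        intro A σ Q _ _ _ _ _ _ φ z e E hE ht hA h
        have h0 : ∀ j, e.1 j = 0 := by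
          intro j
          by_contra hj
          have h1 : j ∈ Finset.univ.filter fun j => e.1 j ≠ 0 := by simp [hj]
          have h2 := Finset.card_pos.mpr ⟨j, h1⟩
          omega
        obtain ⟨φ', h'⟩ := lin_const h h0
        exact ih _ _ _ φ' z _ (by rw [length_mapE, hE])
          (hA.piece (Ideal.Quotient.mkₐ k _) (piece_surj _ (Ideal.Quotient.mkₐ_surjective k _))) h'
      | succ t iht =>
        intro A σ Q _ _ _ _ _ _ φ z e E hE ht hA h
        by_cases h0 : ∀ j, e.1 j = 0
        · obtain ⟨φ', h'⟩ := lin_const h h0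
          exact ih _ _ _ φ' z _ (by rw [length_mapE, hE])
            (hA.piece (Ideal.Quotient.mkₐ k _) (piece_surj _ (Ideal.Quotient.mkₐ_surjective k _))) h'
        · obtain ⟨j, hj⟩ := not_forall.mp h0
          have hQ := lin_ft h
          refine hG.ext Q (φ (e.1 j)) ?_ ?_
          · obtain ⟨φ', h'⟩ := lin_quot h (e.1 j)
            refine iht _ _ _ φ' _ _ _ (by rw [← hE]; exact length_mapE _ E) ?_
              (hA.piece (Ideal.Quotient.mkₐ k _)
                (piece_surj _ (Ideal.Quotient.mkₐ_surjective k _))) h'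
            have hlt : (Finset.univ.filter fun i =>
                Ideal.Quotient.mk (Ideal.span {e.1 j}) (e.1 i) ≠ 0) ⊂
                (Finset.univ.filter fun i => e.1 i ≠ 0) := by
              rw [Finset.ssubset_iff_of_subset]
              · refine ⟨j, by simp [hj], ?_⟩
                simp only [Finset.mem_filter, Finset.mem_univ, true_and, not_not]
                exact Ideal.Quotient.eq_zero_iff_mem.mpr (Ideal.mem_span_singleton_self _)
              · intro i hi
                simp only [Finset.mem_filter, Finset.mem_univ, true_and] at hi ⊢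
                intro hi0
                exact hi (by rw [hi0, map_zero])
            have h2 := Finset.card_lt_card hlt
            change (Finset.univ.filter fun i =>
                Ideal.Quotient.mk (Ideal.span {e.1 j}) (e.1 i) ≠ 0).card ≤ t
            omega
          · obtain ⟨φ', h'⟩ := lin_loc h (e.1 j)
            have hu : IsUnit (algebraMap A (Localization.Away (e.1 j)) (e.1 j)) :=
              IsLocalization.map_units (M := Submonoid.powers (e.1 j)) _
                ⟨_, Submonoid.mem_powers _⟩
            obtain ⟨u, hu⟩ := hu.exists_left_inv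
            have h3 := lin_elim h' j u hu
            have hft : Algebra.FiniteType k (Localization.Away (e.1 j)) :=
              Algebra.FiniteType.trans (S := A) inferInstance inferInstance
            refine ih _ _ _ φ' _ _ ?_ (hA.piece _ (piece_loc (e.1 j))) h3
            rw [elimE, List.length_map, ← hE]
            exact length_mapE _ E
    intro A σ Q _ _ _ _ _ _ φ z E hE hA h
    obtain ⟨e, E, rfl⟩ := List.exists_cons_of_length_eq_add_one hE
    exact key _ A σ Q φ z e E (by simpa using hE) le_rfl hA h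

end Pool.Agent.U554.TD
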