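import Pool.Agent.U554.TD.Two

/-!
# Classes at the generic points
-/

set_option autoImplicit false

open CategoryTheory AlgebraicGeometry MvPolynomial Pool.Agent.Y116.UV
open Pool.Agent.U554.TU Pool.Agent.U554.TW Pool.Agent.U483.GU

namespace Pool.Agent.U554.TD

universe w v u

variable {𝓡 : Type u} [Category.{v} 𝓡] [Abelian 𝓡] {one : 𝓡} {k : Type} [Field k]

/-- The push-forwards along the closed immersions `Spec (A / w) → Spec A`. -/
def Push (O : ℤ → ℤ → Sch k → CReg.{w} one) : Type _ :=
  ∀ (A : Type) [CommRing A] [Algebra k A] (w : A) (b : ℤ),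
    CReg.Hom (O b 0 (aff k (A ⧸ Ideal.span {w}))) (O b 0 (aff k A))

/-- A cycle of dimension `b` on an integral affine scheme of dimension greater than `b` is supported on a
proper closed subset. -/
def HasSupports (O : ℤ → ℤ → Sch k → CReg.{w} one) (push : Push O) : Prop :=
  ∀ (A : Type) [CommRing A] [IsDomain A] [Algebra k A] [Algebra.FiniteType k A] (n : ℕ) (b : ℤ),
    ringKrullDim A = n → b < n → ∀ a : (O b 0 (aff k A)).A, ∃ (w : A) (_ : w ≠ 0)
      (a' : (O b 0 (aff k (A ⧸ Ideal.span {w}))).A), (push A w b).f a' = a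

/-- All classes of dimension `b` (less than the dimension) of the integral affine scheme `Spec A` vanish at
the generic point: each class comes from a proper closed subset, i.e. it is zero on the complement. -/
def GenericVanishing (O : ℤ → ℤ → Sch k → CReg.{w} one) (push : Push O) (A : Type) [CommRing A]
    [Algebra k A] (b : ℤ) : Prop :=
  ∀ x : one ⟶ (O b 0 (aff k A)).B, ∃ (w : A) (_ : w ≠ 0)
    (z : one ⟶ (O b 0 (aff k (A ⧸ Ideal.span {w}))).B), z ≫ (push A w b).g = x

variable {O : ℤ → ℤ → Sch k → CReg.{w} one} {push : Push O}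

lemma dim_nat {B : Type} [CommRing B] [Nontrivial B] {n : ℕ} (h : ringKrullDim B ≤ n) :
    ∃ m : ℕ, ringKrullDim B = m ∧ m ≤ n := by
  have h0 : 0 ≤ ringKrullDim B := ringKrullDim_nonneg_of_nontrivial
  generalize ringKrullDim B = r at h h0
  cases r with
  | bot => exact absurd h0 (by simp)
  | coe r =>
    cases r with
    | top => exact absurd (WithBot.coe_le_coe.mp h) (by simp)
    | coe r =>
      refine ⟨r, rfl, ?_⟩
      exact_mod_cast h

/-- From the generic points to all schemes of dimension at most `d`. -/
lemma all_of_generic (hO : IsClassTheory O) (d : ℕ)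
    (h : ∀ (A : Type) [CommRing A] [IsDomain A] [Algebra k A] [Algebra.FiniteType k A] (n : ℕ) (b : ℤ),
      ringKrullDim A = n → n ≤ d → b < n → GenericVanishing O push A b) (n : ℕ) : n ≤ d →
    ∀ (A : Type) [CommRing A] [Algebra k A] [Algebra.FiniteType k A], ringKrullDim A ≤ n →
      AllOnto O (aff k A) := by
  induction n with
  | zero =>
    intro _ A _ _ _ hA b
    refine hO.extreme _ 0 b (ft_aff True) ?_ (by push_cast; omega)
    rw [Pool.Agent.Z125.UN.topDim_aff]
    exact hA
  | succ n ih =>
    intro hn A _ _ _ hA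
    have hP := (sided_class hO).toOne
    have hdom : ∀ (B : Type) [CommRing B] [IsDomain B] [Algebra k B] [Algebra.FiniteType k B],
        ringKrullDim B ≤ ((n + 1 : ℕ) : WithBot ℕ∞) → AllOnto O (aff k B) := by
      intro B _ _ _ _ hB b
      obtain ⟨m, hm, hmn⟩ := dim_nat hB
      by_cases hb : (m : ℤ) ≤ b
      · refine hO.extreme _ m b (ft_aff True) ?_ (Or.inr hb)
        rw [Pool.Agent.Z125.UN.topDim_aff]
        exact le_of_eq hm
      · intro x
        obtain ⟨w, hw, z, hz⟩ := h B m b hm (by omega) (by omega) x
        have h4 := ringKrullDim_quotient_succ_le_of_nonZeroDivisor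
          (mem_nonZeroDivisors_of_ne_zero hw)
        have h5 : ringKrullDim (B ⧸ Ideal.span {w}) ≤ n := dim_sub (h4.trans hB)
        obtain ⟨a, ha⟩ := ih (by omega) (B ⧸ Ideal.span {w}) h5 b z
        refine ⟨(push B w b).f a, ?_⟩
        rw [← (push B w b).comm, ha, hz]
    have hN : IsNoetherianRing A := Algebra.FiniteType.isNoetherianRing k A
    have key : ∀ I : Ideal A, AllOnto O (aff k (A ⧸ I)) := by
      intro I
      induction I using IsNoetherian.induction with
      | hgt I ih =>
      have hdI : ringKrullDim (A ⧸ I) ≤ ((n + 1 : ℕ) : WithBot ℕ∞) :=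
        (ringKrullDim_le_of_surjective _ Ideal.Quotient.mk_surjective).trans hA
      by_cases hI : I = ⊤
      · subst hI
        exact hP.empty _ (Ideal.Quotient.subsingleton_iff.mpr rfl)
      by_cases hp : Ideal.IsPrime I
      · exact hdom (A ⧸ I) hdI
      · have h1 : ∃ a b, a * b ∈ I ∧ a ∉ I ∧ b ∉ I := by
          by_contra hcon
          push Not at hcon
          exact hp ⟨hI, fun {a b} hab => by
            by_contra h
            push Not at h
            exact h.2 (hcon a b hab h.1)⟩
        obtain ⟨a, b, hab, ha, hb⟩ := h1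
        have hJ : ∀ c, c ∉ I → I < I ⊔ Ideal.span {c} := fun c hc =>
          lt_of_le_of_ne le_sup_left fun h => hc (by
            rw [h]
            exact Ideal.mem_sup_right (Ideal.mem_span_singleton_self c))
        have hPa := quot_mk hP I a (ih _ (hJ a ha))
        have hPb := quot_mk hP I b (ih _ (hJ b hb))
        refine ring_total hP _ hPa (zero_div hP (b := Ideal.Quotient.mk I b) ?_ hPb ?_)
        · rw [← map_mul, Ideal.Quotient.eq_zero_iff_mem]
          exact hab
        · have h2 := ih (I ⊔ (Ideal.span {b} ⊔ Ideal.span {a}))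
            (lt_of_lt_of_le (hJ b hb) (sup_le_sup_left le_sup_left I))
          have h3 := quot_ideal hP I _ h2
          have h4 : Ideal.map (Ideal.Quotient.mkₐ k I) (Ideal.span {b} ⊔ Ideal.span {a}) =
              Ideal.span {Ideal.Quotient.mk I b} ⊔ Ideal.span {Ideal.Quotient.mk I a} := by
            rw [Ideal.map_sup, Ideal.map_span, Ideal.map_span, Set.image_singleton,
              Set.image_singleton]
            rfl
          rw [h4] at h3
          exact quot_mk hP _ _ h3
    exact one_alg hP (AlgEquiv.quotientBot k A) (key ⊥)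

/-- From all schemes to the generic points. -/
lemma generic_of_all (hs : HasSupports O push) {A : Type} [CommRing A] [IsDomain A] [Algebra k A]
    [Algebra.FiniteType k A] {n : ℕ} {b : ℤ} (hA : ringKrullDim A = n) (hb : b < n)
    (h : AllOnto O (aff k A)) : GenericVanishing O push A b := by
  intro x
  obtain ⟨a, ha⟩ := h b x
  obtain ⟨w, hw, a', ha'⟩ := hs A n b hA hb a
  refine ⟨w, hw, (O b 0 (aff k (A ⧸ Ideal.span {w}))).c a', ?_⟩
  rw [(push A w b).comm, ha', ha]

end Pool.Agent.U554.TD
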