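import Pool.Agent.U554.TD.Pure
import Mathlib.Algebra.Category.ModuleCat.Abelian
import Mathlib.Algebra.Category.ModuleCat.Biproducts
import Mathlib.LinearAlgebra.Eigenspace.Basic

/-!
# Monodromy and weights for the realizations of pure motives of weight `0`
-/

set_option autoImplicit false

open CategoryTheory AlgebraicGeometry MvPolynomial Pool.Agent.Y116.UV
open Pool.Agent.U554.TU Pool.Agent.U554.TW Pool.Agent.U483.GU

namespace Pool.Agent.U554.TD

universe v u w

/-- A realization of the motives of weight `0` over a local field: an additive functor `F` to the vector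
spaces over `K`, a Frobenius `Φ` and a monodromy operator `N` (natural endomorphisms), and the relation
`wt a j`: the element `a` of `K` has weight `j`. -/
structure Monodromy (K : Type w) [Field K] (𝓢 : Type u) [Category.{v} 𝓢] [Abelian 𝓢] where
  /-- the realization -/
  F : 𝓢 ⥤ ModuleCat.{w} K
  [additive : F.Additive]
  /-- the Frobenius -/
  Φ : F ⟶ F
  /-- the monodromy operator -/
  N : F ⟶ F
  /-- weights of the elements of `K` -/
  wt : K → ℤ → Prop

attribute [instance] Monodromy.additive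

variable {K : Type w} [Field K] {𝓢 : Type u} [Category.{v} 𝓢] [Abelian 𝓢]

namespace Monodromy

variable (S : Monodromy K 𝓢)

/-- The Frobenius of `F(M)`. -/
def frob (M : 𝓢) : Module.End K (S.F.obj M) := (S.Φ.app M).hom

/-- The power `N^s` of the monodromy operator of `F(M)`. -/
def mono (M : 𝓢) (s : ℕ) : Module.End K (S.F.obj M) := (S.N.app M).hom ^ s

/-- The part of weight `j` of `F(M)`: the sum of the generalised eigenspaces of `Φ` for the eigenvalues of
weight `j`. -/
def part (M : 𝓢) (j : ℤ) : Submodule K (S.F.obj M) :=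
  ⨆ a : {a : K // S.wt a j}, Module.End.maxGenEigenspace (S.frob M) (a : K)

/-- All eigenvalues of `Φ` on `F(M)` have a weight. -/
def HasWeights (M : 𝓢) : Prop :=
  ∀ a : K, Module.End.HasEigenvalue (S.frob M) a → ∃ j, S.wt a j

/-- `N^s` is a bijection of the part of weight `s` with the part of weight `-s`. -/
def Symmetric (M : 𝓢) (s : ℕ) : Prop :=
  Set.BijOn (S.mono M s) (S.part M s) (S.part M (-s))

/-- `F(M)` is pure of weight `0`: all eigenvalues of `Φ` have a weight, and `N^s` induces an isomorphism of the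
part of weight `s` with the part of weight `-s`, for all `s ≥ 0`. -/
def Pure (M : 𝓢) : Prop := S.HasWeights M ∧ ∀ s : ℕ, S.Symmetric M s

lemma symmetric_iff (M : 𝓢) (s : ℕ) : S.Symmetric M s ↔
    (∀ x ∈ S.part M s, ((S.N.app M).hom ^ s) x = 0 → x = 0) ∧
    (∀ x ∈ S.part M s, ((S.N.app M).hom ^ s) x ∈ S.part M (-s)) ∧
    ∀ y ∈ S.part M (-s), ∃ x ∈ S.part M s, ((S.N.app M).hom ^ s) x = y := by
  constructor
  · rintro ⟨h1, h2, h3⟩
    refine ⟨fun x hx h => ?_, fun x hx => h1 hx, fun y hy => ?_⟩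
    · refine h2 hx (S.part M s).zero_mem ?_
      change ((S.N.app M).hom ^ s) x = ((S.N.app M).hom ^ s) 0
      rw [h, map_zero]
    · obtain ⟨x, hx, h⟩ := h3 hy
      exact ⟨x, hx, h⟩
  · rintro ⟨h1, h2, h3⟩
    refine ⟨fun x hx => h2 x hx, fun x hx y hy h => ?_, fun y hy => ?_⟩
    · have h4 : ((S.N.app M).hom ^ s) (x - y) = 0 := by
        rw [map_sub, sub_eq_zero]
        exact h
      exact sub_eq_zero.mp (h1 _ ((S.part M s).sub_mem hx hy) h4)
    · obtain ⟨x, hx, h⟩ := h3 y hy
      exact ⟨x, hx, h⟩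

variable {S}

lemma map_pow (τ : S.F ⟶ S.F) {A B : 𝓢} (f : A ⟶ B) (s : ℕ) (x : S.F.obj A) :
    (S.F.map f).hom (((τ.app A).hom ^ s) x) = ((τ.app B).hom ^ s) ((S.F.map f).hom x) := by
  induction s generalizing x with
  | zero => simp
  | succ s ih =>
    rw [pow_succ, pow_succ, Module.End.mul_apply, Module.End.mul_apply, ih]
    congr 1
    have h1 := τ.naturality f
    have h2 := congrArg (fun u => u.hom x) h1
    exact h2.symm

lemma map_sub_pow {A B : 𝓢} (f : A ⟶ B) (a : K) (s : ℕ) (x : S.F.obj A) :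
    (S.F.map f).hom ((((S.Φ.app A).hom - algebraMap K (Module.End K (S.F.obj A)) a) ^ s) x) =
      (((S.Φ.app B).hom - algebraMap K (Module.End K (S.F.obj B)) a) ^ s) ((S.F.map f).hom x) := by
  induction s generalizing x with
  | zero => simp
  | succ s ih =>
    rw [pow_succ, pow_succ, Module.End.mul_apply, Module.End.mul_apply, ih]
    congr 1
    have h1 := map_pow S.Φ f 1 x
    rw [pow_one, pow_one] at h1
    rw [LinearMap.sub_apply, LinearMap.sub_apply, map_sub, h1, Module.algebraMap_end_apply,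
      Module.algebraMap_end_apply, map_smul]

lemma map_part {A B : 𝓢} (f : A ⟶ B) (j : ℤ) (x : S.F.obj A) (hx : x ∈ S.part A j) :
    (S.F.map f).hom x ∈ S.part B j := by
  have h : S.part A j ≤ (S.part B j).comap (S.F.map f).hom := by
    refine iSup_le fun a y hy => ?_
    rw [Submodule.mem_comap]
    refine Submodule.mem_iSup_of_mem a ?_
    rw [Module.End.mem_maxGenEigenspace] at hy ⊢
    obtain ⟨s, hs⟩ := hy
    refine ⟨s, ?_⟩
    have h1 := map_sub_pow f (a : K) s y
    have h2 : (((S.Φ.app A).hom - (a : K) • (1 : Module.End K (S.F.obj A))) ^ s) y = 0 := hs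
    have h3 : algebraMap K (Module.End K (S.F.obj A)) (a : K) = (a : K) • 1 :=
      Algebra.algebraMap_eq_smul_one _
    have h4 : algebraMap K (Module.End K (S.F.obj B)) (a : K) = (a : K) • 1 :=
      Algebra.algebraMap_eq_smul_one _
    rw [h3, h4, h2, map_zero] at h1
    exact h1.symm
  exact h hx

lemma eig {M : 𝓢} {a : K} : Module.End.HasEigenvalue (S.Φ.app M).hom a ↔
    ∃ x : S.F.obj M, x ≠ 0 ∧ (S.Φ.app M).hom x = a • x := by
  constructor
  · intro h
    obtain ⟨x, hx⟩ := h.exists_hasEigenvector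
    exact ⟨x, hx.2, hx.apply_eq_smul⟩
  · rintro ⟨x, hx, h⟩
    exact Module.End.hasEigenvalue_of_hasEigenvector ⟨Module.End.mem_eigenspace_iff.mpr h, hx⟩

lemma eig_map {A B : 𝓢} (f : A ⟶ B) {a : K} {x : S.F.obj A} (h : (S.Φ.app A).hom x = a • x) :
    (S.Φ.app B).hom ((S.F.map f).hom x) = a • (S.F.map f).hom x := by
  have h1 := map_pow S.Φ f 1 x
  rw [pow_one, pow_one] at h1
  rw [← h1, h, map_smul]

variable (S)

lemma isAdditive : IsAdditive S.Pure where
  factor := by
    rintro A B ⟨r⟩ ⟨hB1, hB2'⟩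
    have hB2 := fun s => (S.symmetric_iff B s).mp (hB2' s)
    have key : ∀ x, (S.F.map r.r).hom ((S.F.map r.i).hom x) = x := by
      intro x
      have h1 : S.F.map r.i ≫ S.F.map r.r = 𝟙 _ := by rw [← S.F.map_comp, r.retract, S.F.map_id]
      have h2 := congrArg (fun u => u.hom x) h1
      simpa using h2
    refine ⟨fun a ha => ?_, fun s => (S.symmetric_iff _ s).mpr
      ⟨fun x hx h => ?_, fun x hx => ?_, fun y hy => ?_⟩⟩
    · obtain ⟨x, hx, h⟩ := eig.mp ha
      refine hB1 a (eig.mpr ⟨(S.F.map r.i).hom x, fun h1 => hx ?_, eig_map r.i h⟩)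
      rw [← key x, h1, map_zero]
    · have h1 := (hB2 s).1 _ (map_part r.i _ x hx) (by rw [← map_pow, h, map_zero])
      rw [← key x, h1, map_zero]
    · have h1 := (hB2 s).2.1 _ (map_part r.i _ x hx)
      have h2 := map_part r.r _ _ h1
      rwa [map_pow, key] at h2
    · obtain ⟨x, hx, h⟩ := (hB2 s).2.2 _ (map_part r.i _ y hy)
      refine ⟨(S.F.map r.r).hom x, map_part r.r _ x hx, ?_⟩
      rw [← map_pow, h, key]
  sum := by
    rintro A B ⟨hA1, hA2'⟩ ⟨hB1, hB2'⟩
    have hA2 := fun s => (S.symmetric_iff A s).mp (hA2' s)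
    have hB2 := fun s => (S.symmetric_iff B s).mp (hB2' s)
    let i := fun x => (S.F.map (Limits.biprod.inl : A ⟶ A ⊞ B)).hom x
    let i' := fun x => (S.F.map (Limits.biprod.inr : B ⟶ A ⊞ B)).hom x
    let p := fun x => (S.F.map (Limits.biprod.fst : A ⊞ B ⟶ A)).hom x
    let p' := fun x => (S.F.map (Limits.biprod.snd : A ⊞ B ⟶ B)).hom x
    have key : ∀ x, i (p x) + i' (p' x) = x := by
      intro x
      have h1 : S.F.map (Limits.biprod.fst : A ⊞ B ⟶ A) ≫ S.F.map Limits.biprod.inl +
          S.F.map (Limits.biprod.snd : A ⊞ B ⟶ B) ≫ S.F.map Limits.biprod.inr = 𝟙 _ := by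
        rw [← S.F.map_comp, ← S.F.map_comp, ← S.F.map_add, Limits.biprod.total, S.F.map_id]
      have h2 := congrArg (fun u => u.hom x) h1
      simpa using h2
    have key0 : ∀ x, p x = 0 → p' x = 0 → x = 0 := by
      intro x h1 h2
      have h3 := key x
      rw [h1, h2] at h3
      have h4 : i 0 = 0 := map_zero _
      have h5 : i' 0 = 0 := map_zero _
      rw [h4, h5, add_zero] at h3
      exact h3.symm
    refine ⟨fun a ha => ?_, fun s => (S.symmetric_iff _ s).mpr
      ⟨fun x hx h => ?_, fun x hx => ?_, fun y hy => ?_⟩⟩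
    · obtain ⟨x, hx, h⟩ := eig.mp ha
      by_cases h1 : p x = 0
      · refine hB1 a (eig.mpr ⟨p' x, fun h2 => hx (key0 x h1 h2), eig_map _ h⟩)
      · exact hA1 a (eig.mpr ⟨p x, h1, eig_map _ h⟩)
    · refine key0 x ?_ ?_
      · refine (hA2 s).1 _ (map_part _ _ x hx) ?_
        rw [← map_pow, h, map_zero]
      · refine (hB2 s).1 _ (map_part _ _ x hx) ?_
        rw [← map_pow, h, map_zero]
    · have h1 := map_part (Limits.biprod.inl : A ⟶ A ⊞ B) _ _
        ((hA2 s).2.1 _ (map_part (Limits.biprod.fst : A ⊞ B ⟶ A) _ x hx))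
      have h2 := map_part (Limits.biprod.inr : B ⟶ A ⊞ B) _ _
        ((hB2 s).2.1 _ (map_part (Limits.biprod.snd : A ⊞ B ⟶ B) _ x hx))
      have h3 := (S.part (A ⊞ B) (-s)).add_mem h1 h2
      rw [map_pow, map_pow, ← map_add] at h3
      have h4 := key x
      change (S.F.map Limits.biprod.inl).hom ((S.F.map Limits.biprod.fst).hom x) +
        (S.F.map Limits.biprod.inr).hom ((S.F.map Limits.biprod.snd).hom x) = x at h4
      rwa [h4] at h3
    · obtain ⟨x, hx, h⟩ := (hA2 s).2.2 _ (map_part (Limits.biprod.fst : A ⊞ B ⟶ A) _ y hy)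
      obtain ⟨x', hx', h'⟩ := (hB2 s).2.2 _ (map_part (Limits.biprod.snd : A ⊞ B ⟶ B) _ y hy)
      refine ⟨i x + i' x', (S.part (A ⊞ B) s).add_mem (map_part _ _ x hx) (map_part _ _ x' hx'), ?_⟩
      rw [map_add]
      have h1 : ((S.N.app (A ⊞ B)).hom ^ s) (i x) = i (p y) := by
        change _ = (S.F.map (Limits.biprod.inl : A ⟶ A ⊞ B)).hom
          ((S.F.map (Limits.biprod.fst : A ⊞ B ⟶ A)).hom y)
        rw [← h, map_pow]
      have h2 : ((S.N.app (A ⊞ B)).hom ^ s) (i' x') = i' (p' y) := by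
        change _ = (S.F.map (Limits.biprod.inr : B ⟶ A ⊞ B)).hom
          ((S.F.map (Limits.biprod.snd : A ⊞ B ⟶ B)).hom y)
        rw [← h', map_pow]
      rw [h1, h2]
      exact key y

end Monodromy

end Pool.Agent.U554.TD
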