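import Pool.Agent.U554.TD.Ser
import Pool.Agent.U554.TD.Wd
import Pool.Agent.U554.TD.Cmp

/-!
# Properties of the weight graded parts of mixed objects
-/

set_option autoImplicit false

open CategoryTheory AlgebraicGeometry Pool.Agent.U554.TW

namespace Pool.Agent.U554.TD

universe v u v' u' w

section

variable {𝓒 : Type u} [Category.{v} 𝓒] [Abelian 𝓒] {𝓢 : Type u'} [Category.{v'} 𝓢] [Abelian 𝓢]

/-- The functor is exact. -/
structure IsExactFunctor (G : 𝓒 ⥤ 𝓢) : Prop where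
  zero : ∀ X : 𝓒, Limits.IsZero X → Limits.IsZero (G.obj X)
  exact : ∀ {X Y Z : 𝓒} (f : X ⟶ Y) (g : Y ⟶ Z), ExactAt f g → ExactAt (G.map f) (G.map g)

/-- The graded parts `gr w M` have the properties `Q w`, for all weights `w`. -/
def AllParts (gr : ℤ → 𝓒 ⥤ 𝓢) (Q : ℤ → 𝓢 → Prop) (M : 𝓒) : Prop := ∀ w : ℤ, Q w ((gr w).obj M)

/-- In a semisimple category: an additive property passes to the middle term of exact sequences. -/
lemma additive_mid (hs : ∀ {A B : 𝓢} (f : A ⟶ B) [Mono f], ∃ r : B ⟶ A, f ≫ r = 𝟙 A) {Q : 𝓢 → Prop}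
    (hQ : IsAdditive Q) {X Y Z : 𝓢} (f : X ⟶ Y) (g : Y ⟶ Z) (h : ExactAt f g) (hX : Q X) (hZ : Q Z) : Q Y := by
  obtain ⟨w, h⟩ := h
  -- the kernel is a direct factor of `X`
  let p : X ⟶ Limits.kernel g := Limits.kernel.lift g f w
  have hp : Epi p := h.epi_kernelLift
  obtain ⟨r, hr⟩ := hs (Limits.kernel.ι p)
  let t : Limits.kernel g ⟶ X := Abelian.epiDesc p (𝟙 X - r ≫ Limits.kernel.ι p) (by
    rw [Preadditive.comp_sub, ← Category.assoc, hr, Category.comp_id, Category.id_comp, sub_self])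
  have ht : t ≫ p = 𝟙 _ := by
    rw [← cancel_epi p, ← Category.assoc, Abelian.comp_epiDesc, Preadditive.sub_comp, Category.assoc,
      Limits.kernel.condition, Limits.comp_zero, sub_zero, Category.id_comp, Category.comp_id]
  have h1 : Q (Limits.kernel g) := hQ.factor ⟨⟨t, p, ht⟩⟩ hX
  -- the coimage is a direct factor of `Z`
  obtain ⟨q, hq⟩ := hs (Abelian.factorThruCoimage g)
  have h2 : Q (Abelian.coimage g) := hQ.factor ⟨⟨Abelian.factorThruCoimage g, q, hq⟩⟩ hZ
  obtain ⟨s, hs'⟩ := hs (Limits.kernel.ι g)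
  have : IsSplitMono (Limits.kernel.ι g) := IsSplitMono.mk' ⟨s, hs'⟩
  have e : Y ≅ Limits.kernel g ⊞ Abelian.coimage g := Limits.biprod.uniqueUpToIso _ _
    (Limits.isBilimitBinaryBiconeOfIsSplitMonoOfCokernel (Limits.cokernelIsCokernel (Limits.kernel.ι g)))
  exact hQ.factor ⟨⟨e.hom, e.inv, e.hom_inv_id⟩⟩ (hQ.sum _ _ h1 h2)

/-- The property of the graded parts. -/
lemma serre_parts (hs : ∀ {A B : 𝓢} (f : A ⟶ B) [Mono f], ∃ r : B ⟶ A, f ≫ r = 𝟙 A)
    {gr : ℤ → 𝓒 ⥤ 𝓢} (hgr : ∀ w, IsExactFunctor (gr w)) {Q : ℤ → 𝓢 → Prop} (hQ : ∀ w, IsAdditive (Q w))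
    (h0 : ∀ (w : ℤ) (X : 𝓢), Limits.IsZero X → Q w X) : IsSerre (AllParts gr Q) where
  zero X hX w := h0 w _ ((hgr w).zero X hX)
  factor := by
    rintro X Y ⟨r⟩ h w
    exact (hQ w).factor ⟨r.map (gr w)⟩ (h w)
  mid f g h hX hZ w := additive_mid hs (hQ w) _ _ ((hgr w).exact f g h) (hX w) (hZ w)

end

section

variable {K : Type w} [Field K] {𝓢 : Type u} [Category.{v} 𝓢] [Abelian 𝓢]

/-- The realization with the weights shifted by `w`: an element has the new weight `j` if it has the weight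
`w + j`. -/
def Monodromy.shift (S : Monodromy K 𝓢) (w : ℤ) : Monodromy K 𝓢 where
  F := S.F
  Φ := S.Φ
  N := S.N
  wt a j := S.wt a (w + j)

/-- `F(M)` is pure of weight `w`: all eigenvalues of `Φ` have a weight, and `N^s` induces an isomorphism of the part of
weight `w + s` with the part of weight `w - s`, for all `s ≥ 0`. -/
def Monodromy.PureOf (S : Monodromy K 𝓢) (w : ℤ) (M : 𝓢) : Prop := (S.shift w).Pure M

lemma realization_zero (F : 𝓢 ⥤ ModuleCat.{w} K) [F.Additive] {M : 𝓢} (h : Limits.IsZero M) :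
    Subsingleton (F.obj M) :=
  ModuleCat.subsingleton_of_isZero (F.map_isZero h)

lemma Monodromy.pure_zero (S : Monodromy K 𝓢) {M : 𝓢} (h : Limits.IsZero M) : S.Pure M := by
  have h1 := realization_zero S.F h
  refine ⟨fun a ha => ?_, fun s => (S.symmetric_iff M s).mpr ⟨fun x _ _ => Subsingleton.elim _ _, ?_, ?_⟩⟩
  · obtain ⟨x, hx⟩ := ha.exists_hasEigenvector
    exact absurd (Subsingleton.elim x 0) hx.2
  · intro x _
    rw [Subsingleton.elim (((S.N.app M).hom ^ s) x) 0]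
    exact Submodule.zero_mem _
  · intro y _
    exact ⟨0, Submodule.zero_mem _, Subsingleton.elim _ _⟩

lemma TwoSpaces.equal_zero (S : TwoSpaces K 𝓢) {M : 𝓢} (h : Limits.IsZero M) : S.Equal M := by
  have h1 := realization_zero S.F h
  exact Subsingleton.elim _ _

end

end Pool.Agent.U554.TD
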