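import Pool.Agent.U554.TD.Hom

/-!
# Systems of bilinear equations: the part where the last variable is invertible
-/

set_option autoImplicit false

open MvPolynomial Pool.Agent.Y116.UV Pool.Agent.U554.TU

namespace Pool.Agent.U554.TD

variable {k : Type} [Field k]

lemma bsol_map {B B' ι β σ : Type} [CommRing B] [Algebra k B] [CommRing B'] [Algebra k B']
    [Fintype β] [Fintype σ] {T : ι → β → σ → k} {y : β → B} {z : σ → B} (h : BSol T y z)
    (g : B →ₐ[k] B') : BSol T (fun i => g (y i)) (fun j => g (z j)) := by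
  intro e
  have h1 := congrArg g (h e)
  rw [map_zero, map_sum] at h1
  refine Eq.trans (Finset.sum_congr rfl fun i _ => ?_) h1
  rw [map_sum]
  refine Finset.sum_congr rfl fun j _ => ?_
  rw [map_mul, map_mul, g.commutes]

lemma bsol_mul {B ι β σ : Type} [CommRing B] [Algebra k B] [Fintype β] [Fintype σ]
    {T : ι → β → σ → k} {y : β → B} {z : σ → B} (h : BSol T y z) (c : B) :
    BSol T (fun i => c * y i) z := by
  intro e
  have h1 := congrArg (fun x => c * x) (h e)
  simp only [mul_zero, Finset.mul_sum] at h1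
  refine Eq.trans (Finset.sum_congr rfl fun i _ => Finset.sum_congr rfl fun j _ => ?_) h1
  ring

section

variable {Q W σ : Type} {a p : ℕ} [CommRing Q] [Algebra k Q] [CommRing W] [Algebra k W] [Fintype σ]
  {T : Fin a → Fin (p + 1) → σ → k} {y : Fin (p + 1) → Q} {z : σ → Q}
  {φ : MvPolynomial (Fin p) k →ₐ[k] W} {w : σ → W}

/-- The part where the last variable is invertible. -/
lemma bil_open (h : Bil T y z) (h' : Lin φ w (dehom T)) :
    Nonempty (Localization.Away (y (Fin.last p)) ≃ₐ[k] LaurentPolynomial W) := by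
  -- the two units
  let c : Q := y (Fin.last p)
  let ι : Q →ₐ[k] Localization.Away c := IsScalarTower.toAlgHom k Q _
  let κ : W →ₐ[k] LaurentPolynomial W :=
    { (LaurentPolynomial.C : W →+* LaurentPolynomial W) with commutes' := fun _ => rfl }
  have hκ : ∀ b, κ b = LaurentPolynomial.C b := fun _ => rfl
  let t : LaurentPolynomial W := LaurentPolynomial.T 1
  have ht : IsUnit t := LaurentPolynomial.isUnit_T 1
  obtain ⟨u, hu⟩ := loc_unit c
  change (u : Localization.Away c) = ι c at hu
  let y0 : Fin (p + 1) → W := Fin.snoc (α := fun _ => W) (fun i => φ (X i)) 1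
  have y0l : y0 (Fin.last p) = 1 := Fin.snoc_last (α := fun _ => W) _ _
  have y0c : ∀ i : Fin p, y0 (Fin.castSucc i) = φ (X i) :=
    fun i => Fin.snoc_castSucc (α := fun _ => W) _ _ i
  -- the first homomorphism
  have h1 : BSol T y0 w := (sol_dehom φ w).mp h'.sol
  obtain ⟨f0, hf0y, hf0z⟩ := h.ex (LaurentPolynomial W) _ _ (bsol_mul (bsol_map h1 κ) t)
  have hf0l : f0 c = t := by
    rw [hf0y, y0l, map_one, mul_one]
  obtain ⟨f, hf⟩ := loc_ex c f0 (by rw [hf0l]; exact ht)
  change ∀ a, f (ι a) = f0 a at hf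
  -- the second homomorphism
  let ψ : MvPolynomial (Fin p) k →ₐ[k] Localization.Away c :=
    aeval fun i => (↑u⁻¹ : Localization.Away c) * ι (y (Fin.castSucc i))
  have hψ : ∀ i, ψ (X i) = (↑u⁻¹ : Localization.Away c) * ι (y (Fin.castSucc i)) :=
    fun i => aeval_X _ i
  have h2 : BSol T (Fin.snoc (α := fun _ => Localization.Away c) (fun i => ψ (X i)) 1)
      (fun j => ι (z j)) := by
    have h3 := bsol_mul (bsol_map h.sol ι) (↑u⁻¹ : Localization.Away c)
    have h4 : (fun i => (↑u⁻¹ : Localization.Away c) * ι (y i)) =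
        Fin.snoc (α := fun _ => Localization.Away c) (fun i => ψ (X i)) 1 := by
      funext i
      induction i using Fin.lastCases with
      | last =>
        rw [Fin.snoc_last]
        change (↑u⁻¹ : Localization.Away c) * ι c = 1
        rw [← hu, Units.inv_mul]
      | cast i => rw [Fin.snoc_castSucc, hψ]
    rwa [h4] at h3
  obtain ⟨g0, hg0φ, hg0w⟩ := h'.ex _ ψ _ ((sol_dehom ψ _).mpr h2)
  obtain ⟨g, hgC, hgT⟩ := lau_ex g0 u
  -- the compositions
  have e1 : g.comp f = AlgHom.id k _ := by
    apply loc_uniq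
    intro q
    have e2 : (g.comp f).comp ι = ι := by
      refine h.uniq _ _ _ (fun i => ?_) (fun j => ?_)
      · change g (f (ι (y i))) = ι (y i)
        rw [hf, hf0y, map_mul, hκ, hgC]
        change g (LaurentPolynomial.T 1) * _ = _
        rw [hgT]
        induction i using Fin.lastCases with
        | last =>
          rw [y0l, map_one, mul_one]
          exact hu
        | cast i => rw [y0c, hg0φ, hψ, Units.mul_inv_cancel_left]
      · change g (f (ι (z j))) = ι (z j)
        rw [hf, hf0z, hκ, hgC, hg0w]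
    exact congrArg (fun v : Q →ₐ[k] Localization.Away c => v q) e2
  have fu : f (↑u⁻¹ : Localization.Away c) * t = 1 := by
    have e3 : f (ι c) = t := by rw [hf, hf0l]
    rw [← e3, ← hu, ← map_mul, Units.inv_mul, map_one]
  have e4 : f.comp g = AlgHom.id k _ := by
    apply lau_uniq
    · intro b
      have e5 : (f.comp g).comp κ = κ := by
        refine h'.uniq _ _ _ (fun q => ?_) (fun j => ?_)
        · have e6 : ((f.comp g).comp κ).comp φ = κ.comp φ := by
            apply MvPolynomial.algHom_ext
            intro i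
            change f (g (κ (φ (X i)))) = κ (φ (X i))
            rw [hκ, hgC, hg0φ, hψ, map_mul, hf, hf0y, y0c, hκ, ← mul_assoc, fu, one_mul]
          exact congrArg (fun v : MvPolynomial (Fin p) k →ₐ[k] LaurentPolynomial W => v q) e6
        · change f (g (κ (w j))) = κ (w j)
          rw [hκ, hgC, hg0w, hf, hf0z, hκ]
      exact congrArg (fun v : W →ₐ[k] LaurentPolynomial W => v b) e5
    · change f (g (LaurentPolynomial.T 1)) = LaurentPolynomial.T 1
      rw [hgT, hu, hf, hf0l]
  exact ⟨AlgEquiv.ofAlgHom f g e4 e1⟩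

end

variable {G : ∀ (A : Type) [CommRing A] [Algebra k A], Prop}

lemma her_field (h : Her G (MvPolynomial (Fin 0) k)) : Her G k := by
  refine h.piece (aeval fun i => i.elim0 : MvPolynomial (Fin 0) k →ₐ[k] k) (piece_surj _ fun x => ?_)
  exact ⟨C x, by rw [aeval_C]; rfl⟩

/-- **Systems of bilinear equations with at most `n + 2` variables in one block.** -/
theorem bil_good (hG : IsClass G) (hL : ∀ (A : Type) [CommRing A] [Algebra k A]
    [Algebra.FiniteType k A], G A → G (LaurentPolynomial A)) (n : ℕ)
    (base : ∀ p ≤ n, Her G (MvPolynomial (Fin p) k)) (p : ℕ) :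
    p ≤ n + 1 → ∀ (a : ℕ) (σ Q : Type) [Fintype σ] [CommRing Q] [Algebra k Q]
    (T : Fin a → Fin p → σ → k) (y : Fin p → Q) (z : σ → Q), Bil T y z → G Q := by
  induction p with
  | zero =>
    intro _ a σ Q _ _ _ T y z h
    refine lin_good hG 0 k σ Q (Algebra.ofId k Q) z [] rfl (her_field (base 0 (by omega))) ?_
    refine ⟨fun e he => (by cases he), ?_, ?_⟩
    · intro B _ _ ψ w _
      obtain ⟨f, -, hf⟩ := h.ex B (fun i => i.elim0) w fun e => by
        rw [Fin.sum_univ_zero]
      refine ⟨f, fun c => ?_, hf⟩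
      have h1 : ψ = Algebra.ofId k B := Subsingleton.elim _ _
      rw [h1, Algebra.ofId_apply, Algebra.ofId_apply, f.commutes]
    · intro B _ _ f g _ h2
      exact h.uniq B f g (fun i => i.elim0) h2
  | succ p ih =>
    intro hp a σ Q _ _ _ T y z h
    have hQ := bil_ft h
    refine hG.ext Q (y (Fin.last p)) (ih (by omega) _ _ _ _ _ _ (bil_quot h)) ?_
    obtain ⟨I, φ, w, h'⟩ := lin_std (k := k) (MvPolynomial (Fin p) k) σ (dehom T)
    obtain ⟨e⟩ := bil_open h h'
    have h1 : G (MvPolynomial σ (MvPolynomial (Fin p) k) ⧸ I) :=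
      lin_good hG _ _ _ _ φ w _ rfl (base p (by omega)) h'
    have hW := lin_ft h'
    have hL' := hL _ h1
    have hWL : Algebra.FiniteType k
        (LaurentPolynomial (MvPolynomial σ (MvPolynomial (Fin p) k) ⧸ I)) := ft_laurent _
    exact hG.iso _ _ e.symm hL'

end Pool.Agent.U554.TD
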