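import Pool.Agent.U554.TD.Dim

/-!
# Schemes of dimension at most `d` and trilinear forms with a block of `d + 2` variables
-/

set_option autoImplicit false

open CategoryTheory AlgebraicGeometry MvPolynomial Pool.Agent.Y116.UV Pool.Agent.U554.TU
open Pool.Agent.U554.TW

namespace Pool.Agent.U554.TD

universe u

variable {k : Type} [Field k]

/-- The property `H` of schemes passes to extensions of an open subscheme by a closed subscheme and to
open subschemes, to products with affine spaces and with the multiplicative group, and it holds for the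
affine spaces. -/
structure IsSided (H : Sch k → Prop) : Prop extends One True H where
  space : ∀ p : ℕ, H (aff k (MvPolynomial (Fin p) k))
  poly : ∀ (A : Type) [CommRing A] [Algebra k A] [Algebra.FiniteType k A] (r : ℕ),
    H (aff k A) → H (aff k (MvPolynomial (Fin r) A))
  times : ∀ (A : Type) [CommRing A] [Algebra k A] [Algebra.FiniteType k A],
    H (aff k A) → H (aff k (LaurentPolynomial A))

/-- The property for affine schemes. -/
def AffP (H : Sch k → Prop) (A : Type) [CommRing A] [Algebra k A] : Prop := H (aff k A)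

variable {H : Sch k → Prop}

lemma isClass (hH : IsSided H) : IsClass (k := k) (AffP H) where
  iso _ _ _ _ _ _ _ e h := one_alg hH.toOne e h
  ext _ _ _ _ c h h' := ring_total hH.toOne c h h'
  poly A _ _ _ r h := hH.poly A r h

/-- The closed subschemes of an affine space of dimension at most `d + 1`. -/
lemma closed_space (hH : IsSided H) (d : ℕ) (hd : ∀ (A : Type) [CommRing A] [Algebra k A]
    [Algebra.FiniteType k A], ringKrullDim A ≤ d → H (aff k A)) (p : ℕ) (hp : p ≤ d + 1)
    (I : Ideal (MvPolynomial (Fin p) k)) : H (aff k (MvPolynomial (Fin p) k ⧸ I)) := by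
  by_cases hI : I = ⊥
  · subst hI
    exact one_alg hH.toOne (AlgEquiv.quotientBot k _).symm (hH.space p)
  · rcases p with _ | p
    · refine hH.empty _ (Ideal.Quotient.subsingleton_iff.mpr ?_)
      obtain ⟨f, hf, hf0⟩ := Submodule.exists_mem_ne_zero_of_ne_bot hI
      refine Ideal.eq_top_of_isUnit_mem I hf ?_
      let e : MvPolynomial (Fin 0) k ≃ₐ[k] k := isEmptyAlgEquiv k (Fin 0)
      have h1 : IsUnit (e f) := isUnit_iff_ne_zero.mpr (by
        rw [Ne, EmbeddingLike.map_eq_zero_iff]
        exact hf0)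
      have h2 := h1.map e.symm
      rwa [e.symm_apply_apply] at h2
    · refine hd _ ((Pool.Agent.Z125.UN.dim_quot I hI).trans ?_)
      exact_mod_cast (by omega : p ≤ d)

lemma her_space (hH : IsSided H) (d : ℕ) (hd : ∀ (A : Type) [CommRing A] [Algebra k A]
    [Algebra.FiniteType k A], ringKrullDim A ≤ d → H (aff k A)) (p : ℕ) (hp : p ≤ d + 1) :
    Her (k := k) (AffP H) (MvPolynomial (Fin p) k) := by
  rintro A' _ _ φ ⟨g, hg, h1⟩
  exact p_emb hH.toOne (closed_space hH d hd p hp) φ g hg h1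

/-- **From the affine schemes of dimension at most `d` to the systems of bilinear equations with a block of
at most `d + 2` variables.** -/
theorem bil_of_dim (hH : IsSided H) (d : ℕ) (hd : ∀ (A : Type) [CommRing A] [Algebra k A]
    [Algebra.FiniteType k A], ringKrullDim A ≤ d → H (aff k A)) {a₁ a₂ a₃ : ℕ} (ha : a₂ ≤ d + 2)
    (T : Fin a₁ → Fin a₂ → Fin a₃ → k) : H (bilS T) :=
  bil_good (G := AffP H) (isClass hH) (fun A _ _ _ h => hH.times A h) (d + 1)
    (fun p hp => her_space hH d hd p hp) a₂ ha a₁ (Fin a₃) _ T _ _ (bil_std T)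

variable {V : Type u} {C : Rel V} {O : ℤ → ℤ → Sch k → V}

/-- **From the hypersurfaces `T(x, y, z) = 1` with `d + 2` variables `y` to the schemes of dimension at most
`d`.** -/
theorem dim_of_hyp [PerfectField k] (hO : IsTheory C O) (hp : PointZero C O) {P : V → Prop}
    (hP : Inherited C P) (hH : IsSided fun X => ∀ b : ℤ, P (O b 0 X)) (d : ℕ) (hd1 : 1 ≤ d)
    (top : ∀ (A : Type) [CommRing A] [Algebra k A] [Algebra.FiniteType k A], ringKrullDim A ≤ d →
      ∀ b : ℤ, (d : ℤ) ≤ b → P (O b 0 (aff k A))) (s : ℕ)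
    (h : ∀ (a₁ a₃ : ℕ) (T : Fin a₁ → Fin (d + 2) → Fin a₃ → k), ∀ j : ℕ, s < j →
      P (O (a₁ + (d + 2) + a₃ - 1 - j) 1 (hypS T)))
    (X : Sch k) (hX : FT True X) (hdim : topologicalKrullDim X.left ≤ d) (b : ℤ) :
    P (O b 0 X) := by
  classical
  refine of_affine_dim hH.toOne (closed_to_dim hH.toOne (n := d) ?_) X hX hdim b
  intro I c
  by_cases hI : I = ⊥
  · subst hI
    exact one_alg hH.toOne (AlgEquiv.quotientBot k _).symm (hH.space (d + 1)) c
  · by_cases hc : (d : ℤ) ≤ c
    · exact top _ (Pool.Agent.Z125.UN.dim_quot I hI) c hc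
    · obtain ⟨G, hG⟩ := (isNoetherianRing_iff_ideal_fg _).mp
        (inferInstance : IsNoetherianRing (MvPolynomial (Fin (d + 1)) k)) I
      obtain ⟨a₁, a₃, T, -, hb, -, hF⟩ := universal_small hO hp (S := Set.univ) trivial trivial
        (n := d + 1) (by omega) (Ideal.Quotient.mkₐ k I) G (Ideal.Quotient.mkₐ_surjective k I)
        ((Ideal.mk_ker (I := I)).trans hG.symm) (fun _ _ _ => trivial) s c
        (by push_cast; omega)
      have h2 := h a₁ a₃ T ((d + 2 + a₃ : ℤ) - (c + 2)).toNat (by push_cast at hb; omega)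
      have h3 : (a₁ + (d + 2) + a₃ - 1 - (((d + 2 + a₃ : ℤ) - (c + 2)).toNat : ℤ) : ℤ) =
          c + 2 + a₁ - 1 := by
        push_cast at hb
        omega
      rw [h3] at h2
      exact hP _ _ hF h2

/-- **From the systems of bilinear equations with `d + 2` variables `y` to the schemes of dimension at most
`d`.** -/
theorem dim_of_bil [PerfectField k] (hO : IsTheory C O) (hp : PointZero C O) {P : V → Prop}
    (hP : Inherited C P) (hH : IsSided fun X => ∀ b : ℤ, P (O b 0 X)) (d : ℕ) (hd1 : 1 ≤ d)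
    (top : ∀ (A : Type) [CommRing A] [Algebra k A] [Algebra.FiniteType k A], ringKrullDim A ≤ d →
      ∀ b : ℤ, (d : ℤ) ≤ b → P (O b 0 (aff k A))) (s : ℕ)
    (h : ∀ (a₁ a₃ : ℕ) (T : Fin a₁ → Fin (d + 2) → Fin a₃ → k), ∀ j : ℕ, s < j →
      P (O ((d + 2) + a₃ - j) 0 (bilS T)))
    (X : Sch k) (hX : FT True X) (hdim : topologicalKrullDim X.left ≤ d) (b : ℤ) :
    P (O b 0 X) := by
  classical
  refine of_affine_dim hH.toOne (closed_to_dim hH.toOne (n := d) ?_) X hX hdim b
  intro I c
  by_cases hI : I = ⊥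
  · subst hI
    exact one_alg hH.toOne (AlgEquiv.quotientBot k _).symm (hH.space (d + 1)) c
  · by_cases hc : (d : ℤ) ≤ c
    · exact top _ (Pool.Agent.Z125.UN.dim_quot I hI) c hc
    · obtain ⟨G, hG⟩ := (isNoetherianRing_iff_ideal_fg _).mp
        (inferInstance : IsNoetherianRing (MvPolynomial (Fin (d + 1)) k)) I
      obtain ⟨a₁, a₃, T, -, hb, hF, -⟩ := universal_small hO hp (S := Set.univ) trivial trivial
        (n := d + 1) (by omega) (Ideal.Quotient.mkₐ k I) G (Ideal.Quotient.mkₐ_surjective k I)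
        ((Ideal.mk_ker (I := I)).trans hG.symm) (fun _ _ _ => trivial) s c
        (by push_cast; omega)
      have h2 := h a₁ a₃ T ((d + 2 + a₃ : ℤ) - (c + 2)).toNat (by push_cast at hb; omega)
      have h3 : ((d + 2) + a₃ - (((d + 2 + a₃ : ℤ) - (c + 2)).toNat : ℤ) : ℤ) = c + 2 := by
        push_cast at hb
        omega
      rw [h3] at h2
      exact hP _ _ hF h2

/-- The transposition of the first two blocks of variables. -/
lemma hyp_swap {a₁ a₂ a₃ : ℕ} (T : Fin a₁ → Fin a₂ → Fin a₃ → k) :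
    Nonempty (Hyp T ≃ₐ[k] Hyp fun j i l => T i j l) := by
  let e : Fin a₁ ⊕ (Fin a₂ ⊕ Fin a₃) ≃ Fin a₂ ⊕ (Fin a₁ ⊕ Fin a₃) :=
    (Equiv.sumAssoc _ _ _).symm.trans ((Equiv.sumCongr (Equiv.sumComm _ _) (Equiv.refl _)).trans
      (Equiv.sumAssoc _ _ _))
  have h1 : renameEquiv k e (tri T) = tri fun j i l => T i j l := by
    unfold tri
    simp only [map_sum, map_mul, renameEquiv_apply, rename_C, rename_X]
    rw [Finset.sum_comm]
    refine Finset.sum_congr rfl fun j _ => Finset.sum_congr rfl fun i _ =>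
      Finset.sum_congr rfl fun l _ => ?_
    have e1 : e (Sum.inl i) = Sum.inr (Sum.inl i) := rfl
    have e2 : e (Sum.inr (Sum.inl j)) = Sum.inl j := rfl
    have e3 : e (Sum.inr (Sum.inr l)) = Sum.inr (Sum.inr l) := rfl
    rw [e1, e2, e3]
    ring
  refine ⟨Ideal.quotientEquivAlg _ _ (renameEquiv k e) ?_⟩
  rw [Ideal.map_span, Set.image_singleton]
  congr 2
  change _ = renameEquiv k e (tri T - 1)
  rw [map_sub, map_one, h1]

/-- The transposition of the last two blocks of variables. -/
lemma hyp_swap' {a₁ a₂ a₃ : ℕ} (T : Fin a₁ → Fin a₂ → Fin a₃ → k) :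
    Nonempty (Hyp T ≃ₐ[k] Hyp fun i l j => T i j l) := by
  let e : Fin a₁ ⊕ (Fin a₂ ⊕ Fin a₃) ≃ Fin a₁ ⊕ (Fin a₃ ⊕ Fin a₂) :=
    Equiv.sumCongr (Equiv.refl _) (Equiv.sumComm _ _)
  have h1 : renameEquiv k e (tri T) = tri fun i l j => T i j l := by
    unfold tri
    simp only [map_sum, map_mul, renameEquiv_apply, rename_C, rename_X]
    refine Finset.sum_congr rfl fun i _ => ?_
    rw [Finset.sum_comm]
    refine Finset.sum_congr rfl fun l _ => Finset.sum_congr rfl fun j _ => ?_
    have e1 : e (Sum.inl i) = Sum.inl i := rfl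
    have e2 : e (Sum.inr (Sum.inl j)) = Sum.inr (Sum.inr j) := rfl
    have e3 : e (Sum.inr (Sum.inr l)) = Sum.inr (Sum.inl l) := rfl
    rw [e1, e2, e3]
    ring
  refine ⟨Ideal.quotientEquivAlg _ _ (renameEquiv k e) ?_⟩
  rw [Ideal.map_span, Set.image_singleton]
  congr 2
  change _ = renameEquiv k e (tri T - 1)
  rw [map_sub, map_one, h1]

end Pool.Agent.U554.TD
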