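import Pool.Agent.U554.TD.Main
import Pool.Agent.U554.TW.Ab
import Pool.Agent.U483.GU.HDefs

/-!
# Classes in the objects of an abelian category, dimension by dimension
-/

set_option autoImplicit false

open CategoryTheory AlgebraicGeometry MvPolynomial Pool.Agent.Y116.UV
open Pool.Agent.U554.TU Pool.Agent.U554.TW Pool.Agent.U483.GU

namespace Pool.Agent.U554.TD

universe v u

section

variable {𝓜 : Type u} [Category.{v} 𝓜] [Abelian 𝓜] {k : Type} [Field k] {O : ℤ → ℤ → Sch k → 𝓜}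

/-- The groups of a point which are zero: `H_{m + 2 b}(pt)(-b) = 0` for `b ≤ 0`, `m ≤ 0`,
`(b, m) ≠ (0, 0)`, and for `b < 0`, `m = 1`. -/
def PointHom (O : ℤ → ℤ → Sch k → 𝓜) : Prop :=
  ∀ b m : ℤ, b ≤ 0 → ((m ≤ 0 ∧ (b ≠ 0 ∨ m ≠ 0)) ∨ (b < 0 ∧ m = 1)) → Limits.IsZero (O b m (aff k k))

/-- One of the three blocks of variables has at most `r` elements. -/
def OneBlock (r a₁ a₂ a₃ : ℕ) : Prop := a₁ ≤ r ∨ a₂ ≤ r ∨ a₃ ≤ r

/-- The affine space in the weight `N - j`. -/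
lemma space_zero_ab (hO : IsAbTheory O) (hp : PointHom O) (N j : ℕ) (hj : 1 ≤ j) {A : Type}
    [CommRing A] [Algebra k A] [Algebra.FiniteType k A] (e : MvPolynomial (Fin N) k ≃ₐ[k] A)
    (m : ℤ) (hm : m = 0 ∨ m = 1) : Limits.IsZero (O (N - j) m (aff k A)) := by
  have h1 := hO.space k N (-j) m
  rw [show (-(j : ℤ)) + (N : ℤ) = N - j from by ring] at h1
  refine (abRel 𝓜).iso_triv ((abRel 𝓜).iso_trans h1 (hO.isTheory.alg e _ m)) (hp _ _ (by omega) ?_)
  rcases hm with rfl | rfl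
  · exact Or.inl ⟨le_rfl, Or.inl (by omega)⟩
  · exact Or.inr ⟨by omega, rfl⟩

/-- The bilinear equations and the hypersurface have the same object. -/
lemma bil_iso_hyp (hO : IsAbTheory O) (hp : PointHom O) {a₁ a₂ a₃ : ℕ}
    (T : Fin a₁ → Fin a₂ → Fin a₃ → k) (j : ℕ) (hj : 1 ≤ j) :
    Nonempty (O (a₂ + a₃ - j) 0 (bilS T) ≅ O (a₁ + a₂ + a₃ - 1 - j) 1 (hypS T)) := by
  have hT := hO.isTheory
  let f : Fin a₁ → MvPolynomial (Fin a₂ ⊕ Fin a₃) k := fun i => bil (Fin a₂) (Fin a₃) (T i)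
  have h0 : ∀ m : ℤ, m = 0 ∨ m = 1 →
      Limits.IsZero (O (a₂ + a₃ - j) m (aff k (MvPolynomial (Fin a₂ ⊕ Fin a₃) k))) := by
    intro m hm
    have h1 := space_zero_ab hO hp (a₂ + a₃) j hj (renameEquiv k finSumFinEquiv.symm) m hm
    rwa [show (((a₂ + a₃ : ℕ) : ℤ) - j) = a₂ + a₃ - j from by push_cast; ring] at h1
  have h3 := hT.closed_jou f (a₂ + a₃ - j) 0 (h0 0 (Or.inl rfl))
    (by rw [zero_add]; exact h0 1 (Or.inr rfl))
  rw [show (a₂ + a₃ - j + a₁ - 1 : ℤ) = a₁ + a₂ + a₃ - 1 - j from by ring, zero_add] at h3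
  exact (abRel 𝓜).iso_trans h3
    ((abRel 𝓜).iso_symm (hT.alg (hypEquiv T) (a₁ + a₂ + a₃ - 1 - j) 1))

/-- The homology of the schemes is in the class `P` in all weights. -/
def AllP (P : 𝓜 → Prop) (O : ℤ → ℤ → Sch k → 𝓜) (X : Sch k) : Prop := ∀ b : ℤ, P (O b 0 X)

/-- What is needed for the property `P` of the objects `O b 0 X`. -/
structure IsSidedTheory (P : 𝓜 → Prop) (O : ℤ → ℤ → Sch k → 𝓜) : Prop extends IsAbTheory O where
  point : PointHom O
  extreme : ∀ (X : Sch k) (d : ℕ) (b : ℤ), FT True X → topologicalKrullDim X.left ≤ d →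
    (b ≤ 0 ∨ (d : ℤ) ≤ b) → P (O b 0 X)
  total : ∀ {Z X U : Sch k} (i : Z ⟶ X) (j : U ⟶ X), FT True X → IsTriple i j → ∀ b : ℤ,
    P (O b 0 Z) → P (O b 0 U) → P (O b 0 X)
  opened : ∀ {Z X U : Sch k} (i : Z ⟶ X) (j : U ⟶ X), FT True X → IsTriple i j → ∀ b : ℤ,
    P (O b 0 X) → P (O b 0 U)
  cover : ∀ X : Sch k, FT True X → ∃ V : Sch k, SmoothProjective V ∧
    topologicalKrullDim V.left ≤ topologicalKrullDim X.left ∧
    ∀ b : ℤ, P (O b 0 V) → P (O b 0 X)

variable {P : 𝓜 → Prop} (hP : Inherited (abRel 𝓜) P) (hO : IsSidedTheory P O)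

include hP hO

lemma sided_ab : IsSided (AllP P O) := by
  have hT := hO.toIsAbTheory.isTheory
  have hiso : ∀ {X Y : Sch k}, FT True X → Nonempty (X ≅ Y) → AllP P O X → AllP P O Y :=
    fun hX h hPX b => (hP.iff (hO.iso hX h b 0)).mp (hPX b)
  have htot : ∀ {Z X U : Sch k} (i : Z ⟶ X) (j : U ⟶ X), FT True X → IsTriple i j →
      AllP P O Z → AllP P O U → AllP P O X :=
    fun i j hX ht hZ hU b => hO.total i j hX ht b (hZ b) (hU b)
  have hopen : ∀ {Z X U : Sch k} (i : Z ⟶ X) (j : U ⟶ X), FT True X → IsTriple i j →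
      AllP P O Z → AllP P O X → AllP P O U :=
    fun i j hX ht _ h b => hO.opened i j hX ht b (h b)
  have hdim0 : ∀ X : Sch k, FT True X → topologicalKrullDim X.left ≤ (0 : ℕ) → AllP P O X := by
    intro X hX hd b
    exact hO.extreme X 0 b hX hd (by push_cast; omega)
  have hpt : AllP P O (aff k k) := by
    refine hdim0 _ (ft_aff True) ?_
    rw [Pool.Agent.Z125.UN.topDim_aff, ringKrullDim_eq_zero_of_field]
    exact le_of_eq (by push_cast; rfl)
  have hpoly : ∀ (A : Type) [CommRing A] [Algebra k A] [Algebra.FiniteType k A] (r : ℕ),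
      AllP P O (aff k A) → AllP P O (aff k (MvPolynomial (Fin r) A)) := by
    intro A _ _ _ r h b
    have h1 := hO.space A r (b - r) 0
    rw [sub_add_cancel] at h1
    exact (hP.iff h1).mp (h (b - r))
  exact
    { iso := hiso
      total := htot
      opened := hopen
      empty := by
        intro B _ _ hB
        have hft : Algebra.FiniteType k B := by
          have : Module.Finite k B := inferInstance
          infer_instance
        refine hdim0 _ (ft_aff True) ?_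
        rw [Pool.Agent.Z125.UN.topDim_aff, ringKrullDim_eq_bot_of_subsingleton]
        exact bot_le
      space := fun p => hpoly k p hpt
      poly := hpoly
      times := by
        intro A _ _ _ h
        refine Pool.Agent.U738.BN.times_of_line (sep := True) hiso hopen ?_ h
        intro b
        have h1 := hO.space A 1 (b - 1) 0
        rw [show b - 1 + ((1 : ℕ) : ℤ) = b from by push_cast; ring] at h1
        have e : MvPolynomial (Fin 1) A ≃ₐ[k] Polynomial A :=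
          (MvPolynomial.uniqueAlgEquiv A (Fin 1)).restrictScalars k
        exact (hP.iff ((abRel 𝓜).iso_trans h1 (hT.alg e b 0))).mp (h (b - 1)) }

lemma all_bil_ab {a₁ a₂ a₃ : ℕ} (T : Fin a₁ → Fin a₂ → Fin a₃ → k)
    (h : ∀ j : ℕ, 1 ≤ j → P (O (a₁ + a₂ + a₃ - 1 - j) 1 (hypS T))) : AllP P O (bilS T) := by
  intro b
  by_cases hb : b < a₂ + a₃
  · have h1 := (hP.iff (bil_iso_hyp hO.toIsAbTheory hO.point T ((a₂ + a₃ - b : ℤ)).toNat
      (by omega))).mpr (h _ (by omega))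
    rw [show (a₂ + a₃ - (((a₂ + a₃ - b : ℤ)).toNat : ℤ) : ℤ) = b from by omega] at h1
    exact h1
  · refine hO.extreme (bilS T) (a₂ + a₃) b (ft_aff True) ?_ (Or.inr (by push_cast; omega))
    refine (le_of_eq (Pool.Agent.Z125.UN.topDim_aff _)).trans ?_
    refine (ringKrullDim_le_of_surjective _ Ideal.Quotient.mk_surjective).trans ?_
    rw [MvPolynomial.ringKrullDim_of_isNoetherianRing, ringKrullDim_eq_zero_of_field, zero_add,
      Nat.card_sum, Nat.card_fin, Nat.card_fin]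

/-- From the schemes of dimension at most `d` to the cubics with a block of at most `d + 2` variables. -/
lemma hyp_of_dim_ab (d : ℕ) (h : ∀ X : Sch k, FT True X →
      topologicalKrullDim X.left ≤ d → AllP P O X) {a₁ a₂ a₃ : ℕ}
    (T : Fin a₁ → Fin a₂ → Fin a₃ → k) (ha : OneBlock (d + 2) a₁ a₂ a₃) (j : ℕ) (hj : 1 ≤ j) :
    P (O (a₁ + a₂ + a₃ - 1 - j) 1 (hypS T)) := by
  have hT := hO.toIsAbTheory.isTheory
  have key : ∀ (b₁ b₂ b₃ : ℕ) (S : Fin b₁ → Fin b₂ → Fin b₃ → k), b₂ ≤ d + 2 →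
      P (O (b₁ + b₂ + b₃ - 1 - j) 1 (hypS S)) := by
    intro b₁ b₂ b₃ S hb
    refine (hP.iff (bil_iso_hyp hO.toIsAbTheory hO.point S j hj)).mp
      (bil_of_dim (sided_ab hP hO) d (fun A _ _ _ hA => ?_) hb S _)
    refine h _ (ft_aff True) ?_
    rw [Pool.Agent.Z125.UN.topDim_aff]
    exact hA
  rcases ha with ha | ha | ha
  · obtain ⟨e⟩ := hyp_swap T
    have h1 := key a₂ a₁ a₃ (fun j i l => T i j l) ha
    rw [show (a₂ + a₁ + a₃ - 1 - j : ℤ) = a₁ + a₂ + a₃ - 1 - j from by ring] at h1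
    exact (hP.iff (hT.alg e _ 1)).mpr h1
  · exact key a₁ a₂ a₃ T ha
  · obtain ⟨e⟩ := hyp_swap' T
    have h1 := key a₁ a₃ a₂ (fun i l j => T i j l) ha
    rw [show (a₁ + a₃ + a₂ - 1 - j : ℤ) = a₁ + a₂ + a₃ - 1 - j from by ring] at h1
    exact (hP.iff (hT.alg e _ 1)).mpr h1

/-- **The property `P`, dimension by dimension.** -/
theorem mot_tfae [PerfectField k] (e : ℕ)
    (known : ∀ V : Sch k, SmoothProjective V → topologicalKrullDim V.left ≤ e → AllP P O V)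
    (d : ℕ) (hd : 1 ≤ d) (s : ℕ) :
    List.TFAE [
      d ≤ e ∨ ∀ V : Sch k, SmoothProjective V → topologicalKrullDim V.left ≤ d → AllP P O V,
      ∀ X : Sch k, FT True X → topologicalKrullDim X.left ≤ d → AllP P O X,
      ∀ (a₁ a₂ a₃ : ℕ) (T : Fin a₁ → Fin a₂ → Fin a₃ → k), OneBlock (d + 2) a₁ a₂ a₃ →
        AllP P O (bilS T),
      ∀ (a₁ a₂ a₃ : ℕ) (T : Fin a₁ → Fin a₂ → Fin a₃ → k), OneBlock (d + 2) a₁ a₂ a₃ →
        ∀ j : ℕ, 1 ≤ j → P (O (a₁ + a₂ + a₃ - 1 - j) 1 (hypS T)),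
      ∀ (a₁ a₃ : ℕ) (T : Fin a₁ → Fin (d + 2) → Fin a₃ → k), ∀ j : ℕ, s ≤ j → 1 ≤ j →
        P (O (a₁ + (d + 2) + a₃ - 1 - j) 1 (hypS T))] := by
  tfae_have 1 → 2 := by
    intro h X hX hdim b
    obtain ⟨V, h1, h2, h3⟩ := hO.cover X hX
    refine h3 b ?_
    rcases h with h | h
    · exact known V h1 ((h2.trans hdim).trans (by exact_mod_cast h)) b
    · exact h V h1 (h2.trans hdim) b
  tfae_have 2 → 3 := fun h a₁ a₂ a₃ T ha =>
    all_bil_ab hP hO T fun j hj => hyp_of_dim_ab hP hO d h T ha j hj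
  tfae_have 3 → 4 := fun h a₁ a₂ a₃ T ha j hj =>
    (hP.iff (bil_iso_hyp hO.toIsAbTheory hO.point T j hj)).mp (h a₁ a₂ a₃ T ha _)
  tfae_have 4 → 5 := by
    intro h a₁ a₃ T j _ hj
    have h1 := h a₁ (d + 2) a₃ T (Or.inr (Or.inl le_rfl)) j hj
    push_cast at h1
    exact h1
  tfae_have 5 → 1 := by
    intro h
    refine Or.inr fun V hV hdim => ?_
    refine dim_of_hyp hO.toIsAbTheory.isTheory (fun c μ h1 h2 h3 => hO.point c μ h1 (Or.inl ⟨h2, h3⟩))
      hP (sided_ab hP hO) d hd ?_ s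
      (fun a₁ a₃ T j hj => h a₁ a₃ T j (by omega) (by omega)) V hV.ft hdim
    intro A _ _ _ hA b hb
    refine hO.extreme _ d b (ft_aff True) ?_ (Or.inr hb)
    rw [Pool.Agent.Z125.UN.topDim_aff]
    exact hA
  tfae_finish

end

end Pool.Agent.U554.TD
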