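import Pool.Agent.U554.TD.Add

/-!
# Ordinary reduction of pure motives
-/

set_option autoImplicit false

open CategoryTheory AlgebraicGeometry MvPolynomial Pool.Agent.Y116.UV
open Pool.Agent.U554.TU Pool.Agent.U554.TW Pool.Agent.U483.GU

namespace Pool.Agent.U554.TD

universe v u w

/-- The convex polygon with the slopes `N` lies on or above the one with the slopes `H`: the polygons have the same
length, and for each part `t` of `N` there is a part of `H` with the same number of slopes and at most the same
sum (so the sum of the `i` smallest slopes of `H` is at most that of `N`, for all `i`). -/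
def Above (N H : Multiset ℚ) : Prop :=
  N.card = H.card ∧ ∀ t ≤ N, ∃ u ≤ H, u.card = t.card ∧ u.sum ≤ t.sum

/-- The Legendre transform of the polygon. -/
def leg (s : Multiset ℚ) (t : ℚ) : ℚ := (s.map fun x => max (t - x) 0).sum

lemma leg_add (s r : Multiset ℚ) (t : ℚ) : leg (s + r) t = leg s t + leg r t := by
  simp [leg]

lemma leg_ge (s u : Multiset ℚ) (h : u ≤ s) (t : ℚ) : u.card * t - u.sum ≤ leg s t := by
  obtain ⟨v, rfl⟩ := Multiset.le_iff_exists_add.mp h
  rw [leg_add]
  have h1 : (u.card : ℚ) * t - u.sum ≤ leg u t := by
    clear h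
    induction u using Multiset.induction_on with
    | empty => simp [leg]
    | cons a u ih =>
      have h2 : leg (a ::ₘ u) t = max (t - a) 0 + leg u t := by simp [leg]
      rw [h2, Multiset.card_cons, Multiset.sum_cons]
      push_cast
      have h3 := le_max_left (t - a) 0
      linarith
  have h2 : 0 ≤ leg v t := by
    refine Multiset.sum_nonneg fun x hx => ?_
    obtain ⟨y, -, rfl⟩ := Multiset.mem_map.mp hx
    exact le_max_right _ _
  linarith

lemma leg_eq (s : Multiset ℚ) (t : ℚ) : leg s t = (s.filter (· ≤ t)).card * t - (s.filter (· ≤ t)).sum := by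
  induction s using Multiset.induction_on with
  | empty => simp [leg]
  | cons a u ih =>
    have h2 : leg (a ::ₘ u) t = max (t - a) 0 + leg u t := by simp [leg]
    rw [h2, ih]
    by_cases h : a ≤ t
    · rw [Multiset.filter_cons_of_pos (p := fun x => x ≤ t) _ h, Multiset.card_cons, Multiset.sum_cons, max_eq_left (by linarith)]
      push_cast
      ring
    · rw [Multiset.filter_cons_of_neg (p := fun x => x ≤ t) _ h, max_eq_right (by linarith)]
      ring

lemma Above.leg_le {N H : Multiset ℚ} (h : Above N H) (t : ℚ) : leg N t ≤ leg H t := by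
  obtain ⟨u, hu, h1, h2⟩ := h.2 (N.filter (· ≤ t)) (Multiset.filter_le _ _)
  have h3 := leg_ge H u hu t
  rw [leg_eq N t, ← h1]
  linarith

/-- The Legendre transform determines the slopes. -/
lemma leg_inj {s r : Multiset ℚ} (h : ∀ t, leg s t = leg r t) : s = r := by
  classical
  ext a
  -- a small step
  obtain ⟨ε, hε, hs⟩ : ∃ ε : ℚ, 0 < ε ∧ ∀ x ∈ s + r, x ≠ a → ε ≤ |x - a| := by
    generalize s + r = m
    induction m using Multiset.induction_on with
    | empty => exact ⟨1, one_pos, by simp⟩
    | cons b m ih =>
      obtain ⟨ε, hε, h1⟩ := ih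
      by_cases hb : b = a
      · refine ⟨ε, hε, fun x hx hne => ?_⟩
        rcases Multiset.mem_cons.mp hx with h2 | h2
        · exact absurd (h2.trans hb) hne
        · exact h1 x h2 hne
      · refine ⟨min ε |b - a|, lt_min hε (abs_pos.mpr (sub_ne_zero.mpr hb)), fun x hx hne => ?_⟩
        rcases Multiset.mem_cons.mp hx with h2 | h2
        · rw [h2]
          exact min_le_right _ _
        · exact (min_le_left _ _).trans (h1 x h2 hne)
  have key : ∀ m : Multiset ℚ, (∀ x ∈ m, x ≠ a → ε ≤ |x - a|) →
      leg m (a + ε) - 2 * leg m a + leg m (a - ε) = m.count a * ε := by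
    intro m
    induction m using Multiset.induction_on with
    | empty => intro _; simp [leg]
    | cons b m ih =>
      intro hm
      have h1 := ih fun x hx => hm x (Multiset.mem_cons_of_mem hx)
      have h2 : ∀ t, leg (b ::ₘ m) t = max (t - b) 0 + leg m t := fun t => by simp [leg]
      rw [h2, h2, h2]
      by_cases hb : b = a
      · subst hb
        rw [Multiset.count_cons_self]
        push_cast
        rw [max_eq_left (by linarith), max_eq_left (by linarith), max_eq_right (by linarith)]
        linarith
      · rw [Multiset.count_cons_of_ne (Ne.symm hb)]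
        have h3 := hm b (Multiset.mem_cons_self _ _) hb
        rcases le_abs.mp h3 with h4 | h4
        · rw [max_eq_right (by linarith), max_eq_right (by linarith), max_eq_right (by linarith)]
          linarith
        · rw [max_eq_left (by linarith), max_eq_left (by linarith), max_eq_left (by linarith)]
          linarith
  have h1 := key s fun x hx => hs x (Multiset.mem_add.mpr (Or.inl hx))
  have h2 := key r fun x hx => hs x (Multiset.mem_add.mpr (Or.inr hx))
  rw [h, h, h, h2] at h1
  have h3 := mul_right_cancel₀ hε.ne' h1
  exact_mod_cast h3.symm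

/-- If two polygons lie above two others and the sums are equal, then both are equal. -/
lemma Above.eq_of_add {N H N' H' : Multiset ℚ} (h : Above N H) (h' : Above N' H') (e : N + N' = H + H') :
    N = H ∧ N' = H' := by
  have h1 : ∀ t, leg N t + leg N' t = leg H t + leg H' t := fun t => by rw [← leg_add, ← leg_add, e]
  exact ⟨leg_inj fun t => by have := h1 t; have := h.leg_le t; have := h'.leg_le t; linarith,
    leg_inj fun t => by have := h1 t; have := h.leg_le t; have := h'.leg_le t; linarith⟩

/-- The slopes of the reductions of motives over a number field `k`.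

* `Ext`: the finite extensions `L` of `k` in an algebraic closure, `Place L`: the finite places, `below`: the place
  of `L` below a place of `L'`;
* `big L`: a filter, the sets of places of `L` which are considered as large (for example the sets of
  density one, or, if only `L = k` is used, the sets which contain almost all elements of a given infinite
  set of places);
* `hodge M`: the slopes of the Hodge polygon, `newton L v M`: the slopes of the Newton polygon of the
  Frobenius of the place `v` (normalised by the norm of `v`) on the crystalline realization, for the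
  places of good reduction.

The last three fields hold for almost all places: `newton_below` (finite extensions), `newton_sum` (direct sums) and
`mazur` (the Newton polygon lies above the Hodge polygon). -/
structure Reductions (𝓢 : Type u) [Category.{v} 𝓢] [Abelian 𝓢] where
  /-- the finite extensions -/
  Ext : Type
  [preorder : Preorder Ext]
  directed : ∀ L L' : Ext, ∃ L'' : Ext, L ≤ L'' ∧ L' ≤ L''
  /-- the finite places -/
  Place : Ext → Type
  /-- the place below -/
  below : ∀ {L L' : Ext}, L ≤ L' → Place L' → Place L
  /-- the large sets of places -/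
  big : ∀ L : Ext, Filter (Place L)
  big_below : ∀ {L L' : Ext} (h : L ≤ L'), Filter.Tendsto (below h) (big L') (big L)
  /-- the Hodge slopes -/
  hodge : 𝓢 → Multiset ℚ
  /-- the Newton slopes -/
  newton : ∀ L : Ext, Place L → 𝓢 → Multiset ℚ
  hodge_sum : ∀ {A B C : 𝓢}, Nonempty (B ≅ A ⊞ C) → hodge B = hodge A + hodge C
  newton_below : ∀ {L L' : Ext} (h : L ≤ L') (M : 𝓢), ∀ᶠ w in big L', newton L' w M = newton L (below h w) M
  newton_sum : ∀ (L : Ext) {A B C : 𝓢}, Nonempty (B ≅ A ⊞ C) →
    ∀ᶠ v in big L, newton L v B = newton L v A + newton L v C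
  mazur : ∀ (L : Ext) (M : 𝓢), ∀ᶠ v in big L, Above (newton L v M) (hodge M)

attribute [instance] Reductions.preorder

variable {𝓢 : Type u} [Category.{v} 𝓢] [Abelian 𝓢]

/-- After a finite extension, `M` has ordinary reduction at a large set of places: the two polygons are equal. -/
def Reductions.Ordinary (R : Reductions 𝓢) (M : 𝓢) : Prop :=
  ∃ L : R.Ext, ∀ᶠ v in R.big L, R.newton L v M = R.hodge M

lemma Reductions.isAdditive (R : Reductions 𝓢) : IsAdditive R.Ordinary where
  factor := by
    rintro A B h ⟨L, hL⟩
    obtain ⟨C, hC⟩ := exists_complement h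
    refine ⟨L, ?_⟩
    filter_upwards [hL, R.newton_sum L hC, R.mazur L A, R.mazur L C] with v h1 h2 h3 h4
    exact (h3.eq_of_add h4 (by rw [← h2, h1, R.hodge_sum hC])).1
  sum := by
    rintro A B ⟨L, hL⟩ ⟨L', hL'⟩
    obtain ⟨K, h1, h2⟩ := R.directed L L'
    refine ⟨K, ?_⟩
    filter_upwards [(R.big_below h1).eventually hL, (R.big_below h2).eventually hL', R.newton_below h1 A,
      R.newton_below h2 B, R.newton_sum K (A := A) (B := A ⊞ B) (C := B) ⟨Iso.refl _⟩] with v e1 e2 e3 e4 e5
    rw [e5, e3, e4, e1, e2, R.hodge_sum (A := A) (B := A ⊞ B) (C := B) ⟨Iso.refl _⟩]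

variable {k : Type} [Field k]

/-- `X` is a projective scheme over `k`. -/
structure IsProjScheme (X : Sch k) : Prop where
  ft : FT True X
  proj : ∃ (n : ℕ) (i : X ⟶ projSpace k n), IsClosedImmersion i.left

/-- Known properties of the motives `I b X` of the intersection homology `IH_{2 b}(X)(-b)` of the projective schemes
`X` (sums over the irreducible components; for `X` of pure dimension `n` this is `IH^{2 n - 2 b}(X)(n - b)`):

* `factor`: it is a direct factor of the homology of a resolution of singularities (decomposition theorem);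
* `smooth`: it is the homology if `X` is smooth. -/
structure IsIntersection (O : ℤ → ℤ → Sch k → 𝓢) (I : ℤ → Sch k → 𝓢) : Prop where
  factor : ∀ X : Sch k, IsProjScheme X → ∃ V : Sch k, SmoothProjective V ∧
    topologicalKrullDim V.left ≤ topologicalKrullDim X.left ∧ ∀ b : ℤ, Nonempty (Retract (I b X) (O b 0 V))
  smooth : ∀ V : Sch k, SmoothProjective V → ∀ b : ℤ, Nonempty (O b 0 V ≅ I b V)

variable {O : ℤ → ℤ → Sch k → 𝓢} {I : ℤ → Sch k → 𝓢} {P : 𝓢 → Prop}

lemma intersection_iff (hI : IsIntersection O I) (hP : IsAdditive P) (d : ℕ) :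
    (∀ X : Sch k, IsProjScheme X → topologicalKrullDim X.left ≤ d → ∀ b : ℤ, P (I b X)) ↔
      ∀ V : Sch k, SmoothProjective V → topologicalKrullDim V.left ≤ d → AllWeights P O V := by
  constructor
  · intro h V hV hd b
    obtain ⟨e⟩ := hI.smooth V hV b
    exact hP.factor ⟨⟨e.hom, e.inv, e.hom_inv_id⟩⟩ (h V ⟨hV.ft, hV.proj⟩ hd b)
  · intro h X hX hd b
    obtain ⟨V, hV, hdim, hr⟩ := hI.factor X hX
    exact hP.factor (hr b) (h V hV (hdim.trans hd) b)

end Pool.Agent.U554.TD
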