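import Pool.Agent.U554.TD.Ord

/-!
# Ordinary reduction of all direct factors of pure motives
-/

set_option autoImplicit false

open CategoryTheory AlgebraicGeometry MvPolynomial Pool.Agent.Y116.UV
open Pool.Agent.U554.TU Pool.Agent.U554.TW Pool.Agent.U483.GU

namespace Pool.Agent.U554.TD

universe v u w

variable {𝓢 : Type u} [Category.{v} 𝓢] [Abelian 𝓢]

/-- All direct factors of `M` have the property `Q`. -/
def AllFactors (Q : 𝓢 → Prop) (M : 𝓢) : Prop := ∀ R : 𝓢, Nonempty (Retract R M) → Q R

/-- In a semisimple category: if a property passes to direct sums, the objects all of whose direct factors have it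
form an additive class. -/
lemma isAdditive_allFactors (hs : ∀ {A B : 𝓢} (f : A ⟶ B) [Mono f], ∃ r : B ⟶ A, f ≫ r = 𝟙 A)
    {Q : 𝓢 → Prop} (hQ : ∀ A B C : 𝓢, Nonempty (C ≅ A ⊞ B) → Q A → Q B → Q C) :
    IsAdditive (AllFactors Q) where
  factor := by
    rintro A B ⟨r⟩ hB R ⟨t⟩
    exact hB R ⟨t.trans r⟩
  sum := by
    rintro A B hA hB R ⟨t⟩
    let g : R ⟶ B := t.i ≫ Limits.biprod.snd
    have h1 : Limits.kernel.ι g ≫ g = 0 := Limits.kernel.condition g
    have hm : Mono (Limits.kernel.ι g ≫ t.i ≫ (Limits.biprod.fst : A ⊞ B ⟶ A)) := by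
      rw [Preadditive.mono_iff_cancel_zero]
      intro Z x hx
      have h2 : (x ≫ Limits.kernel.ι g) ≫ t.i = 0 := by
        apply Limits.biprod.hom_ext
        · rw [Limits.zero_comp, Category.assoc, Category.assoc]
          exact hx
        · rw [Limits.zero_comp, Category.assoc, Category.assoc]
          show x ≫ Limits.kernel.ι g ≫ g = 0
          rw [h1, Limits.comp_zero]
      have h3 : x ≫ Limits.kernel.ι g = 0 := by
        have h4 := congrArg (fun u => u ≫ t.r) h2
        simpa using h4
      exact (cancel_mono (Limits.kernel.ι g)).mp (by rw [h3, Limits.zero_comp])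
    obtain ⟨p, hp⟩ := hs (Limits.kernel.ι g ≫ t.i ≫ (Limits.biprod.fst : A ⊞ B ⟶ A))
    obtain ⟨q, hq⟩ := hs (Abelian.factorThruCoimage g)
    obtain ⟨r, hr⟩ := hs (Limits.kernel.ι g)
    have : IsSplitMono (Limits.kernel.ι g) := IsSplitMono.mk' ⟨r, hr⟩
    refine hQ _ _ _ ⟨Limits.biprod.uniqueUpToIso _ _
      (Limits.isBilimitBinaryBiconeOfIsSplitMonoOfCokernel (Limits.cokernelIsCokernel (Limits.kernel.ι g)))⟩
      (hA _ ⟨⟨_, p, hp⟩⟩) (hB _ ⟨⟨Abelian.factorThruCoimage g, q, hq⟩⟩)

/-- The slopes of the reductions of motives over a number field `k`.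

* `Ext`: the finite extensions `L` of `k` in an algebraic closure, `Place L`: the finite places, `below`: the place
  of `L` below a place of `L'`;
* `big L`: a filter, the sets of places of `L` which are considered as large (for example the sets of
  density one, or, if only `L = k` is used, the sets which contain almost all elements of a given infinite
  set of places);
* `hodge M`: the slopes of the Hodge-Tate polygon;
* `newton i L v M`, for `i = (ℓ, τ)`, `v` prime to `ℓ`: the slopes `v(τ(α))` of the eigenvalues `α` of the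
  Frobenius of the place `v` on the `ℓ`-adic realization, for the places of good reduction (for the places `v`
  above `ℓ` put `newton i L v M = hodge M`).

`newton_below` (finite extensions) and `newton_sum` (direct sums) hold for almost all places. -/
structure Slopes (ι : Type) (𝓢 : Type u) [Category.{v} 𝓢] [Abelian 𝓢] where
  /-- the finite extensions -/
  Ext : Type
  [preorder : Preorder Ext]
  directed : ∀ L L' : Ext, ∃ L'' : Ext, L ≤ L'' ∧ L' ≤ L''
  /-- the finite places -/
  Place : Ext → Type
  /-- the place below -/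
  below : ∀ {L L' : Ext}, L ≤ L' → Place L' → Place L
  /-- the large sets of places -/
  big : ∀ L : Ext, Filter (Place L)
  big_below : ∀ {L L' : Ext} (h : L ≤ L'), Filter.Tendsto (below h) (big L') (big L)
  /-- the Hodge-Tate slopes -/
  hodge : 𝓢 → Multiset ℚ
  /-- the Newton slopes -/
  newton : ι → ∀ L : Ext, Place L → 𝓢 → Multiset ℚ
  hodge_sum : ∀ {A B C : 𝓢}, Nonempty (C ≅ A ⊞ B) → hodge C = hodge A + hodge B
  newton_below : ∀ {L L' : Ext} (h : L ≤ L') (M : 𝓢),
    ∀ᶠ w in big L', ∀ i : ι, newton i L' w M = newton i L (below h w) M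
  newton_sum : ∀ (L : Ext) {A B C : 𝓢}, Nonempty (C ≅ A ⊞ B) →
    ∀ᶠ v in big L, ∀ i : ι, newton i L v C = newton i L v A + newton i L v B

attribute [instance] Slopes.preorder

/-- After a finite extension, `M` has ordinary reduction at a large set of places: the two polygons are equal,
for all `i = (ℓ, τ)`. -/
def Slopes.Ordinary {ι : Type} (R : Slopes ι 𝓢) (M : 𝓢) : Prop :=
  ∃ L : R.Ext, ∀ᶠ v in R.big L, ∀ i : ι, R.newton i L v M = R.hodge M

lemma Slopes.sum {ι : Type} (R : Slopes ι 𝓢) (A B C : 𝓢) (e : Nonempty (C ≅ A ⊞ B)) (hA : R.Ordinary A)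
    (hB : R.Ordinary B) : R.Ordinary C := by
  obtain ⟨L, hL⟩ := hA
  obtain ⟨L', hL'⟩ := hB
  obtain ⟨K, h1, h2⟩ := R.directed L L'
  refine ⟨K, ?_⟩
  filter_upwards [(R.big_below h1).eventually hL, (R.big_below h2).eventually hL', R.newton_below h1 A,
    R.newton_below h2 B, R.newton_sum K e] with v e1 e2 e3 e4 e5 i
  rw [e5 i, e3 i, e4 i, e1 i, e2 i, R.hodge_sum e]

end Pool.Agent.U554.TD
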