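import Pool.Agent.U554.TD.OrdTwo

/-!
# Periods of the rank one pieces of pure Hodge-de Rham structures
-/

set_option autoImplicit false

open CategoryTheory

namespace Pool.Agent.U554.TD.Per

universe v u

/-- `x` and `y` are not zero and `x / y` is an algebraic number. -/
def Sim (x y : ℂ) : Prop := x ≠ 0 ∧ y ≠ 0 ∧ IsAlgebraic ℚ (x / y)

/-- An abelian number field `F` of conductor `d`: the subfield of `ℚ(μ_d)` fixed by the subgroup `U` of `(ℤ/d)ˣ`,
which is not contained in `ℚ(μ_e)` for a proper divisor `e` of `d`. The embeddings of `F` are the classes of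
`(ℤ/d)ˣ` modulo `U`. (`F = ℚ` if and only if `d = 1`.) -/
structure AbField where
  d : ℕ
  pos : 0 < d
  U : Subgroup (ZMod d)ˣ
  conductor : ∀ (e : ℕ) (h : e ∣ d), e ≠ d → ∃ x : (ZMod d)ˣ, ZMod.unitsMap h x = 1 ∧ x ∉ U

instance (F : AbField) : NeZero F.d := ⟨F.pos.ne'⟩

/-- The product of the `Γ(1 - a/d) ^ ε(a λ⁻¹)` over all `0 < a < d`. -/
noncomputable def gammaProd (d : ℕ) [NeZero d] (ε : ZMod d → ℚ) (l : (ZMod d)ˣ) : ℝ :=
  ∏ a ∈ Finset.univ.filter (fun a : ZMod d => a ≠ 0),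
    Real.Gamma (1 - (a.val : ℝ) / d) ^ ((ε (a * ((l⁻¹ : (ZMod d)ˣ) : ZMod d)) : ℚ) : ℝ)

/-- `ε` is one of the functions `ℤ/d → ℚ` which belong to the Hodge function `p`:
`d p(λ) = ∑_{0 < a < d} ε(a) ⟨λ a⟩` for all `λ`. -/
def IsEps (d : ℕ) [NeZero d] (p : (ZMod d)ˣ → ℤ) (ε : ZMod d → ℚ) : Prop :=
  ∀ l : (ZMod d)ˣ, (d : ℚ) * (p l : ℚ) =
    ∑ a ∈ Finset.univ.filter (fun a : ZMod d => a ≠ 0), ε a * ((((l : ZMod d) * a).val : ℕ) : ℚ)

/-- The data: for the objects `M` of the category and the abelian number fields `F` the set `Tri F M` of the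
embeddings of `F` into the endomorphisms of `M`, if `[F : ℚ] = dim M` (the admissible triples), the Hodge
functions `p(λ)` and (representatives of) the periods `P_λ`. -/
structure Periods (𝓢 : Type u) where
  Tri : AbField → 𝓢 → Type
  p : ∀ {F : AbField} {M : 𝓢}, Tri F M → (ZMod F.d)ˣ → ℤ
  P : ∀ {F : AbField} {M : 𝓢}, Tri F M → (ZMod F.d)ˣ → ℂ

variable {𝓢 : Type u}

/-- The relation of Gross and Deligne for an admissible triple: `P_λ ~ ∏ Γ(1 - a/d) ^ ε(a λ⁻¹)`. -/
def Periods.Relation (T : Periods 𝓢) {F : AbField} {M : 𝓢} (t : T.Tri F M) : Prop :=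
  ∀ ε : ZMod F.d → ℚ, IsEps F.d (T.p t) ε → ∀ l, Sim (T.P t l) (gammaProd F.d ε l : ℝ)

variable [Category.{v} 𝓢] [Abelian 𝓢]

/-- The conjecture of Gross and Deligne for all admissible triples in `M`. -/
def Periods.Holds (T : Periods 𝓢) : 𝓢 → Prop :=
  AllFactors fun R => ∀ (F : AbField) (t : T.Tri F R), T.Relation t

/-- Known: if `R` is a direct factor of `A ⊞ B` and has an embedding of a field `F` of degree `dim R`, then
`R = S^k` for a simple direct factor `S` of `A` or of `B`, the field `E = End(S)` has the degree `dim S` and is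
contained in `F`, the periods of `R` are those of `S`, and the gamma products are the same up to algebraic
factors (theorem of Koblitz and Ogus). -/
def Periods.Isotypic (T : Periods 𝓢) : Prop :=
  ∀ (A B R : 𝓢), Nonempty (Retract R (A ⊞ B)) → ∀ (F : AbField) (t : T.Tri F R),
    ∃ S : 𝓢, (Nonempty (Retract S A) ∨ Nonempty (Retract S B)) ∧ ∃ (E : AbField) (s : T.Tri E S),
      T.Relation s → T.Relation t

lemma Periods.isAdditive (T : Periods 𝓢) (h : T.Isotypic) : IsAdditive T.Holds where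
  factor := by
    rintro A B ⟨r⟩ hB R ⟨t⟩
    exact hB R ⟨t.trans r⟩
  sum := by
    intro A B hA hB R hR F t
    obtain ⟨S, hS, E, s, hs⟩ := h A B R hR F t
    rcases hS with h1 | h1
    · exact hs (hA S h1 E s)
    · exact hs (hB S h1 E s)

end Pool.Agent.U554.TD.Per
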