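import Pool.Agent.U554.TD.TwoM

/-!
# Pure motives, dimension by dimension
-/

set_option autoImplicit false

open CategoryTheory AlgebraicGeometry MvPolynomial Pool.Agent.Y116.UV
open Pool.Agent.U554.TU Pool.Agent.U554.TW Pool.Agent.U483.GU

namespace Pool.Agent.U554.TD

universe v u

variable {𝓢 : Type u} [Category.{v} 𝓢] [Abelian 𝓢] {k : Type} [Field k]

/-- Known properties of the pure parts `O b m X = gr^W_0 H_{m + 2 b}(X)(-b)` of the Borel-Moore homology of
the separated schemes `X` of finite type over `k`, with values in a semisimple abelian category of pure motives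
of weight `0`: the properties `IsAbTheory` (long exact sequences, homotopy invariance, ...; the functor
`gr^W_0` is exact) and

* `split`: every monomorphism splits;
* `weights`: `O b m X = 0` for `m < 0` (the weights of `H_{m + 2 b}(X)(-b)` are at least `-m`);
* `point`: `H_{m + 2 b}(pt) = 0` for `m + 2 b ≠ 0`, in some of these cases;
* `cover`: for each `X` there is a smooth projective `V`, `dim V ≤ dim X`, and epimorphisms
  `H_{2 b}(V)(-b) → O b 0 X` (resolution of singularities). -/
structure IsPureTheory (O : ℤ → ℤ → Sch k → 𝓢) : Prop extends IsAbTheory O where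
  split : ∀ {A B : 𝓢} (f : A ⟶ B) [Mono f], ∃ r : B ⟶ A, f ≫ r = 𝟙 A
  weights : ∀ (b m : ℤ) (X : Sch k), FT True X → m < 0 → Limits.IsZero (O b m X)
  point : PointHom O
  cover : ∀ X : Sch k, FT True X → ∃ V : Sch k, SmoothProjective V ∧
    topologicalKrullDim V.left ≤ topologicalKrullDim X.left ∧
    ∀ b : ℤ, ∃ u : O b 0 V ⟶ O b 0 X, Epi u

/-- A property of the objects which passes to direct factors and to direct sums. -/
structure IsAdditive (P : 𝓢 → Prop) : Prop where
  factor : ∀ {A B : 𝓢}, Nonempty (Retract A B) → P B → P A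
  sum : ∀ A B : 𝓢, P A → P B → P (A ⊞ B)

variable {O : ℤ → ℤ → Sch k → 𝓢} {P : 𝓢 → Prop}

lemma ft_closed {Z X U : Sch k} (i : Z ⟶ X) (j : U ⟶ X) (hX : FT True X) (ht : IsTriple i j) :
    FT True Z := by
  have h1 := ht.closed
  have h2 := hX.locallyOfFiniteType
  have h3 := hX.quasiCompact
  have h4 := hX.separated trivial
  have e : Z.hom = i.left ≫ X.hom := (Over.w i).symm
  refine ⟨?_, ?_, fun _ => ?_⟩
  · rw [e]; infer_instance
  · rw [e]; infer_instance
  · rw [e]; infer_instance

lemma retract_of_epi (hs : ∀ {A B : 𝓢} (f : A ⟶ B) [Mono f], ∃ r : B ⟶ A, f ≫ r = 𝟙 A)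
    {A B : 𝓢} (g : A ⟶ B) [Epi g] : Nonempty (Retract B A) := by
  obtain ⟨r, hr⟩ := hs (Limits.kernel.ι g)
  have h1 : Limits.kernel.ι g ≫ (𝟙 A - r ≫ Limits.kernel.ι g) = 0 := by
    rw [Preadditive.comp_sub, ← Category.assoc, hr, Category.id_comp, Category.comp_id, sub_self]
  -- `g` is the cokernel of its kernel
  let hc := Abelian.epiIsCokernelOfKernel (Limits.KernelFork.ofι (Limits.kernel.ι g)
    (Limits.kernel.condition g)) (Limits.kernelIsKernel g)
  let s : B ⟶ A := hc.desc (Limits.CokernelCofork.ofπ (𝟙 A - r ≫ Limits.kernel.ι g) h1)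
  have hs1 : g ≫ s = 𝟙 A - r ≫ Limits.kernel.ι g :=
    hc.fac (Limits.CokernelCofork.ofπ (𝟙 A - r ≫ Limits.kernel.ι g) h1)
      Limits.WalkingParallelPair.one
  refine ⟨⟨s, g, ?_⟩⟩
  rw [← cancel_epi g, ← Category.assoc, hs1, Preadditive.sub_comp, Category.assoc,
    Limits.kernel.condition, Limits.comp_zero, sub_zero, Category.id_comp, Category.comp_id]

/-- The middle of an exact sequence `A → B → C` in a semisimple category is a direct factor of `A ⊞ C`. -/
lemma retract_mid (hs : ∀ {A B : 𝓢} (f : A ⟶ B) [Mono f], ∃ r : B ⟶ A, f ≫ r = 𝟙 A)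
    {A B C : 𝓢} (f : A ⟶ B) (g : B ⟶ C) (h : ExactAt f g) (hP : IsAdditive P) (hA : P A)
    (hC : P C) : P B := by
  obtain ⟨w, hex⟩ := h
  -- the kernel of `g` is a direct factor of `A`
  have hK : P (Limits.kernel g) := by
    have : Epi (Limits.kernel.lift g f w) := hex.epi_kernelLift
    exact hP.factor (retract_of_epi hs (Limits.kernel.lift g f w)) hA
  -- the image of `g` is a direct factor of `C`
  have hI : P (Abelian.image g) := by
    obtain ⟨r, hr⟩ := hs (Abelian.image.ι g)
    exact hP.factor ⟨⟨Abelian.image.ι g, r, hr⟩⟩ hC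
  -- `B` is a direct factor of the sum
  obtain ⟨r, hr⟩ := hs (Limits.kernel.ι g)
  refine hP.factor ?_ (hP.sum _ _ hK hI)
  obtain ⟨⟨s, p, hsp⟩⟩ := retract_of_epi hs (Abelian.factorThruImage g)
  have h2 : (Abelian.factorThruImage g) ≫ Abelian.image.ι g = g := Abelian.image.fac g
  -- the map `B → K ⊞ I` is a monomorphism
  have hm : Mono (Limits.biprod.lift r (Abelian.factorThruImage g)) := by
    rw [Preadditive.mono_iff_cancel_zero]
    intro Z t ht
    have h3 : t ≫ r = 0 := by
      have h4 := congrArg (fun u => u ≫ Limits.biprod.fst) ht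
      simpa using h4
    have h5 : t ≫ Abelian.factorThruImage g = 0 := by
      have h4 := congrArg (fun u => u ≫ Limits.biprod.snd) ht
      simpa using h4
    have h6 : t ≫ g = 0 := by rw [← h2, ← Category.assoc, h5, Limits.zero_comp]
    have h7 : t = Limits.kernel.lift g t h6 ≫ Limits.kernel.ι g :=
      (Limits.kernel.lift_ι g t h6).symm
    have h8 : Limits.kernel.lift g t h6 = 0 := by
      rw [h7, Category.assoc, hr, Category.comp_id] at h3
      exact h3
    rw [h7, h8, Limits.zero_comp]
  obtain ⟨q, hq⟩ := hs (Limits.biprod.lift r (Abelian.factorThruImage g))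
  exact ⟨⟨_, q, hq⟩⟩

lemma IsAdditive.inherited (hP : IsAdditive P) : Inherited (abRel 𝓢) P :=
  fun _ _ h h' => hP.factor h h'

/-- A pure theory has the properties `IsSidedTheory` for each additive property. -/
lemma pure_sided (hP : IsAdditive P) (hO : IsPureTheory O)
    (hext : ∀ (X : Sch k) (d : ℕ) (b : ℤ), FT True X → topologicalKrullDim X.left ≤ d →
      (b ≤ 0 ∨ (d : ℤ) ≤ b) → P (O b 0 X)) : IsSidedTheory P O where
  toIsAbTheory := hO.toIsAbTheory
  point := hO.point
  extreme := hext
  total := by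
    intro Z X U i j hX ht b hZ hU
    obtain ⟨α, β, δ, h1, h2, h3⟩ := hO.les i j hX ht b
    exact retract_mid hO.split (α 0) (β 0) (h1 0) hP hZ hU
  opened := by
    intro Z X U i j hX ht b hX'
    obtain ⟨α, β, δ, h1, h2, h3⟩ := hO.les i j hX ht b
    have hZ : FT True Z := ft_closed i j hX ht
    have hz := hO.weights b (-1) Z hZ (by norm_num)
    have h4 : Epi (β (-1 + 1)) := (h2 (-1)).epi hz
    have : Epi (β 0) := h4
    exact hP.factor (retract_of_epi hO.split (β 0)) hX'
  cover := by
    intro X hX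
    obtain ⟨V, h1, h2, h3⟩ := hO.cover X hX
    refine ⟨V, h1, h2, fun b h => ?_⟩
    obtain ⟨u, hu⟩ := h3 b
    exact hP.factor (retract_of_epi hO.split u) h

end Pool.Agent.U554.TD
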