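import Pool.Agent.U554.TD.DetTwo
import Pool.Agent.U554.TD.Main

/-!
# Trilinear forms with two small blocks and hypersurfaces of small degree
-/

set_option autoImplicit false

open CategoryTheory AlgebraicGeometry MvPolynomial Pool.Agent.Y116.UV Pool.Agent.U554.TU
open Pool.Agent.U554.TW

namespace Pool.Agent.U554.TD

variable {k : Type} [Field k]

/-- The degree of the minors. -/
lemma mnr_deg {τ σ : Type} {a r : ℕ} (M : Fin a → σ → MvPolynomial τ k)
    (hM : ∀ e j, (M e j).totalDegree ≤ 1) (f : Fin r → Fin a) (g : Fin r → σ) :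
    (mnr M f g).totalDegree ≤ r := by
  unfold mnr
  rw [Matrix.det_apply]
  refine totalDegree_finsetSum_le fun p _ => ?_
  have h1 : (∏ i, Matrix.of (fun s t => M (f s) (g t)) (p i) i).totalDegree ≤ r := by
    refine (totalDegree_finsetProd _ _).trans ?_
    refine (Finset.sum_le_card_nsmul _ _ 1 fun i _ => hM _ _).trans ?_
    simp
  refine le_trans ?_ h1
  rcases Int.units_eq_one_or (Equiv.Perm.sign p) with h | h
  · rw [h, one_smul]
  · rw [h, Units.neg_smul, one_smul, totalDegree_neg]

lemma dim_sub {x : WithBot ℕ∞} {d : ℕ} (h : x + 1 ≤ ((d + 1 : ℕ) : WithBot ℕ∞)) :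
    x ≤ (d : WithBot ℕ∞) := by
  rw [ENat.WithBot.add_one_le_natCast_iff] at h
  have h3 : ((d + 1 : ℕ) : WithBot ℕ∞) = (d : WithBot ℕ∞) + 1 := by push_cast; rfl
  rw [h3] at h
  exact ENat.WithBot.lt_add_one_iff.mp h

variable {H : Sch k → Prop}

/-- Closed subschemes of hypersurfaces: an irreducible hypersurface. -/
lemma closed_irr (d : ℕ) (h1 : ∀ (A : Type) [CommRing A] [Algebra k A]
    [Algebra.FiniteType k A], ringKrullDim A ≤ d → H (aff k A))
    (f : MvPolynomial (Fin (d + 2)) k) (hf : Irreducible f)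
    (h2 : H (aff k (MvPolynomial (Fin (d + 2)) k ⧸ Ideal.span {f})))
    (I : Ideal (MvPolynomial (Fin (d + 2)) k)) (hI : f ∈ I) :
    H (aff k (MvPolynomial (Fin (d + 2)) k ⧸ I)) := by
  by_cases hle : I ≤ Ideal.span {f}
  · have h3 : I = Ideal.span {f} :=
      le_antisymm hle ((Ideal.span_singleton_le_iff_mem I).mpr hI)
    rw [h3]
    exact h2
  · obtain ⟨g, hg, hgf⟩ := Set.not_subset.mp hle
    refine h1 _ ?_
    have hp : Prime f := hf.prime
    have hprime : (Ideal.span {f}).IsPrime := (Ideal.span_singleton_prime hf.ne_zero).mpr hp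
    have hne : (Ideal.span {f} : Ideal (MvPolynomial (Fin (d + 2)) k)) ≠ ⊥ := by
      rw [Ne, Ideal.span_singleton_eq_bot]
      exact hf.ne_zero
    have hd := Pool.Agent.Z125.UN.dim_quot (N := d + 1) _ hne
    let g' : MvPolynomial (Fin (d + 2)) k ⧸ Ideal.span {f} := Ideal.Quotient.mk _ g
    have hg' : g' ≠ 0 := fun h => hgf (Ideal.Quotient.eq_zero_iff_mem.mp h)
    have h4 := ringKrullDim_quotient_succ_le_of_nonZeroDivisor (mem_nonZeroDivisors_of_ne_zero hg')
    have h5 : ringKrullDim ((MvPolynomial (Fin (d + 2)) k ⧸ Ideal.span {f}) ⧸ Ideal.span {g'}) ≤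
        d := by
      have h6 := h4.trans hd
      exact dim_sub h6
    refine le_trans ?_ h5
    let π : (MvPolynomial (Fin (d + 2)) k ⧸ Ideal.span {f}) →+* (MvPolynomial (Fin (d + 2)) k ⧸ I) :=
      Ideal.Quotient.factor ((Ideal.span_singleton_le_iff_mem I).mpr hI)
    have hπ : Function.Surjective π := Ideal.Quotient.factor_surjective _
    refine ringKrullDim_le_of_surjective (Ideal.Quotient.lift (Ideal.span {g'}) π ?_) ?_
    · intro x hx
      obtain ⟨y, rfl⟩ := Ideal.mem_span_singleton'.mp hx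
      rw [map_mul]
      have h6 : π g' = 0 := Ideal.Quotient.eq_zero_iff_mem.mpr hg
      rw [h6, mul_zero]
    · exact Ideal.Quotient.lift_surjective_of_surjective _ _ hπ

/-- **Closed subschemes of hypersurfaces of small degree.** -/
lemma closed_deg (hH : IsSided H) (d D : ℕ) (h1 : ∀ (A : Type) [CommRing A] [Algebra k A]
    [Algebra.FiniteType k A], ringKrullDim A ≤ d → H (aff k A))
    (h2 : ∀ f : MvPolynomial (Fin (d + 2)) k, Irreducible f → f.totalDegree ≤ D →
      H (aff k (MvPolynomial (Fin (d + 2)) k ⧸ Ideal.span {f})))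
    (g : MvPolynomial (Fin (d + 2)) k) :
    g ≠ 0 → g.totalDegree ≤ D → ∀ I : Ideal (MvPolynomial (Fin (d + 2)) k), g ∈ I →
      H (aff k (MvPolynomial (Fin (d + 2)) k ⧸ I)) := by
  induction g using WfDvdMonoid.induction_on_irreducible with
  | zero => exact fun h => absurd rfl h
  | unit u hu =>
    intro _ _ I hI
    exact hH.empty _ (Ideal.Quotient.subsingleton_iff.mpr (Ideal.eq_top_of_isUnit_mem I hI hu))
  | mul a i ha hi ih =>
    intro _ hdeg I hI
    rw [totalDegree_mul_of_isDomain hi.ne_zero ha] at hdeg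
    have hia : ∀ J : Ideal (MvPolynomial (Fin (d + 2)) k), i ∈ J →
        H (aff k (MvPolynomial (Fin (d + 2)) k ⧸ J)) :=
      closed_irr d h1 i hi (h2 i hi (by omega))
    have haa := ih ha (by omega)
    have hPi := quot_mk hH.toOne I i (hia _ (Ideal.mem_sup_right (Ideal.mem_span_singleton_self i)))
    have hPa := quot_mk hH.toOne I a (haa _ (Ideal.mem_sup_right (Ideal.mem_span_singleton_self a)))
    refine ring_total hH.toOne _ hPi (zero_div hH.toOne (b := Ideal.Quotient.mk I a) ?_ hPa ?_)
    · rw [← map_mul, Ideal.Quotient.eq_zero_iff_mem]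
      exact hI
    · have h3 := quot_ideal hH.toOne I (Ideal.span {a} ⊔ Ideal.span {i})
        (hia _ (Ideal.mem_sup_right (Ideal.mem_sup_right (Ideal.mem_span_singleton_self i))))
      have h4 : Ideal.map (Ideal.Quotient.mkₐ k I) (Ideal.span {a} ⊔ Ideal.span {i}) =
          Ideal.span {Ideal.Quotient.mk I a} ⊔ Ideal.span {Ideal.Quotient.mk I i} := by
        rw [Ideal.map_sup, Ideal.map_span, Ideal.map_span, Set.image_singleton,
          Set.image_singleton]
        rfl
      rw [h4] at h3
      exact quot_mk hH.toOne _ _ h3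

/-- the matrix of `dehom` -/
noncomputable def dmat {a p : ℕ} {σ : Type} (T : Fin a → Fin (p + 1) → σ → k) (e : Fin a) (j : σ) :
    MvPolynomial (Fin p) k :=
  (∑ i, C (T e (Fin.castSucc i) j) * X i) + C (T e (Fin.last p) j)

lemma dmat_deg {a p : ℕ} {σ : Type} (T : Fin a → Fin (p + 1) → σ → k) (e : Fin a) (j : σ) :
    (dmat T e j).totalDegree ≤ 1 := by
  unfold dmat
  refine (totalDegree_add _ _).trans (max_le ?_ ?_)
  · refine totalDegree_finsetSum_le fun i _ => ?_
    refine (totalDegree_mul _ _).trans ?_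
    rw [totalDegree_C, zero_add]
    exact (totalDegree_X i).le
  · rw [totalDegree_C]
    exact Nat.zero_le _

/-- The part with `d + 3` variables `y`. -/
lemma bil_two_aux (hH : IsSided H) (d D : ℕ) (h1 : ∀ (A : Type) [CommRing A] [Algebra k A]
    [Algebra.FiniteType k A], ringKrullDim A ≤ d → H (aff k A))
    (h2 : ∀ f : MvPolynomial (Fin (d + 2)) k, Irreducible f → f.totalDegree ≤ D →
      H (aff k (MvPolynomial (Fin (d + 2)) k ⧸ Ideal.span {f})))
    {a : ℕ} {σ Q : Type} [Fintype σ] [CommRing Q] [Algebra k Q] (hD : a ≤ D ∨ Fintype.card σ ≤ D)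
    (T : Fin a → Fin (d + 2 + 1) → σ → k) (y : Fin (d + 2 + 1) → Q) (z : σ → Q)
    (h : Bil T y z) : AffP H Q := by
  have hG := isClass hH
  have hQ := bil_ft h
  refine hG.ext Q (y (Fin.last (d + 2))) ?_ ?_
  · exact bil_good (G := AffP H) hG (fun A _ _ _ h => hH.times A h) (d + 1)
      (fun p hp => her_space hH d h1 p hp) (d + 2) le_rfl a σ _ _ _ _ (bil_quot h)
  · obtain ⟨I, φ, w, h'⟩ := lin_std (k := k) (MvPolynomial (Fin (d + 2)) k) σ (dehom T)
    obtain ⟨e⟩ := bil_open h h'
    have h3 : AffP H (MvPolynomial σ (MvPolynomial (Fin (d + 2)) k) ⧸ I) := by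
      refine lin_det hG (fun A _ _ _ c h4 h5 => ring_open hH.toOne c h4 h5)
        (fun A _ _ h4 => hH.empty A h4) (dmat T)
        (fun J => J = ⊥ ∨ ∃ g ∈ J, g ≠ 0 ∧ g.totalDegree ≤ D) ?_ (Or.inl rfl) ?_ _ φ w h'
      · rintro J (rfl | ⟨g, hg, hg0, hgD⟩)
        · exact one_alg hH.toOne (AlgEquiv.quotientBot k _).symm (hH.space (d + 2))
        · exact closed_deg hH d D h1 h2 g hg0 hgD J hg
      · intro r f g J hJ h0
        refine Or.inr ⟨_, hJ, h0, (mnr_deg _ (dmat_deg T) f g).trans ?_⟩
        have hf : Function.Injective f := by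
          by_contra h4
          exact h0 (mnr_left _ f g h4)
        have hg : Function.Injective g := by
          by_contra h4
          exact h0 (mnr_right _ f g h4)
        have h4 := Fintype.card_le_of_injective f hf
        have h5 := Fintype.card_le_of_injective g hg
        rw [Fintype.card_fin] at h4 h5
        rw [Fintype.card_fin] at h4
        omega
    have hW := lin_ft h'
    have hL' := hH.times _ h3
    have hWL : Algebra.FiniteType k (LaurentPolynomial
        (MvPolynomial σ (MvPolynomial (Fin (d + 2)) k) ⧸ I)) := ft_laurent _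
    exact hG.iso _ _ e.symm hL'

/-- **Trilinear forms with two small blocks.** If the property holds in dimension at most `d` and for the
irreducible hypersurfaces of degree at most `D` in the affine space of dimension `d + 2`, then it holds for
the systems of bilinear equations with at most `d + 3` variables `y` such that the number of the equations
or of the variables `z` is at most `D`. -/
theorem bil_two (hH : IsSided H) (d D : ℕ) (h1 : ∀ (A : Type) [CommRing A] [Algebra k A]
    [Algebra.FiniteType k A], ringKrullDim A ≤ d → H (aff k A))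
    (h2 : ∀ f : MvPolynomial (Fin (d + 2)) k, Irreducible f → f.totalDegree ≤ D →
      H (aff k (MvPolynomial (Fin (d + 2)) k ⧸ Ideal.span {f})))
    {a₁ a₂ a₃ : ℕ} (ha : a₂ ≤ d + 3) (hD : a₁ ≤ D ∨ a₃ ≤ D)
    (T : Fin a₁ → Fin a₂ → Fin a₃ → k) : H (bilS T) := by
  by_cases hd : a₂ ≤ d + 2
  · exact bil_of_dim hH d h1 hd T
  · obtain rfl : a₂ = d + 2 + 1 := by omega
    have hD' : a₁ ≤ D ∨ Fintype.card (Fin a₃) ≤ D := by rwa [Fintype.card_fin]
    exact bil_two_aux hH d D h1 h2 hD' T _ _ (bil_std T)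

end Pool.Agent.U554.TD
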