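import Pool.Agent.U554.TD.Main
import Pool.Agent.U554.TW.Ab

/-!
# Serre properties of homological theories: schemes of dimension at most `d` and trilinear forms

`O b m X` is a homological theory with values in an abelian category, `P` a property of objects which passes to
direct factors and to the middle term of exact sequences, `W` a set of weights which contains with `b` all
`b' ≤ b`. The property of `X` is: `P (O b m X)` for all `b` in `W` and all `m`.
-/

set_option autoImplicit false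

open CategoryTheory AlgebraicGeometry MvPolynomial Pool.Agent.Y116.UV
open Pool.Agent.U554.TU Pool.Agent.U554.TW

namespace Pool.Agent.U554.TD

universe v u

variable {𝓒 : Type u} [Category.{v} 𝓒] [Abelian 𝓒]

/-- A property of objects which holds for the zero objects and passes to direct factors and to the middle term of
exact sequences. -/
structure IsSerre (P : 𝓒 → Prop) : Prop where
  zero : ∀ X : 𝓒, Limits.IsZero X → P X
  factor : ∀ {X Y : 𝓒}, Nonempty (Retract X Y) → P Y → P X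
  mid : ∀ {X Y Z : 𝓒} (f : X ⟶ Y) (g : Y ⟶ Z), ExactAt f g → P X → P Z → P Y

lemma IsSerre.iso {P : 𝓒 → Prop} (hP : IsSerre P) {X Y : 𝓒} (h : Nonempty (X ≅ Y)) (hX : P X) : P Y := by
  obtain ⟨e⟩ := h
  exact hP.factor ⟨⟨e.inv, e.hom, e.inv_hom_id⟩⟩ hX

/-- One of the three numbers is at most `r`. -/
def OneSmall (r a₁ a₂ a₃ : ℕ) : Prop := a₁ ≤ r ∨ a₂ ≤ r ∨ a₃ ≤ r

/-- `P` holds for the groups of `X` in all degrees and in the weights in `W`. -/
def AllIn {k : Type} [Field k] (P : 𝓒 → Prop) (W : Set ℤ) (O : ℤ → ℤ → Sch k → 𝓒) (X : Sch k) : Prop :=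
  ∀ b ∈ W, ∀ m : ℤ, P (O b m X)

variable {k : Type} [Field k] {P : 𝓒 → Prop} {W : Set ℤ} {O : ℤ → ℤ → Sch k → 𝓒}

lemma allIn_one (hP : IsSerre P) (hO : IsAbTheory O) : One True (AllIn P W O) where
  iso := fun hX h hp b hb m => hP.iso (hO.iso hX h b m) (hp b hb m)
  total := by
    intro Z X U i j hX ht hZ hU b hb m
    obtain ⟨α, β, δ, h1, h2, h3⟩ := hO.les i j hX ht b
    exact hP.mid _ _ (h1 m) (hZ b hb m) (hU b hb m)
  opened := by
    intro Z X U i j hX ht hZ hX' b hb m
    obtain ⟨α, β, δ, h1, h2, h3⟩ := hO.les i j hX ht b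
    have h4 := hP.mid _ _ (h2 (m - 1)) (hX' b hb _) (hZ b hb (m - 1))
    rwa [sub_add_cancel] at h4
  empty := by
    intro B _ _ hB b hb m
    have hft : Algebra.FiniteType k B := by
      have : Module.Finite k B := inferInstance
      infer_instance
    obtain ⟨N, hN⟩ := hO.isTheory.large b m
    have h1 := hN N le_rfl m (by omega) (by omega) B
    have hs : Subsingleton (MvPolynomial (Fin N) B) := by
      have h0 : (0 : B) = 1 := Subsingleton.elim _ _
      have h2 := congrArg (C : B →+* MvPolynomial (Fin N) B) h0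
      rw [map_zero, map_one] at h2
      exact subsingleton_of_zero_eq_one h2
    have e : MvPolynomial (Fin N) B ≃ₐ[k] B :=
      AlgEquiv.ofBijective
        { (0 : MvPolynomial (Fin N) B →+ B) with
          toFun := fun _ => 0
          map_one' := Subsingleton.elim _ _
          map_mul' := fun _ _ => Subsingleton.elim _ _
          map_zero' := rfl
          map_add' := fun _ _ => Subsingleton.elim _ _
          commutes' := fun _ => Subsingleton.elim _ _ }
        ⟨fun _ _ _ => Subsingleton.elim _ _, fun _ => ⟨0, Subsingleton.elim _ _⟩⟩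
    exact hP.iso (hO.isTheory.alg e b m) (hP.zero _ h1)

/-- The sided property. -/
lemma allIn_sided (hP : IsSerre P) (hO : IsAbTheory O) (hW : ∀ b ∈ W, ∀ b' ≤ b, b' ∈ W)
    (hpt : AllIn P W O (aff k k)) : IsSided (AllIn P W O) := by
  have hone := allIn_one (W := W) hP hO
  have hpoly : ∀ (A : Type) [CommRing A] [Algebra k A] [Algebra.FiniteType k A] (r : ℕ),
      AllIn P W O (aff k A) → AllIn P W O (aff k (MvPolynomial (Fin r) A)) := by
    intro A _ _ _ r h b hb m
    have h1 := hO.space A r (b - r) m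
    rw [sub_add_cancel] at h1
    exact hP.iso h1 (h _ (hW b hb _ (by omega)) m)
  exact
    { iso := hone.iso
      total := hone.total
      opened := hone.opened
      empty := hone.empty
      space := fun p => hpoly k p hpt
      poly := hpoly
      times := by
        intro A _ _ _ h
        refine Pool.Agent.U738.BN.times_of_line (sep := True) hone.iso hone.opened ?_ h
        have e : MvPolynomial (Fin 1) A ≃ₐ[k] Polynomial A :=
          (MvPolynomial.uniqueAlgEquiv A (Fin 1)).restrictScalars k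
        exact one_alg hone e (hpoly A 1 h) }

/-- From the bilinear equations to the hypersurface, and back. -/
lemma hyp_iff_bil (hP : IsSerre P) (hO : IsAbTheory O) (hW : ∀ b ∈ W, ∀ b' ≤ b, b' ∈ W)
    (hpt : AllIn P W O (aff k k)) {a₁ a₂ a₃ : ℕ} (T : Fin a₁ → Fin a₂ → Fin a₃ → k) (b : ℤ) (hb : b ∈ W) :
    (∀ m, P (O b m (bilS T))) ↔ ∀ m, P (O (b + a₁ - 1) m (hypS T)) := by
  have hT := hO.isTheory
  let f : Fin a₁ → MvPolynomial (Fin a₂ ⊕ Fin a₃) k := fun i => bil (Fin a₂) (Fin a₃) (T i)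
  have hs : ∀ m, P (O b m (aff k (MvPolynomial (Fin a₂ ⊕ Fin a₃) k))) := by
    intro m
    have h1 := (allIn_sided hP hO hW hpt).space (a₂ + a₃) b hb m
    exact hP.iso (hT.alg (renameEquiv k finSumFinEquiv.symm) b m) h1
  obtain ⟨α, β, δ, e1, e2, e3⟩ := hO.les _ _ (ft_aff True) (triple_ne f) b
  have h4 : ∀ m, Nonempty (O b m (opn (aff k (MvPolynomial (Fin a₂ ⊕ Fin a₃) k)) (neOpen k f)) ≅
      O (b + a₁ - 1) m (hypS T)) := by
    intro m
    exact (abRel 𝓒).iso_trans (hT.bundle_ne f b m) ((abRel 𝓒).iso_symm (hT.alg (hypEquiv T) _ m))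
  constructor
  · intro h m
    refine hP.iso (h4 m) ?_
    have h5 := hP.mid _ _ (e2 (m - 1)) (hs _) (h (m - 1))
    rwa [sub_add_cancel] at h5
  · intro h m
    exact hP.mid _ _ (e3 m) (hP.iso ((abRel 𝓒).iso_symm (h4 (m + 1))) (h (m + 1))) (hs m)

/-- **From the schemes of dimension at most `d` to the systems of bilinear equations with a block of at most
`d + 2` variables.** -/
theorem allIn_bil (hP : IsSerre P) (hO : IsAbTheory O) (hW : ∀ b ∈ W, ∀ b' ≤ b, b' ∈ W)
    (hpt : AllIn P W O (aff k k)) (d : ℕ) (h : ∀ X : Sch k, FT True X →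
      topologicalKrullDim X.left ≤ d → AllIn P W O X) {a₁ a₂ a₃ : ℕ}
    (T : Fin a₁ → Fin a₂ → Fin a₃ → k) (ha : OneSmall (d + 2) a₁ a₂ a₃) : AllIn P W O (bilS T) := by
  have hT := hO.isTheory
  have hS := allIn_sided hP hO hW hpt
  have key : ∀ (b₁ b₂ b₃ : ℕ) (S : Fin b₁ → Fin b₂ → Fin b₃ → k), b₂ ≤ d + 2 →
      AllIn P W O (bilS S) := by
    intro b₁ b₂ b₃ S hb
    refine bil_of_dim hS d (fun A _ _ _ hA => ?_) hb S
    refine h _ (ft_aff True) ?_
    rw [Pool.Agent.Z125.UN.topDim_aff]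
    exact hA
  by_cases h2 : a₂ ≤ d + 2
  · exact key _ _ _ T h2
  intro b hb
  by_cases h3 : a₃ ≤ d + 2
  · obtain ⟨e⟩ := hyp_swap' T
    rw [hyp_iff_bil hP hO hW hpt T b hb]
    have h4 := (hyp_iff_bil hP hO hW hpt (fun i l j => T i j l) b hb).mp
      (key a₁ a₃ a₂ (fun i l j => T i j l) h3 b hb)
    exact fun m => hP.iso ((abRel 𝓒).iso_symm (hT.alg e _ m)) (h4 m)
  · have h1 : a₁ ≤ d + 2 := by
      rcases ha with ha | ha | ha <;> omega
    obtain ⟨e⟩ := hyp_swap T
    rw [hyp_iff_bil hP hO hW hpt T b hb]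
    have hb' : b + a₁ - a₂ ∈ W := hW b hb _ (by omega)
    have h4 := (hyp_iff_bil hP hO hW hpt (fun j i l => T i j l) _ hb').mp
      (key a₂ a₁ a₃ (fun j i l => T i j l) h1 _ hb')
    intro m
    have h5 := h4 m
    rw [show (b + a₁ - a₂ + a₂ - 1 : ℤ) = b + a₁ - 1 from by ring] at h5
    exact hP.iso ((abRel 𝓒).iso_symm (hT.alg e _ m)) h5

/-- **The cone.** From the bilinear systems with `n + 1` variables `y` to the closed subschemes of the affine
space of dimension `n ≥ 2`, in one weight. -/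
theorem cone_serre (hP : IsSerre P) (hO : IsAbTheory O) (hW : ∀ b ∈ W, ∀ b' ≤ b, b' ∈ W)
    (hpt : AllIn P W O (aff k k))
    (hbd : ∀ (A : Type) [CommRing A] [Algebra k A] [Algebra.FiniteType k A] (b m : ℤ),
      Nonempty (Retract (O b m (aff k A)) (O b (m + 1) (aff k (LaurentPolynomial A)))))
    {n : ℕ} (hn : 2 ≤ n) {A : Type} [CommRing A] [Algebra k A]
    [Algebra.FiniteType k A] (φ : MvPolynomial (Fin n) k →ₐ[k] A)
    (G : Finset (MvPolynomial (Fin n) k)) (hs : Function.Surjective φ)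
    (hK : RingHom.ker φ = Ideal.span (G : Set (MvPolynomial (Fin n) k))) (s : ℤ) (b : ℤ) (hb : b ∈ W)
    (h : ∀ (a₁ a₃ : ℕ) (T : Fin a₁ → Fin (n + 1) → Fin a₃ → k), s ≤ a₃ →
      ∀ m, P (O (b + a₁ - 1) m (hypS T))) (m : ℤ) : P (O b m (aff k A)) := by
  classical
  have hT := hO.isTheory
  have hS := allIn_sided hP hO hW hpt
  obtain ⟨N, hN⟩ := hT.large b (m + 1)
  let D : ℕ := N + s.toNat + 1 + ∑ g ∈ G, ∑ m ∈ g.support, m.degree
  have hd : ∀ g ∈ G, ∀ m ∈ g.support, m.degree ≤ D := by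
    intro g hg m hm
    have h1 : m.degree ≤ ∑ m ∈ g.support, m.degree :=
      Finset.single_le_sum (f := fun m : Fin n →₀ ℕ => m.degree) (fun _ _ => Nat.zero_le _) hm
    have h2 : ∑ m ∈ g.support, m.degree ≤ ∑ g ∈ G, ∑ m ∈ g.support, m.degree :=
      Finset.single_le_sum (f := fun g : MvPolynomial (Fin n) k => ∑ m ∈ g.support, m.degree)
        (fun _ _ => Nat.zero_le _) hg
    omega
  -- the system
  let κ : Type := (Mon n D × Fin n) ⊕ G
  let e : Fin (Fintype.card κ) ≃ κ := (Fintype.equivFin κ).symm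
  let eM : Fin (Fintype.card (Mon n D)) ≃ Mon n D := (Fintype.equivFin (Mon n D)).symm
  let T0 : Fin (Fintype.card κ) → Fin (n + 1) → Mon n D → k := fun i => ct D G (e i)
  let f : Fin (Fintype.card κ) → MvPolynomial (Fin (n + 1) ⊕ Mon n D) k :=
    fun i => bil (Fin (n + 1)) (Mon n D) (T0 i)
  let Q : Type := MvPolynomial (Fin (n + 1) ⊕ Mon n D) k ⧸ Ideal.span (Set.range f)
  have hB : Bil (Q := Q) T0 _ _ := bil_std T0
  have hR := crep_of_bil e e.surjective hB
  set y0 : Q := (Ideal.Quotient.mk _ (X (Sum.inl (Fin.last n))) : Q) with hy0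
  set z : Mon n D → Q := fun m => (Ideal.Quotient.mk _ (X (Sum.inr m)) : Q) with hz
  have hM : D ≤ Fintype.card (Mon n D) := by
    have h2 := card_tm (D := D) hn
    have h3 := Fintype.card_le_of_injective (fun m : Tm n D => m.1) Subtype.val_injective
    omega
  -- the groups of the scheme of solutions
  let T : Fin (Fintype.card κ) → Fin (n + 1) → Fin (Fintype.card (Mon n D)) → k :=
    fun i j l => T0 i j (eM l)
  have hQ : ∀ μ, P (O b μ (aff k Q)) := by
    intro μ
    have h1 := (hyp_iff_bil hP hO hW hpt T b hb).mpr (h _ _ T (by omega)) μ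
    exact hP.iso (hT.alg (bilIso (Equiv.refl (Fin (n + 1))) eM T0) b μ) h1
  -- the boundary
  obtain ⟨e0⟩ := cone_bd_open hR
  obtain ⟨B, _, _, _, ⟨e'⟩⟩ := cone_bd_closed hR
  have h1 : y0 * z (mo n D) ∈ Ideal.span {y0} :=
    Ideal.mul_mem_right _ _ (Ideal.mem_span_singleton_self _)
  obtain ⟨e1⟩ := quot_quot (R := k) (y0 * z (mo n D)) y0 h1
  have e2 : MvPolynomial (Tm n D) B ≃ₐ[k] MvPolynomial (Fin (Fintype.card (Tm n D))) B :=
    (renameEquiv B (Fintype.equivFin (Tm n D))).restrictScalars k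
  have h2 := card_tm (D := D) hn
  let y0' : Q ⧸ Ideal.span {y0 * z (mo n D)} := Ideal.Quotient.mk (Ideal.span {y0 * z (mo n D)}) y0
  have hL : Algebra.FiniteType k (LaurentPolynomial (MvPolynomial (Fin n) k)) := ft_laurent _
  have hbd1 : P (O b (m + 1) (aff k (Q ⧸ Ideal.span {y0 * z (mo n D)}))) := by
    obtain ⟨α, β, δ, h3, -, -⟩ := hO.les _ _ (ft_aff True) (triple_away y0') b
    refine hP.mid _ _ (h3 (m + 1)) ?_ ?_
    · refine hP.iso ((abRel 𝓒).iso_symm (hT.alg ((e1.trans e').trans e2) b (m + 1))) (hP.zero _ ?_)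
      exact hN _ (by omega) (m + 1) (by omega) (by omega) B
    · exact hP.iso (hT.alg e0.symm b (m + 1)) (hS.times _ (hS.space n) b hb (m + 1))
  -- the open part
  have hop : P (O b (m + 1 + 1) (aff k (Localization.Away (y0 * z (mo n D))))) := by
    obtain ⟨α, β, δ, -, h3, -⟩ := hO.les _ _ (ft_aff True) (triple_away (y0 * z (mo n D))) b
    exact hP.mid _ _ (h3 (m + 1)) (hQ _) hbd1
  obtain ⟨e3⟩ := cone_open hR φ hs hK hd
  have hLA := ft_laurent (R := k) A
  have hLL := ft_laurent (R := k) (LaurentPolynomial A)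
  have hft : Algebra.FiniteType k (Localization.Away (y0 * z (mo n D))) :=
    Algebra.FiniteType.trans (S := Q) inferInstance inferInstance
  have h5 : P (O b (m + 1 + 1) (aff k (LaurentPolynomial (LaurentPolynomial A)))) :=
    hP.iso (hT.alg e3 b _) hop
  exact hP.factor (hbd A b m) (hP.factor (hbd (LaurentPolynomial A) b (m + 1)) h5)

/-- **Serre properties, dimension by dimension.** -/
theorem serre_tfae [PerfectField k] (hP : IsSerre P) (hO : IsAbTheory O)
    (hW : ∀ b ∈ W, ∀ b' ≤ b, b' ∈ W) (hpt : AllIn P W O (aff k k))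
    (hbd : ∀ (A : Type) [CommRing A] [Algebra k A] [Algebra.FiniteType k A] (b m : ℤ),
      Nonempty (Retract (O b m (aff k A)) (O b (m + 1) (aff k (LaurentPolynomial A)))))
    (d : ℕ) (hd : 1 ≤ d) (s : ℤ) :
    List.TFAE [
      ∀ X : Sch k, FT True X → topologicalKrullDim X.left ≤ d → AllIn P W O X,
      ∀ (a₁ a₂ a₃ : ℕ) (T : Fin a₁ → Fin a₂ → Fin a₃ → k), OneSmall (d + 2) a₁ a₂ a₃ →
        AllIn P W O (bilS T),
      ∀ (a₁ a₂ a₃ : ℕ) (T : Fin a₁ → Fin a₂ → Fin a₃ → k), OneSmall (d + 2) a₁ a₂ a₃ →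
        ∀ b ∈ W, ∀ m, P (O (b + a₁ - 1) m (hypS T)),
      ∀ (a₁ a₃ : ℕ) (T : Fin a₁ → Fin (d + 2) → Fin a₃ → k), s ≤ a₃ →
        ∀ b ∈ W, ∀ m, P (O (b + a₁ - 1) m (hypS T))] := by
  tfae_have 1 → 2 := fun h a₁ a₂ a₃ T ha => allIn_bil hP hO hW hpt d h T ha
  tfae_have 2 → 3 := fun h a₁ a₂ a₃ T ha b hb =>
    (hyp_iff_bil hP hO hW hpt T b hb).mp (h a₁ a₂ a₃ T ha b hb)
  tfae_have 3 → 4 := fun h a₁ a₃ T _ => h a₁ (d + 2) a₃ T (Or.inr (Or.inl le_rfl))
  tfae_have 4 → 1 := by
    intro h X hX hdim b hb m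
    have hS := allIn_sided (W := {b' | b' ≤ b}) hP hO (fun b hb b' hb' => le_trans hb' hb)
      (fun b' hb' => hpt b' (hW b hb b' hb'))
    refine of_affine_dim hS.toOne (closed_to_dim hS.toOne (n := d) ?_) X hX hdim b
      (show b ∈ {b' | b' ≤ b} from le_refl b) m
    intro I c hc m
    obtain ⟨G, hG⟩ := (isNoetherianRing_iff_ideal_fg _).mp
      (inferInstance : IsNoetherianRing (MvPolynomial (Fin (d + 1)) k)) I
    exact cone_serre hP hO hW hpt hbd (n := d + 1) (by omega) (Ideal.Quotient.mkₐ k I) G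
      (Ideal.Quotient.mkₐ_surjective k I) ((Ideal.mk_ker (I := I)).trans hG.symm) s c (hW b hb c hc)
      (fun a₁ a₃ T ha m => h a₁ a₃ T ha c (hW b hb c hc) m) m
  tfae_finish

/-- Finitely generated modules over a noetherian ring. -/
lemma serre_fg {Λ : Type} [CommRing Λ] [IsNoetherianRing Λ] :
    IsSerre fun M : ModuleCat.{v} Λ => Module.Finite Λ M where
  zero := by
    intro X hX
    have : Subsingleton X := ModuleCat.subsingleton_of_isZero hX
    infer_instance
  factor := by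
    rintro X Y ⟨r⟩ hY
    refine Module.Finite.of_surjective r.r.hom fun x => ⟨r.i.hom x, ?_⟩
    have h : (r.i ≫ r.r).hom x = x := by rw [r.retract]; rfl
    exact h
  mid := by
    rintro X Y Z f g ⟨w, h⟩ hX hZ
    rw [ShortComplex.moduleCat_exact_iff_range_eq_ker] at h
    have hN : IsNoetherian Λ Z := isNoetherian_of_isNoetherianRing_of_finite Λ Z
    refine ⟨Submodule.fg_of_fg_map_of_fg_inf_ker g.hom (IsNoetherian.noetherian _) ?_⟩
    have h1 : (⊤ : Submodule Λ Y) ⊓ LinearMap.ker g.hom = Submodule.map f.hom ⊤ := by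
      rw [top_inf_eq, Submodule.map_top]
      exact h.symm
    rw [h1]
    exact (Module.Finite.fg_top (R := Λ) (M := X)).map f.hom

end Pool.Agent.U554.TD
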