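import Pool.Agent.U554.TD.SerTwo
import Pool.Agent.U554.TW.Main

/-!
# Unbounded sets of degrees
-/

set_option autoImplicit false

open CategoryTheory AlgebraicGeometry MvPolynomial Pool.Agent.Y116.UV Pool.Agent.U554.TU
  Pool.Agent.U554.TW Pool.Agent.U483.GU

namespace Pool.Agent.U554.TD

universe v u

variable {𝓒 : Type u} [Category.{v} 𝓒] [Abelian 𝓒] {k : Type} [Field k] {P : 𝓒 → Prop}
  {O : ℤ → ℤ → Sch k → 𝓒}

/-- The property for the affine schemes passes to the lower degrees. -/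
lemma degree_down (hP : Inherited (abRel 𝓒) P)
    (hbd : ∀ (A : Type) [CommRing A] [Algebra k A] [Algebra.FiniteType k A] (b m : ℤ),
      Nonempty (Retract (O b m (aff k A)) (O b (m + 1) (aff k (LaurentPolynomial A)))))
    (d : ℕ) (m : ℤ) (h : ∀ (A : Type) [CommRing A] [Algebra k A] [Algebra.FiniteType k A] (b : ℤ),
      P (O b (m + d) (aff k A))) :
    ∀ (A : Type) [CommRing A] [Algebra k A] [Algebra.FiniteType k A] (b : ℤ), P (O b m (aff k A)) := by
  induction d with
  | zero => simpa using h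
  | succ d ih =>
    apply ih
    intro A _ _ _ b
    have h2 := hbd A b (m + d)
    have h3 : Algebra.FiniteType k (LaurentPolynomial A) := ft_laurent A
    have h4 := h (LaurentPolynomial A) b
    rw [show m + ((d + 1 : ℕ) : ℤ) = m + d + 1 from by push_cast; ring] at h4
    exact hP _ _ h2 h4

/-- **From the cubics and an unbounded set of degrees to all schemes with affine bundles and all degrees.** -/
theorem of_unbounded (hO : IsAbTheory O) (torsor : BundleInvariant (abRel 𝓒) O)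
    (hbd : ∀ (A : Type) [CommRing A] [Algebra k A] [Algebra.FiniteType k A] (b m : ℤ),
      Nonempty (Retract (O b m (aff k A)) (O b (m + 1) (aff k (LaurentPolynomial A)))))
    (hP : Inherited (abRel 𝓒) P) (S : Set ℤ) (hS : ∀ N : ℤ, ∃ n ∈ S, N ≤ n) (s : ℕ) {C : Set k}
    (h0 : 0 ∈ C) (h1 : 1 ∈ C) (hC : Presents C)
    (h : ∀ (a₁ a₂ a₃ : ℕ) (T : Fin a₁ → Fin a₂ → Fin a₃ → k), (∀ i j l, T i j l ∈ C) →
      ∀ j : ℕ, s ≤ j → ∀ n ∈ S, P (O (a₁ + a₂ + a₃ - 1 - j) n (hypS T)))
    (X : Sch k) (hX : FT True X) (hX' : HasAffineBundle X) (b m : ℤ) : P (O b m X) := by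
  refine bundle_of_affine torsor hP m ?_ X hX hX' b
  obtain ⟨n, hn, hm⟩ := hS (m + 1)
  exact degree_down hP hbd (n - 1 - m).toNat m fun A _ _ _ b => by
    rw [show m + ((n - 1 - m).toNat : ℤ) = n - 1 from by omega]
    refine affine_of_hyp hO.isTheory hP h0 h1 hC s (n - 1) (fun a₁ a₂ a₃ T hT j hj => ?_) A b
    rw [sub_add_cancel]
    exact h a₁ a₂ a₃ T hT j hj n hn

end Pool.Agent.U554.TD
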