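import Pool.Agent.U554.TD.Gr
import Pool.Agent.U554.TD.Cx
import Pool.Agent.U483.GU.HDefs

/-!
# Serre properties in all degrees and weights
-/

set_option autoImplicit false

open CategoryTheory AlgebraicGeometry MvPolynomial Pool.Agent.Y116.UV
open Pool.Agent.U554.TU Pool.Agent.U554.TW Pool.Agent.U483.GU

namespace Pool.Agent.U554.TD

universe v u

variable {𝓒 : Type u} [Category.{v} 𝓒] [Abelian 𝓒] {k : Type} [Field k]

/-- `P` holds for the groups of `X` in all degrees and weights. -/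
def Everywhere (P : 𝓒 → Prop) (O : ℤ → ℤ → Sch k → 𝓒) (X : Sch k) : Prop := ∀ b m : ℤ, P (O b m X)

variable {P : 𝓒 → Prop} {O : ℤ → ℤ → Sch k → 𝓒}

lemma everywhere_sided (hP : IsSerre P) (hO : IsAbTheory O) (hpt : Everywhere P O (aff k k)) :
    IsSided (AllIn P Set.univ O) :=
  allIn_sided hP hO (fun _ _ _ _ => trivial) fun b _ => hpt b

lemma everywhere_hyp (hP : IsSerre P) (hO : IsAbTheory O) (hpt : Everywhere P O (aff k k)) {a₁ a₂ a₃ : ℕ}
    (T : Fin a₁ → Fin a₂ → Fin a₃ → k) (h : Everywhere P O (bilS T)) : Everywhere P O (hypS T) := by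
  intro b m
  have h1 := (hyp_iff_bil hP hO (W := Set.univ) (fun _ _ _ _ => trivial) (fun b _ => hpt b) T (b - a₁ + 1)
    trivial).mp (h _) m
  rwa [show (b - a₁ + 1 + a₁ - 1 : ℤ) = b from by ring] at h1

lemma everywhere_bil (hP : IsSerre P) (hO : IsAbTheory O) (hpt : Everywhere P O (aff k k)) (d : ℕ)
    (h : ∀ X : Sch k, FT True X → topologicalKrullDim X.left ≤ d → Everywhere P O X) {a₁ a₂ a₃ : ℕ}
    (T : Fin a₁ → Fin a₂ → Fin a₃ → k) (ha : OneSmall (d + 2) a₁ a₂ a₃) : Everywhere P O (bilS T) :=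
  fun b => allIn_bil hP hO (W := Set.univ) (fun _ _ _ _ => trivial) (fun b _ => hpt b) d
    (fun X hX hd b _ => h X hX hd b) T ha b trivial

lemma everywhere_point {e : ℕ} (known : ∀ X : Sch k, FT True X → topologicalKrullDim X.left ≤ e →
    Everywhere P O X) : Everywhere P O (aff k k) := by
  refine known _ (ft_aff True) ?_
  rw [Pool.Agent.Z125.UN.topDim_aff, ringKrullDim_eq_zero_of_field]
  exact_mod_cast Nat.zero_le e

/-- **Serre properties, dimension by dimension, in all degrees.** -/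
theorem everywhere_tfae [PerfectField k] (hP : IsSerre P) (hO : IsAbTheory O)
    (hbd : ∀ (A : Type) [CommRing A] [Algebra k A] [Algebra.FiniteType k A] (b m : ℤ),
      Nonempty (Retract (O b m (aff k A)) (O b (m + 1) (aff k (LaurentPolynomial A)))))
    (e : ℕ) (known : ∀ X : Sch k, FT True X → topologicalKrullDim X.left ≤ e → Everywhere P O X)
    (res : ∀ d : ℕ, (∀ V : Sch k, SmoothProjective V → topologicalKrullDim V.left ≤ d → Everywhere P O V) →
      ∀ X : Sch k, FT True X → topologicalKrullDim X.left ≤ d → Everywhere P O X) (d : ℕ) (hd : 1 ≤ d) (s : ℕ) :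
    List.TFAE [
      d ≤ e ∨ ∀ V : Sch k, SmoothProjective V → topologicalKrullDim V.left ≤ d → Everywhere P O V,
      ∀ X : Sch k, FT True X → topologicalKrullDim X.left ≤ d → Everywhere P O X,
      (∀ (a₁ a₂ a₃ : ℕ) (T : Fin a₁ → Fin a₂ → Fin a₃ → k), OneSmall (d + 2) a₁ a₂ a₃ →
        Everywhere P O (bilS T)) ∧
      ∀ (n : ℕ) (G : Finset (MvPolynomial (Fin n) k)), ∑ g ∈ G, (g.support.card - 2) ≤ d →
        Everywhere P O (aff k (MvPolynomial (Fin n) k ⧸ Ideal.span (G : Set (MvPolynomial (Fin n) k)))),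
      ∀ (a₁ a₂ a₃ : ℕ) (T : Fin a₁ → Fin a₂ → Fin a₃ → k), OneSmall (d + 2) a₁ a₂ a₃ →
        Everywhere P O (hypS T),
      ∀ (a₁ a₃ : ℕ) (T : Fin a₁ → Fin (d + 2) → Fin a₃ → k), ∀ j : ℕ, s ≤ j → ∀ m : ℤ,
        P (O (a₁ + (d + 2) + a₃ - 1 - j) m (hypS T))] := by
  have hpt := everywhere_point known
  have hS := everywhere_sided hP hO hpt
  tfae_have 1 → 2 := by
    rintro (h1 | h1)
    · exact fun X hX hdim => known X hX (hdim.trans (by exact_mod_cast h1))
    · exact res d h1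
  tfae_have 2 → 1 := fun h1 => Or.inr fun V hV => h1 V hV.ft
  tfae_have 2 → 3 := by
    intro h1
    refine ⟨fun a₁ a₂ a₃ T ha => everywhere_bil hP hO hpt d h1 T ha, fun n G hG b => ?_⟩
    refine complexity hS d (fun A _ _ _ hA => ?_) G hG b trivial
    intro b _
    refine h1 _ (ft_aff True) ?_ b
    rw [Pool.Agent.Z125.UN.topDim_aff]
    exact hA
  tfae_have 3 → 4 := fun h1 a₁ a₂ a₃ T ha => everywhere_hyp hP hO hpt T (h1.1 a₁ a₂ a₃ T ha)
  tfae_have 4 → 5 := fun h1 a₁ a₃ T j _ m => h1 a₁ (d + 2) a₃ T (Or.inr (Or.inl le_rfl)) _ m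
  tfae_have 5 → 2 := by
    intro h1 X hX hdim b m
    refine of_affine_dim hS.toOne (closed_to_dim hS.toOne (n := d) ?_) X hX hdim b trivial m
    intro I c _ m
    obtain ⟨G, hG⟩ := (isNoetherianRing_iff_ideal_fg _).mp
      (inferInstance : IsNoetherianRing (MvPolynomial (Fin (d + 1)) k)) I
    refine cone_serre hP hO (W := Set.univ) (fun _ _ _ _ => trivial) (fun b _ => hpt b) hbd (n := d + 1)
      (by omega) (Ideal.Quotient.mkₐ k I) G (Ideal.Quotient.mkₐ_surjective k I)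
      ((Ideal.mk_ker (I := I)).trans hG.symm) (c + s) c trivial (fun a₁ a₃ T ha m => ?_) m
    have h2 := h1 a₁ a₃ T (d + 2 + a₃ - c).toNat (by omega) m
    rwa [show (a₁ + (d + 2) + a₃ - 1 - ((d + 2 + a₃ - c).toNat : ℤ) : ℤ) = c + a₁ - 1 from by omega] at h2
  tfae_finish

end Pool.Agent.U554.TD
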