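import Pool.Agent.U554.TD.ConeThree
import Pool.Agent.U738.BN.Bnd

/-!
# Universality of the hypersurfaces `T(x, y, z) = 1` with a small block of variables, degree by degree
-/

set_option autoImplicit false

open CategoryTheory AlgebraicGeometry MvPolynomial Pool.Agent.Y116.UV Pool.Agent.U554.TU
open Pool.Agent.U554.TW

namespace Pool.Agent.U554.TD

universe u

variable {k : Type} [Field k] {V : Type u} {C : Rel V} {O : ℤ → ℤ → Sch k → V}

/-- The groups of a point are trivial in the weights and the degrees `≤ 0`, except in the weight `0` and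
the degree `0`. -/
def PointZero (C : Rel V) (O : ℤ → ℤ → Sch k → V) : Prop :=
  ∀ c μ : ℤ, c ≤ 0 → μ ≤ 0 → (c ≠ 0 ∨ μ ≠ 0) → C.Triv (O c μ (aff k k))

lemma space_triv (hO : IsTheory C O) (hp : PointZero C O) (r : ℕ) (c μ : ℤ) (hc : c ≤ r)
    (hμ : μ ≤ 0) (h : c ≠ r ∨ μ ≠ 0) : C.Triv (O c μ (aff k (MvPolynomial (Fin r) k))) := by
  have h1 := hO.space k r (c - r) μ
  rw [sub_add_cancel] at h1
  exact C.iso_triv h1 (hp _ _ (by omega) hμ (by omega))

lemma torus_triv (hO : IsTheory C O) (hp : PointZero C O) (r : ℕ) (c μ : ℤ) (hc : c ≤ r)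
    (hμ : μ ≤ 0) : C.Triv (O c μ (aff k (LaurentPolynomial (MvPolynomial (Fin r) k)))) := by
  let A : Type := MvPolynomial (Fin r) k
  have hf : Algebra.FiniteType k (Polynomial A) :=
    Algebra.FiniteType.trans (S := A) inferInstance inferInstance
  have hf' : Algebra.FiniteType k (Localization.Away (Polynomial.X : Polynomial A)) :=
    Algebra.FiniteType.trans (S := Polynomial A) inferInstance inferInstance
  have hX : ∀ ν : ℤ, ν ≤ 0 → C.Triv (O c ν (aff k (Polynomial A))) := fun ν hν =>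
    C.iso_triv (hO.alg (finSuccEquiv k r) c ν)
      (space_triv hO hp (r + 1) c ν (by push_cast; omega) hν (Or.inl (by push_cast; omega)))
  have hZ : C.Triv (O c (μ - 1)
      (aff k (Polynomial A ⧸ Ideal.span {(Polynomial.X : Polynomial A)}))) :=
    C.iso_triv (C.iso_symm (hO.alg (Pool.Agent.U738.BN.polyQuot k A) c (μ - 1)))
      (space_triv hO hp r c (μ - 1) hc (by omega) (Or.inr (by omega)))
  have h1 := hO.closed _ _ (ft_aff True) (triple_away (Polynomial.X : Polynomial A)) c (μ - 1)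
    (hX _ (by omega)) (hX _ (by omega))
  rw [sub_add_cancel] at h1
  exact C.iso_triv (hO.alg (Pool.Agent.U738.BN.lauAway k A) c μ) (C.iso_triv (C.iso_symm h1) hZ)

/-- The groups of the boundary of the cone. -/
lemma cone_bd_triv (hO : IsTheory C O) (hp : PointZero C O) {n D : ℕ} (hn : 2 ≤ n)
    {G : Finset (MvPolynomial (Fin n) k)} {Q : Type} [CommRing Q] [Algebra k Q]
    [Algebra.FiniteType k Q] {y0 : Q} {y : Fin n → Q} {z : Mon n D → Q} (h : CRep G y0 y z)
    (c μ : ℤ) (hc : c ≤ n) (hμ : μ ≤ 0) (hN : ∀ r : ℕ, D ≤ r → ∀ (A : Type) [CommRing A]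
      [Algebra k A] [Algebra.FiniteType k A], C.Triv (O c μ (aff k (MvPolynomial (Fin r) A)))) :
    C.Triv (O c μ (aff k (Q ⧸ Ideal.span {y0 * z (mo n D)}))) := by
  classical
  obtain ⟨e⟩ := cone_bd_open h
  have hL : Algebra.FiniteType k (LaurentPolynomial (MvPolynomial (Fin n) k)) := ft_laurent _
  obtain ⟨B, _, _, _, ⟨e'⟩⟩ := cone_bd_closed h
  have h1 : y0 * z (mo n D) ∈ Ideal.span {y0} :=
    Ideal.mul_mem_right _ _ (Ideal.mem_span_singleton_self _)
  obtain ⟨e1⟩ := quot_quot (R := k) (y0 * z (mo n D)) y0 h1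
  refine hO.away_triv _ e (torus_triv hO hp n c μ hc hμ) ?_
  have e2 : MvPolynomial (Tm n D) B ≃ₐ[k] MvPolynomial (Fin (Fintype.card (Tm n D))) B :=
    (renameEquiv B (Fintype.equivFin (Tm n D))).restrictScalars k
  have h2 := card_tm (D := D) hn
  exact C.iso_triv (C.iso_symm (hO.alg ((e1.trans e').trans e2) c μ)) (hN _ (by omega) B)

/-- **Universality of the bilinear systems and of the hypersurfaces `T(x, y, z) = 1` with `n + 1`
variables in the block `y`.** -/
theorem universal_small (hO : IsTheory C O) (hp : PointZero C O) {S : Set k} (h0 : 0 ∈ S)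
    (h1 : 1 ∈ S) {n : ℕ} (hn : 2 ≤ n) {A : Type} [CommRing A] [Algebra k A]
    [Algebra.FiniteType k A] (φ : MvPolynomial (Fin n) k →ₐ[k] A)
    (G : Finset (MvPolynomial (Fin n) k)) (hs : Function.Surjective φ)
    (hK : RingHom.ker φ = Ideal.span (G : Set (MvPolynomial (Fin n) k)))
    (hc : ∀ g ∈ G, ∀ m, coeff m g ∈ S) (s : ℕ) (b : ℤ) (hb : b + 2 ≤ n) :
    ∃ (a₁ a₃ : ℕ) (T : Fin a₁ → Fin (n + 1) → Fin a₃ → k), (∀ i j l, T i j l ∈ S) ∧
      b + 2 + s < (n + 1 : ℕ) + a₃ ∧ C.Factor (O b 0 (aff k A)) (O (b + 2) 0 (bilS T)) ∧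
      C.Factor (O b 0 (aff k A)) (O (b + 2 + a₁ - 1) 1 (hypS T)) := by
  classical
  obtain ⟨N, hN⟩ := hO.large (b + 2) 0
  let D : ℕ := N + (b + 2).toNat + s + 1 + ∑ g ∈ G, ∑ m ∈ g.support, m.degree
  have hd : ∀ g ∈ G, ∀ m ∈ g.support, m.degree ≤ D := by
    intro g hg m hm
    have h1 : m.degree ≤ ∑ m ∈ g.support, m.degree :=
      Finset.single_le_sum (f := fun m : Fin n →₀ ℕ => m.degree) (fun _ _ => Nat.zero_le _) hm
    have h2 : ∑ m ∈ g.support, m.degree ≤ ∑ g ∈ G, ∑ m ∈ g.support, m.degree :=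
      Finset.single_le_sum (f := fun g : MvPolynomial (Fin n) k => ∑ m ∈ g.support, m.degree)
        (fun _ _ => Nat.zero_le _) hg
    omega
  -- the system
  let κ : Type := (Mon n D × Fin n) ⊕ G
  let e : Fin (Fintype.card κ) ≃ κ := (Fintype.equivFin κ).symm
  let eM : Fin (Fintype.card (Mon n D)) ≃ Mon n D := (Fintype.equivFin (Mon n D)).symm
  let T0 : Fin (Fintype.card κ) → Fin (n + 1) → Mon n D → k := fun i => ct D G (e i)
  let f : Fin (Fintype.card κ) → MvPolynomial (Fin (n + 1) ⊕ Mon n D) k :=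
    fun i => bil (Fin (n + 1)) (Mon n D) (T0 i)
  let Q : Type := MvPolynomial (Fin (n + 1) ⊕ Mon n D) k ⧸ Ideal.span (Set.range f)
  have hB : Bil (Q := Q) T0 _ _ := bil_std T0
  have hR := crep_of_bil e e.surjective hB
  set y0 : Q := (Ideal.Quotient.mk _ (X (Sum.inl (Fin.last n))) : Q) with hy0
  set z : Mon n D → Q := fun m => (Ideal.Quotient.mk _ (X (Sum.inr m)) : Q) with hz
  have hM : D ≤ Fintype.card (Mon n D) := by
    have h2 := card_tm (D := D) hn
    have h3 := Fintype.card_le_of_injective (fun m : Tm n D => m.1) Subtype.val_injective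
    omega
  -- the tori
  have hL := ft_laurent (R := k) A
  have hLL := ft_laurent (R := k) (LaurentPolynomial A)
  have k1 := C.factor_trans (hO.torus A b 0) (hO.torus (LaurentPolynomial A) (b + 1) 0)
  have hb2 : b + 1 + 1 = b + 2 := by ring
  rw [hb2] at k1
  obtain ⟨e0⟩ := cone_open hR φ hs hK hd
  have k2 : C.Factor (O b 0 (aff k A)) (O (b + 2) 0 (aff k (Localization.Away (y0 * z (mo n D))))) :=
    C.factor_trans k1 (C.iso_factor (hO.alg e0.symm (b + 2) 0))
  -- the boundary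
  have hbd : ∀ μ : ℤ, -1 ≤ μ → μ ≤ 0 →
      C.Triv (O (b + 2) μ (aff k (Q ⧸ Ideal.span {y0 * z (mo n D)}))) := by
    intro μ hm1 hm2
    exact cone_bd_triv hO hp hn hR (b + 2) μ hb hm2 fun r hr B _ _ _ =>
      hN r (by omega) μ (by omega) (by omega) B
  have k3 : C.Iso (O (b + 2) 0 (aff k Q)) (O (b + 2) 0 (aff k (Localization.Away
      (y0 * z (mo n D))))) := by
    have h := hO.opened _ _ (ft_aff True) (triple_away (y0 * z (mo n D))) (b + 2) (0 - 1)
      (hbd _ (by omega) (by omega)) (hbd _ (by omega) (by omega))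
    rwa [sub_add_cancel] at h
  -- the complement in the affine space
  have hcard : D ≤ Fintype.card (Fin (n + 1) ⊕ Mon n D) := by
    rw [Fintype.card_sum]
    omega
  have hsp : ∀ m' : ℤ, -1 ≤ m' → m' ≤ 1 →
      C.Triv (O (b + 2) m' (aff k (MvPolynomial (Fin (n + 1) ⊕ Mon n D) k))) := by
    intro m' hm1 hm2
    exact C.iso_triv (C.iso_symm
      (hO.alg (renameEquiv k (Fintype.equivFin (Fin (n + 1) ⊕ Mon n D))) _ _))
      (hN _ (by omega) m' (by omega) (by omega) k)
  have k4 := hO.closed_jou f (b + 2) 0 (hsp _ (by omega) (by omega)) (hsp _ (by omega) (by omega))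
  rw [zero_add] at k4
  have k6 := hO.alg (bilIso (Equiv.refl (Fin (n + 1))) eM T0).symm (b + 2) 0
  let T : Fin (Fintype.card κ) → Fin (n + 1) → Fin (Fintype.card (Mon n D)) → k :=
    fun i j l => T0 i j (eM l)
  have e6 : Hyp T ≃ₐ[k] Jou f :=
    (hypRename (Equiv.refl _) (Equiv.refl _) eM fun i => T0 i).trans (hypEquiv fun i => T0 i)
  have hHT : Algebra.FiniteType k (Hyp T) := inferInstance
  have k7 := hO.alg e6 (b + 2 + (Fintype.card κ : ℤ) - 1) 1
  have k8 : C.Factor (O b 0 (aff k A)) (O (b + 2) 0 (aff k Q)) :=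
    C.factor_trans k2 (C.iso_factor (C.iso_symm k3))
  refine ⟨Fintype.card κ, Fintype.card (Mon n D), T, fun i j l => ct_mem h0 h1 G hc _ _ _, ?_,
    C.factor_trans k8 (C.iso_factor k6), ?_⟩
  · push_cast
    omega
  · exact C.factor_trans k8 (C.factor_trans (C.iso_factor k4) (C.iso_factor (C.iso_symm k7)))

end Pool.Agent.U554.TD
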