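import Pool.Agent.U554.TD.Cls
import Pool.Agent.U554.TD.Cx

/-!
# Divisors on surfaces
-/

set_option autoImplicit false

open CategoryTheory AlgebraicGeometry MvPolynomial Pool.Agent.Y116.UV
open Pool.Agent.U554.TU Pool.Agent.U554.TW Pool.Agent.U483.GU

namespace Pool.Agent.U554.TD

universe w v u

variable {𝓡 : Type u} [Category.{v} 𝓡] [Abelian 𝓡] {one : 𝓡} {k : Type} [Field k]
  {O : ℤ → ℤ → Sch k → CReg.{w} one}

/-- **Divisors on surfaces.** The case `d = 2` of `class_tfae`, where only the classes of dimension one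
(divisors) on smooth projective surfaces occur in the first assertion. -/
theorem surface_tfae [PerfectField k] (hO : IsClassTheory O) (s : ℕ) :
    List.TFAE [
      ∀ V : Sch k, SmoothProjective V → topologicalKrullDim V.left ≤ (2 : ℕ) → (O 1 0 V).Onto,
      ∀ X : Sch k, FT True X → topologicalKrullDim X.left ≤ (2 : ℕ) → AllOnto O X,
      (∀ (a₁ a₂ a₃ : ℕ) (T : Fin a₁ → Fin a₂ → Fin a₃ → k), Block 4 a₁ a₂ a₃ →
        AllOnto O (bilS T)) ∧
      ∀ (n : ℕ) (G : Finset (MvPolynomial (Fin n) k)), ∑ g ∈ G, (g.support.card - 2) ≤ 2 →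
        AllOnto O (aff k (MvPolynomial (Fin n) k ⧸ Ideal.span (G : Set (MvPolynomial (Fin n) k)))),
      ∀ (a₁ a₂ a₃ : ℕ) (T : Fin a₁ → Fin a₂ → Fin a₃ → k), Block 4 a₁ a₂ a₃ →
        ∀ j : ℕ, 1 ≤ j → (O (a₁ + a₂ + a₃ - 1 - j) 1 (hypS T)).Onto,
      ∀ (a₁ a₃ : ℕ) (T : Fin a₁ → Fin 4 → Fin a₃ → k), ∀ j : ℕ, s ≤ j → 1 ≤ j →
        (O (a₁ + 4 + a₃ - 1 - j) 1 (hypS T)).Onto] := by
  have h := class_tfae hO 1 (fun V hV hdim b => hO.extreme V 1 b hV.ft hdim (by push_cast; omega))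
    2 (by norm_num) s
  tfae_have 1 → 2 := by
    intro h1
    refine (h.out 0 1).mp (Or.inr fun V hV hdim b => ?_)
    by_cases hb : b = 1
    · subst hb
      exact h1 V hV hdim
    · exact hO.extreme V 2 b hV.ft hdim (by push_cast; omega)
  tfae_have 2 → 1 := fun h1 V hV hdim => h1 V hV.ft hdim 1
  tfae_have 2 → 3 := by
    intro h1
    refine ⟨(h.out 1 2).mp h1, fun n G hG => complexity (sided_class hO) 2 (fun A _ _ _ hA => ?_) G hG⟩
    refine h1 _ (ft_aff True) ?_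
    rw [Pool.Agent.Z125.UN.topDim_aff]
    exact hA
  tfae_have 3 → 4 := fun h1 => (h.out 2 3).mp h1.1
  tfae_have 4 → 2 := fun h1 => (h.out 3 1).mp h1
  tfae_have 4 ↔ 5 := h.out 3 4
  tfae_finish

end Pool.Agent.U554.TD
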