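import Pool.Agent.U554.TD.Quart
import Pool.Agent.U554.TD.Surf

/-!
# Algebraic classes and trilinear forms with two small blocks
-/

set_option autoImplicit false

open CategoryTheory AlgebraicGeometry MvPolynomial Pool.Agent.Y116.UV
open Pool.Agent.U554.TU Pool.Agent.U554.TW Pool.Agent.U483.GU

namespace Pool.Agent.U554.TD

universe w v u

/-- One of the three blocks of variables has at most `r` elements and another one at most `D`. -/
def TwoBlocks (r D a₁ a₂ a₃ : ℕ) : Prop :=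
  (a₁ ≤ r ∧ (a₂ ≤ D ∨ a₃ ≤ D)) ∨ (a₂ ≤ r ∧ (a₁ ≤ D ∨ a₃ ≤ D)) ∨ (a₃ ≤ r ∧ (a₁ ≤ D ∨ a₂ ≤ D))

variable {𝓡 : Type u} [Category.{v} 𝓡] [Abelian 𝓡] {one : 𝓡} {k : Type} [Field k]
  {O : ℤ → ℤ → Sch k → CReg.{w} one}

lemma dim_of_smooth (hO : IsClassTheory O) (e : ℕ)
    (known : ∀ V : Sch k, SmoothProjective V → topologicalKrullDim V.left ≤ e → AllOnto O V)
    (X : Sch k) (hX : FT True X) (hdim : topologicalKrullDim X.left ≤ e) : AllOnto O X := by
  intro b x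
  obtain ⟨V, h1, h2, h3⟩ := hO.cover X hX
  obtain ⟨u, hu⟩ := h3 b
  obtain ⟨y, rfl⟩ := hu x
  obtain ⟨a, rfl⟩ := known V h1 (h2.trans hdim) b y
  exact ⟨u.f a, (u.comm a).symm⟩

/-- **Two small blocks.** -/
theorem two_small (hO : IsClassTheory O) (e D : ℕ)
    (known : ∀ V : Sch k, SmoothProjective V → topologicalKrullDim V.left ≤ e → AllOnto O V)
    (hq : ∀ f : MvPolynomial (Fin (e + 2)) k, Irreducible f → f.totalDegree ≤ D →
      AllOnto O (aff k (MvPolynomial (Fin (e + 2)) k ⧸ Ideal.span {f})))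
    {a₁ a₂ a₃ : ℕ} (T : Fin a₁ → Fin a₂ → Fin a₃ → k) (ha : TwoBlocks (e + 3) D a₁ a₂ a₃) :
    AllOnto O (bilS T) ∧ ∀ j : ℕ, 1 ≤ j → (O (a₁ + a₂ + a₃ - 1 - j) 1 (hypS T)).Onto := by
  have hT := hO.toIsCycTheory.isTheory
  have hdim : ∀ (A : Type) [CommRing A] [Algebra k A] [Algebra.FiniteType k A],
      ringKrullDim A ≤ e → AllOnto O (aff k A) := by
    intro A _ _ _ hA
    refine dim_of_smooth hO e known _ (ft_aff True) ?_
    rw [Pool.Agent.Z125.UN.topDim_aff]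
    exact hA
  have key : ∀ (b₁ b₂ b₃ : ℕ) (S : Fin b₁ → Fin b₂ → Fin b₃ → k), b₂ ≤ e + 3 →
      (b₁ ≤ D ∨ b₃ ≤ D) → ∀ j : ℕ, 1 ≤ j → (O (b₁ + b₂ + b₃ - 1 - j) 1 (hypS S)).Onto := by
    intro b₁ b₂ b₃ S hb hD j hj
    exact (bil_iff_hyp hO S j hj).mp (bil_two (sided_class hO) e D hdim hq hb hD S _)
  have hyp : ∀ j : ℕ, 1 ≤ j → (O (a₁ + a₂ + a₃ - 1 - j) 1 (hypS T)).Onto := by
    intro j hj
    rcases ha with ⟨h1, h2⟩ | ⟨h1, h2⟩ | ⟨h1, h2⟩
    · obtain ⟨e⟩ := hyp_swap T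
      have h3 := key a₂ a₁ a₃ (fun j i l => T i j l) h1 h2 j hj
      rw [show (a₂ + a₁ + a₃ - 1 - j : ℤ) = a₁ + a₂ + a₃ - 1 - j from by ring] at h3
      exact (onto_iso (hT.alg e _ 1)).mpr h3
    · exact key a₁ a₂ a₃ T h1 h2 j hj
    · obtain ⟨e⟩ := hyp_swap' T
      have h3 := key a₁ a₃ a₂ (fun i l j => T i j l) h1 h2 j hj
      rw [show (a₁ + a₃ + a₂ - 1 - j : ℤ) = a₁ + a₂ + a₃ - 1 - j from by ring] at h3
      exact (onto_iso (hT.alg e _ 1)).mpr h3
  exact ⟨all_bil hO T hyp, hyp⟩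

/-- The classes of divisors (of dimension one) are algebraic on the irreducible surfaces of degree at most
four in the affine space of dimension three. For the `ℓ`-adic classes which are invariant under the Galois
group of a finitely generated field this is known: these surfaces are birational to smooth projective
surfaces of Kodaira dimension at most `0` (ruled, `K3`, abelian, Enriques, bielliptic). -/
def QuarticSurfaces (O : ℤ → ℤ → Sch k → CReg.{w} one) : Prop :=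
  ∀ f : MvPolynomial (Fin 3) k, Irreducible f → f.totalDegree ≤ 4 →
    (O 1 0 (aff k (MvPolynomial (Fin 3) k ⧸ Ideal.span {f}))).Onto

/-- **Two blocks of at most four variables.** It is enough to know the surfaces of degree at most four. -/
theorem two_four (hO : IsClassTheory O) (hq : QuarticSurfaces O)
    {a₁ a₂ a₃ : ℕ} (T : Fin a₁ → Fin a₂ → Fin a₃ → k) (ha : TwoBlocks 4 4 a₁ a₂ a₃) :
    AllOnto O (bilS T) ∧ ∀ j : ℕ, 1 ≤ j → (O (a₁ + a₂ + a₃ - 1 - j) 1 (hypS T)).Onto := by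
  refine two_small hO 1 4 (fun V hV hdim b => hO.extreme V 1 b hV.ft hdim (by push_cast; omega))
    (fun f hf hdeg b => ?_) T ha
  by_cases hb : b = 1
  · subst hb
    exact hq f hf hdeg
  · refine hO.extreme _ 2 b (ft_aff True) ?_ (by push_cast; omega)
    rw [Pool.Agent.Z125.UN.topDim_aff]
    refine Pool.Agent.Z125.UN.dim_quot (N := 2) _ ?_
    rw [Ne, Ideal.span_singleton_eq_bot]
    exact hf.ne_zero

/-- **Unconditional cases.** Two blocks of at most four variables, or one block of at most three. -/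
theorem small_blocks [PerfectField k] (hO : IsClassTheory O) (hq : QuarticSurfaces O)
    {a₁ a₂ a₃ : ℕ} (T : Fin a₁ → Fin a₂ → Fin a₃ → k)
    (ha : Block 3 a₁ a₂ a₃ ∨ TwoBlocks 4 4 a₁ a₂ a₃) :
    AllOnto O (bilS T) ∧ ∀ j : ℕ, 1 ≤ j → (O (a₁ + a₂ + a₃ - 1 - j) 1 (hypS T)).Onto := by
  rcases ha with ha | ha
  · have known : ∀ V : Sch k, SmoothProjective V → topologicalKrullDim V.left ≤ (1 : ℕ) →
        AllOnto O V := fun V hV hdim b => hO.extreme V 1 b hV.ft hdim (by push_cast; omega)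
    have h := class_tfae hO 1 known 1 le_rfl 0
    have h1 : ∀ (a₁ a₂ a₃ : ℕ) (T : Fin a₁ → Fin a₂ → Fin a₃ → k), Block (1 + 2) a₁ a₂ a₃ →
        AllOnto O (bilS T) := (h.out 0 2).mp (Or.inl le_rfl)
    have h2 : ∀ (a₁ a₂ a₃ : ℕ) (T : Fin a₁ → Fin a₂ → Fin a₃ → k), Block (1 + 2) a₁ a₂ a₃ →
        ∀ j : ℕ, 1 ≤ j → (O (a₁ + a₂ + a₃ - 1 - j) 1 (hypS T)).Onto := (h.out 2 3).mp h1
    exact ⟨h1 a₁ a₂ a₃ T ha, h2 a₁ a₂ a₃ T ha⟩
  · exact two_four hO hq T ha

end Pool.Agent.U554.TD
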