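import Pool.Agent.U554.TD.Two
import Pool.Agent.U554.TD.Mot

/-!
# Classes in the objects of an abelian category and trilinear forms with two small blocks
-/

set_option autoImplicit false

open CategoryTheory AlgebraicGeometry MvPolynomial Pool.Agent.Y116.UV
open Pool.Agent.U554.TU Pool.Agent.U554.TW Pool.Agent.U483.GU

namespace Pool.Agent.U554.TD

universe v u

variable {𝓜 : Type u} [Category.{v} 𝓜] [Abelian 𝓜] {k : Type} [Field k] {O : ℤ → ℤ → Sch k → 𝓜}
  {P : 𝓜 → Prop}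

/-- **One small block.** If the property is known for the smooth projective schemes of dimension at most `e`,
then it holds for the trilinear forms with a block of at most `e + 2` variables. -/
theorem mot_one (hP : Inherited (abRel 𝓜) P) (hO : IsSidedTheory P O) (e : ℕ)
    (known : ∀ V : Sch k, SmoothProjective V → topologicalKrullDim V.left ≤ e → AllP P O V)
    {a₁ a₂ a₃ : ℕ} (T : Fin a₁ → Fin a₂ → Fin a₃ → k) (ha : OneBlock (e + 2) a₁ a₂ a₃) :
    AllP P O (bilS T) ∧ ∀ j : ℕ, 1 ≤ j → P (O (a₁ + a₂ + a₃ - 1 - j) 1 (hypS T)) := by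
  have hsch : ∀ X : Sch k, FT True X → topologicalKrullDim X.left ≤ e → AllP P O X := by
    intro X hX hdim b
    obtain ⟨V, h1, h2, h3⟩ := hO.cover X hX
    exact h3 b (known V h1 (h2.trans hdim) b)
  have hyp : ∀ j : ℕ, 1 ≤ j → P (O (a₁ + a₂ + a₃ - 1 - j) 1 (hypS T)) :=
    fun j hj => hyp_of_dim_ab hP hO e hsch T ha j hj
  exact ⟨all_bil_ab hP hO T hyp, hyp⟩

/-- **Two small blocks.** If the property is known for the smooth projective schemes of dimension at most `e`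
and for the irreducible hypersurfaces of degree at most `D` in the affine space of dimension `e + 2`, then it
holds for the trilinear forms with a block of at most `e + 3` variables and another one of at most `D`. -/
theorem mot_two (hP : Inherited (abRel 𝓜) P) (hO : IsSidedTheory P O) (e D : ℕ)
    (known : ∀ V : Sch k, SmoothProjective V → topologicalKrullDim V.left ≤ e → AllP P O V)
    (hq : ∀ f : MvPolynomial (Fin (e + 2)) k, Irreducible f → f.totalDegree ≤ D →
      AllP P O (aff k (MvPolynomial (Fin (e + 2)) k ⧸ Ideal.span {f})))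
    {a₁ a₂ a₃ : ℕ} (T : Fin a₁ → Fin a₂ → Fin a₃ → k)
    (ha : OneBlock (e + 2) a₁ a₂ a₃ ∨ TwoBlocks (e + 3) D a₁ a₂ a₃) :
    AllP P O (bilS T) ∧ ∀ j : ℕ, 1 ≤ j → P (O (a₁ + a₂ + a₃ - 1 - j) 1 (hypS T)) := by
  have hT := hO.toIsAbTheory.isTheory
  have hsch : ∀ X : Sch k, FT True X → topologicalKrullDim X.left ≤ e → AllP P O X := by
    intro X hX hdim b
    obtain ⟨V, h1, h2, h3⟩ := hO.cover X hX
    exact h3 b (known V h1 (h2.trans hdim) b)
  have hdim : ∀ (A : Type) [CommRing A] [Algebra k A] [Algebra.FiniteType k A],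
      ringKrullDim A ≤ e → AllP P O (aff k A) := by
    intro A _ _ _ hA
    refine hsch _ (ft_aff True) ?_
    rw [Pool.Agent.Z125.UN.topDim_aff]
    exact hA
  have key : ∀ (b₁ b₂ b₃ : ℕ) (S : Fin b₁ → Fin b₂ → Fin b₃ → k), b₂ ≤ e + 3 →
      (b₁ ≤ D ∨ b₃ ≤ D) → ∀ j : ℕ, 1 ≤ j → P (O (b₁ + b₂ + b₃ - 1 - j) 1 (hypS S)) := by
    intro b₁ b₂ b₃ S hb hD j hj
    exact (hP.iff (bil_iso_hyp hO.toIsAbTheory hO.point S j hj)).mp
      (bil_two (sided_ab hP hO) e D hdim hq hb hD S _)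
  have hyp : ∀ j : ℕ, 1 ≤ j → P (O (a₁ + a₂ + a₃ - 1 - j) 1 (hypS T)) := by
    intro j hj
    rcases ha with ha | ⟨h1, h2⟩ | ⟨h1, h2⟩ | ⟨h1, h2⟩
    · exact hyp_of_dim_ab hP hO e hsch T ha j hj
    · obtain ⟨e⟩ := hyp_swap T
      have h3 := key a₂ a₁ a₃ (fun j i l => T i j l) h1 h2 j hj
      rw [show (a₂ + a₁ + a₃ - 1 - j : ℤ) = a₁ + a₂ + a₃ - 1 - j from by ring] at h3
      exact (hP.iff (hT.alg e _ 1)).mpr h3
    · exact key a₁ a₂ a₃ T h1 h2 j hj
    · obtain ⟨e⟩ := hyp_swap' T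
      have h3 := key a₁ a₃ a₂ (fun i l j => T i j l) h1 h2 j hj
      rw [show (a₁ + a₃ + a₂ - 1 - j : ℤ) = a₁ + a₂ + a₃ - 1 - j from by ring] at h3
      exact (hP.iff (hT.alg e _ 1)).mpr h3
  exact ⟨all_bil_ab hP hO T hyp, hyp⟩

end Pool.Agent.U554.TD
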