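import Pool.Agent.U554.TD.Wd

/-!
# Monodromy and weights, dimension by dimension
-/

set_option autoImplicit false

open CategoryTheory AlgebraicGeometry MvPolynomial Pool.Agent.Y116.UV
open Pool.Agent.U554.TU Pool.Agent.U554.TW Pool.Agent.U483.GU

namespace Pool.Agent.U554.TD

universe v u w

variable {K : Type w} [Field K] {𝓢 : Type u} [Category.{v} 𝓢] [Abelian 𝓢] {k : Type} [Field k]
  (S : Monodromy K 𝓢) (O : ℤ → ℤ → Sch k → 𝓢)

/-- The objects `O b 0 X` are pure for all `b`. -/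
def PureOn (X : Sch k) : Prop := ∀ b : ℤ, S.Pure (O b 0 X)

/-- Known cases of purity of the even cohomology.

* `artin`: the weights `b ≤ 0` and `b ≥ dim X`, where `gr^W_0 H_{2 b}(X)(-b)` is an Artin motive;
* `threefold`: the smooth projective schemes `V` of dimension at most `3`: in `H^0` and `H^2`, and therefore in
  `H^4` and `H^6` (hard Lefschetz). -/
structure KnownPure : Prop where
  artin : ∀ (X : Sch k) (d : ℕ) (b : ℤ), FT True X → topologicalKrullDim X.left ≤ d →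
    (b ≤ 0 ∨ (d : ℤ) ≤ b) → S.Pure (O b 0 X)
  threefold : ∀ V : Sch k, SmoothProjective V → topologicalKrullDim V.left ≤ (3 : ℕ) → PureOn S O V

variable {S O}

/-- **Unconditional cases.** -/
theorem pure_small (hO : IsPureTheory O) (hK : KnownPure S O) {a₁ a₂ a₃ : ℕ}
    (T : Fin a₁ → Fin a₂ → Fin a₃ → k) (ha : OneBlock 5 a₁ a₂ a₃) :
    PureOn S O (bilS T) ∧ ∀ j : ℕ, 1 ≤ j → S.Pure (O (a₁ + a₂ + a₃ - 1 - j) 1 (hypS T)) :=
  mot_one S.isAdditive.inherited (pure_sided S.isAdditive hO hK.artin) 3 hK.threefold T ha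

/-- **Dimension by dimension.** -/
theorem pure_tfae [PerfectField k] (hO : IsPureTheory O) (hK : KnownPure S O) (d : ℕ) (hd : 1 ≤ d)
    (s : ℕ) :
    List.TFAE [
      d ≤ 3 ∨ ∀ V : Sch k, SmoothProjective V → topologicalKrullDim V.left ≤ d → PureOn S O V,
      ∀ X : Sch k, FT True X → topologicalKrullDim X.left ≤ d → PureOn S O X,
      (∀ (a₁ a₂ a₃ : ℕ) (T : Fin a₁ → Fin a₂ → Fin a₃ → k), OneBlock (d + 2) a₁ a₂ a₃ →
        PureOn S O (bilS T)) ∧
      ∀ (n : ℕ) (G : Finset (MvPolynomial (Fin n) k)), ∑ g ∈ G, (g.support.card - 2) ≤ d →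
        PureOn S O (aff k (MvPolynomial (Fin n) k ⧸ Ideal.span (G : Set (MvPolynomial (Fin n) k)))),
      ∀ (a₁ a₂ a₃ : ℕ) (T : Fin a₁ → Fin a₂ → Fin a₃ → k), OneBlock (d + 2) a₁ a₂ a₃ →
        ∀ j : ℕ, 1 ≤ j → S.Pure (O (a₁ + a₂ + a₃ - 1 - j) 1 (hypS T)),
      ∀ (a₁ a₃ : ℕ) (T : Fin a₁ → Fin (d + 2) → Fin a₃ → k), ∀ j : ℕ, s ≤ j → 1 ≤ j →
        S.Pure (O (a₁ + (d + 2) + a₃ - 1 - j) 1 (hypS T))] := by
  have hS := pure_sided S.isAdditive hO hK.artin
  have h := mot_tfae S.isAdditive.inherited hS 3 hK.threefold d hd s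
  tfae_have 1 ↔ 2 := h.out 0 1
  tfae_have 2 → 3 := by
    intro h1
    refine ⟨(h.out 1 2).mp h1, fun n G hG =>
      complexity (sided_ab S.isAdditive.inherited hS) d (fun A _ _ _ hA => ?_) G hG⟩
    refine h1 _ (ft_aff True) ?_
    rw [Pool.Agent.Z125.UN.topDim_aff]
    exact hA
  tfae_have 3 → 4 := fun h1 => (h.out 2 3).mp h1.1
  tfae_have 4 → 2 := fun h1 => (h.out 3 1).mp h1
  tfae_have 4 ↔ 5 := h.out 3 4
  tfae_finish

end Pool.Agent.U554.TD
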